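import Pool.Agent.Lib.MP_7f581e_Z.Top.Spec

/-!
# Groups at the top: the statement Emb

A finite Galois extension of `𝔽_p(X)` is embedded in `Ω`, `X ↦ t`.
-/

set_option autoImplicit false

namespace MP7Z

namespace Top

/-- An automorphism of `Ω` which fixes `t` fixes the image of `emb`. -/
theorem Emb_fix {p : ℕ} [Fact p.Prime] {Ω : Type} [Field Ω] [Algebra (ZMod p) Ω] {t : Ω}
    (ht : Transcendental (ZMod p) t) {γ : Ω ≃ₐ[ZMod p] Ω} (hγ : γ t = t)
    (r : RatFunc (ZMod p)) : γ (emb ht r) = emb ht r := by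
  have h1 : (γ.toRingEquiv : Ω →+* Ω).comp (emb ht) = emb ht := by
    apply IsFractionRing.ringHom_ext (A := Polynomial (ZMod p))
    intro P
    have h2 : ((γ.toRingEquiv : Ω →+* Ω).comp (emb ht)).comp
        (algebraMap (Polynomial (ZMod p)) (RatFunc (ZMod p))) =
        (emb ht).comp (algebraMap (Polynomial (ZMod p)) (RatFunc (ZMod p))) := by
      apply Polynomial.ringHom_ext
      · intro c
        have h3 : algebraMap (Polynomial (ZMod p)) (RatFunc (ZMod p)) (Polynomial.C c) =
            algebraMap (ZMod p) (RatFunc (ZMod p)) c := rfl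
        change γ (emb ht (algebraMap (Polynomial (ZMod p)) (RatFunc (ZMod p)) (Polynomial.C c))) =
          emb ht (algebraMap (Polynomial (ZMod p)) (RatFunc (ZMod p)) (Polynomial.C c))
        rw [h3, emb_C]
        exact γ.commutes c
      · change γ (emb ht (algebraMap (Polynomial (ZMod p)) (RatFunc (ZMod p)) Polynomial.X)) =
          emb ht (algebraMap (Polynomial (ZMod p)) (RatFunc (ZMod p)) Polynomial.X)
        rw [RatFunc.algebraMap_X, emb_X, hγ]
    exact congrArg (fun g : Polynomial (ZMod p) →+* Ω => g P) h2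
  exact congrArg (fun g : RatFunc (ZMod p) →+* Ω => g r) h1

theorem tEmb : EmbStmt := by
  intro p _ Ω _ _ t hst L _ _ _ _
  have := hst.sepClosed
  let _ : Algebra (RatFunc (ZMod p)) Ω := (emb hst.transc).toAlgebra
  have hgal : IsGalois (RatFunc (ZMod p)) Ω := isGalois_emb hst
  have hr : ∀ r, algebraMap (RatFunc (ZMod p)) Ω r = emb hst.transc r := fun _ => rfl
  let j : L →ₐ[RatFunc (ZMod p)] Ω := IsSepClosed.lift
  let _ : Algebra L Ω := j.toRingHom.toAlgebra
  have hj : ∀ y : L, algebraMap L Ω y = j y := fun _ => rfl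
  have : IsScalarTower (RatFunc (ZMod p)) L Ω :=
    IsScalarTower.of_algebraMap_eq' j.comp_algebraMap.symm
  -- from `Gx p t` to the automorphisms over `𝔽_p(X)`
  let toA : Gx p t →* (Ω ≃ₐ[RatFunc (ZMod p)] Ω) :=
    { toFun := fun γ => AlgEquiv.ofRingEquiv (f := (γ : Ω ≃ₐ[ZMod p] Ω).toRingEquiv)
        fun r => Emb_fix hst.transc (mem_Gx.1 γ.2) r
      map_one' := AlgEquiv.ext fun _ => rfl
      map_mul' := fun _ _ => AlgEquiv.ext fun _ => rfl }
  have htoA : ∀ (γ : Gx p t) (z : Ω), toA γ z = (γ : Ω ≃ₐ[ZMod p] Ω) z := fun _ _ => rfl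
  have hsurj : Function.Surjective toA := by
    intro γ
    have hC : ∀ c : ZMod p, γ (algebraMap (ZMod p) Ω c) = algebraMap (ZMod p) Ω c := by
      intro c
      rw [← emb_C hst.transc c]
      exact γ.commutes _
    refine ⟨⟨AlgEquiv.ofRingEquiv (f := γ.toRingEquiv) hC, ?_⟩, AlgEquiv.ext fun _ => rfl⟩
    rw [mem_Gx]
    have h1 : γ (emb hst.transc RatFunc.X) = emb hst.transc RatFunc.X := γ.commutes _
    rw [emb_X] at h1
    exact h1
  let ψ : Gx p t →* (L ≃ₐ[RatFunc (ZMod p)] L) := (AlgEquiv.restrictNormalHom L).comp toA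
  have hψ : ∀ (γ : Gx p t) (y : L), j (ψ γ y) = (γ : Ω ≃ₐ[ZMod p] Ω) (j y) := fun γ y =>
    AlgEquiv.restrictNormal_commutes (toA γ) L y
  refine ⟨j.toRingHom, ψ, fun r => j.commutes r, ?_, ?_, ?_, hψ⟩
  · have h1 : j (algebraMap (RatFunc (ZMod p)) L RatFunc.X) = emb hst.transc RatFunc.X :=
      j.commutes _
    rw [emb_X] at h1
    exact h1
  · classical
    let b := Module.finBasis (RatFunc (ZMod p)) L
    refine ⟨Finset.univ.image fun i => j (b i), fun γ hγ => ?_⟩
    have h1 : ∀ i, ψ γ (b i) = b i := by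
      intro i
      have h3 : j (ψ γ (b i)) = j (b i) := by
        rw [hψ]
        exact hγ _ (Finset.mem_image_of_mem _ (Finset.mem_univ i))
      exact j.toRingHom.injective h3
    have h2 : (ψ γ).toLinearMap = (1 : L ≃ₐ[RatFunc (ZMod p)] L).toLinearMap :=
      b.ext fun i => h1 i
    exact AlgEquiv.ext fun y => congrArg (fun g : L →ₗ[RatFunc (ZMod p)] L => g y) h2
  · exact (AlgEquiv.restrictNormalHom_surjective Ω).comp hsurj

end Top

end MP7Z
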