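import Pool.Agent.Lib.MP_7f581e_Z.Top.Spec

/-!
# Groups at the top: the statement Ext

From a realized group to its extensions by kernels with factors in the list.
-/

set_option autoImplicit false

namespace MP7Z

namespace Top

theorem tExt : ExtStmt := by
  intro p _ hL hP 𝒮 hsim hiso hS Ω _ _ x G _ _ ψ hψ
  have hsim' : ∀ (S : Type) [Group S], ((Nat.card S).Prime ∨ 𝒮 S) → IsSimpleGroup S := by
    intro S _ h
    rcases h with h | h
    · have : Fact (Nat.card S).Prime := ⟨h⟩
      exact isSimpleGroup_of_prime_card rfl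
    · exact hsim S h
  have hiso' : ∀ (S T : Type) [Group S] [Group T], (S ≃* T) → ((Nat.card S).Prime ∨ 𝒮 S) →
      ((Nat.card T).Prime ∨ 𝒮 T) := by
    intro S T _ _ e h
    rcases h with h | h
    · left
      rw [← Nat.card_congr e.toEquiv]
      exact h
    · exact Or.inr (hiso S T e h)
  suffices H : ∀ (m : ℕ) (E : Type) [Group E] [Finite E] (f : E →* G), Function.Surjective f →
      MP7fC.HasFactors (fun S [Group S] => (Nat.card S).Prime ∨ 𝒮 S) f.ker → Nat.card E = m →
      ∃ (x' : Ω) (ψ' : Gx p x' →* E), GoodR p x' ψ' from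
    fun E _ _ f hf h => H _ E f hf h rfl
  intro m
  induction m using Nat.strong_induction_on with
  | _ m ih =>
    intro E _ _ f hf hF hm
    by_cases hbot : f.ker = ⊥
    · -- `f` is an isomorphism
      have hinj : Function.Injective f := (MonoidHom.ker_eq_bot_iff f).1 hbot
      let e : E ≃* G := MulEquiv.ofBijective f ⟨hinj, hf⟩
      exact ⟨x, e.symm.toMonoidHom.comp ψ, hψ.map _ e.symm.surjective⟩
    · obtain ⟨M, hM, hMN, hM1, hmin, S, hSn, hSs, k, ⟨φ⟩⟩ := exists_min f.ker hbot
      -- the quotient by `M`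
      let g : E ⧸ M →* G := QuotientGroup.lift M f fun a ha => hMN ha
      have hg : Function.Surjective g := by
        intro b
        obtain ⟨a, rfl⟩ := hf b
        exact ⟨(a : E ⧸ M), rfl⟩
      have hgF : MP7fC.HasFactors (fun S [Group S] => (Nat.card S).Prime ∨ 𝒮 S) g.ker := by
        let t : f.ker →* g.ker :=
          { toFun := fun a => ⟨((a : E) : E ⧸ M), MonoidHom.mem_ker.2 (MonoidHom.mem_ker.1 a.2)⟩
            map_one' := rfl
            map_mul' := fun _ _ => rfl }
        refine hF.of_surjective hiso' hsim' _ t ?_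
        rintro ⟨a, ha⟩
        obtain ⟨a, rfl⟩ := QuotientGroup.mk_surjective a
        exact ⟨⟨a, MonoidHom.mem_ker.2 (MonoidHom.mem_ker.1 ha)⟩, rfl⟩
      obtain ⟨x₁, ψ₁, hψ₁⟩ := ih (Nat.card (E ⧸ M))
        (by rw [← hm]; exact card_quot_lt M hM1) (E ⧸ M) g hg hgF rfl
      -- the simple factor is in the list
      have hMF : MP7fC.HasFactors (fun S [Group S] => (Nat.card S).Prime ∨ 𝒮 S) M := by
        refine hF.of_injective hiso' hsim' M (Subgroup.inclusion hMN)
          (Subgroup.inclusion_injective hMN) ?_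
        rw [Subgroup.inclusion_range]
        exact hM.subgroupOf _
      have hSF : MP7fC.HasFactors (fun S [Group S] => (Nat.card S).Prime ∨ 𝒮 S) S := by
        refine hMF.of_injective hiso' hsim' S S.subtype S.subtype_injective ?_
        rw [Subgroup.range_subtype]
        exact hSn
      have h3 : (Nat.card S).Prime ∨ 𝒮 S := hSF.mem_of_isSimpleGroup hiso' hsim'
      have hq := QuotientGroup.mk'_surjective M
      have hker : (QuotientGroup.mk' M).ker = M := QuotientGroup.ker_mk' M
      have e3 : ∀ N : Subgroup E, N.Normal → N ≤ (QuotientGroup.mk' M).ker →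
          N = ⊥ ∨ N = (QuotientGroup.mk' M).ker := by
        rw [hker]
        exact hmin
      rcases h3 with h3 | h3
      · obtain ⟨h1, h2⟩ := elem_of_pi φ h3 rfl
        have e1 : ∀ a ∈ (QuotientGroup.mk' M).ker, a ^ Nat.card S = 1 := by
          intro a ha
          rw [hker] at ha
          exact congrArg Subtype.val (h1 ⟨a, ha⟩)
        have e2 : ∀ a ∈ (QuotientGroup.mk' M).ker, ∀ b ∈ (QuotientGroup.mk' M).ker,
            a * b = b * a := by
          intro a ha b hb
          rw [hker] at ha hb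
          exact congrArg Subtype.val (h2 ⟨a, ha⟩ ⟨b, hb⟩)
        by_cases hℓ : Nat.card S = p
        · obtain ⟨ψ', hψ', -⟩ := hP Ω x₁ (E ⧸ M) ψ₁ hψ₁ E (QuotientGroup.mk' M) hq
            (by rw [← hℓ]; exact e1) e2 e3
          exact ⟨x₁, ψ', hψ'⟩
        · obtain ⟨x', -, -, -, ψ', hψ', -⟩ := hL Ω x₁ (E ⧸ M) ψ₁ hψ₁ E (QuotientGroup.mk' M) hq
            (Nat.card S) h3 hℓ e1 e2 e3
          exact ⟨x', ψ', hψ'⟩
      · have e4 : (QuotientGroup.mk' M).ker ≃* (Fin k → S) :=
          (MulEquiv.subgroupCongr hker).trans φ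
        obtain ⟨x', ψ', hψ'⟩ := hS Ω x₁ (E ⧸ M) ψ₁ hψ₁ E (QuotientGroup.mk' M) hq S (Fin k) h3
          ⟨e4⟩ e3
        exact ⟨x', ψ', hψ'⟩

end Top

end MP7Z
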