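import Pool.Agent.Lib.MP_7f581e_Z.Top.Spec

/-!
# Kil: a root of `x` of sufficiently divisible degree kills the tame ramification over `x = 0`
-/

set_option autoImplicit false

namespace MP7Z

namespace Top

open Polynomial

section Kil

theorem Kil_bd {𝕜 E : Type} [Field 𝕜] [IsAlgClosed 𝕜] [Field E] [Algebra 𝕜 E]
    [IsCurveField 𝕜 E] {f : E} (hf : f ≠ 0) : ∃ b : ℕ, ∀ v : Place 𝕜 E, v.pord f ≤ b := by
  have hfin := finite_ord_ne (𝕜 := 𝕜) hf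
  have h1 : ((fun v : Place 𝕜 E => v.pord f) '' {v | v.ord f ≠ 0}).Finite := hfin.image _
  obtain ⟨b, hb⟩ := h1.bddAbove
  refine ⟨b.toNat, fun v => ?_⟩
  by_cases h : v.ord f = 0
  · have h2 : v.pord f = 0 := (v.pord_eq_iff hf 0).2 h
    rw [h2]
    positivity
  · exact (hb ⟨v, h, rfl⟩).trans (Int.self_le_toNat b)

variable {p : ℕ} [Fact p.Prime] {Ω : Type} [Field Ω] [Algebra (ZMod p) Ω]

/-- The fixed field of one automorphism. -/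
def Kil_ff (γ : Ω ≃ₐ[ZMod p] Ω) (h : γ ∈ Fx p (Cst p Ω : Set Ω)) :
    IntermediateField (Cst p Ω) Ω where
  carrier := {f | γ f = f}
  mul_mem' := by
    intro a b ha hb
    change γ (a * b) = a * b
    rw [map_mul, ha, hb]
  add_mem' := by
    intro a b ha hb
    change γ (a + b) = a + b
    rw [map_add, ha, hb]
  algebraMap_mem' c := h c c.2
  inv_mem' := by
    intro a ha
    change γ a⁻¹ = a⁻¹
    rw [map_inv₀, ha]

theorem Kil_mem_ff {γ : Ω ≃ₐ[ZMod p] Ω} {h : γ ∈ Fx p (Cst p Ω : Set Ω)} {f : Ω} :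
    f ∈ Kil_ff γ h ↔ γ f = f := Iff.rfl

/-- The level of the subgroup `C`. -/
theorem Kil_lev {x : Ω} (hst : IsStage p x) {G : Type} [Group G] (ψ : Gx p x →* G)
    (hψ : FinLevel ψ) (C : Subgroup G) :
    ∃ K : IntermediateField (Cst p Ω) Ω, IsLevel p x K ∧ ∀ γ : Ω ≃ₐ[ZMod p] Ω,
      γ ∈ Fx p (K : Set Ω) ↔ γ ∈ Fx p (Cst p Ω : Set Ω) ∧ ∃ h : γ ∈ Gx p x, ψ ⟨γ, h⟩ ∈ C := by
  classical
  obtain ⟨S, hS⟩ := hψ
  have hmem : ∀ γ : Ω ≃ₐ[ZMod p] Ω,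
      γ ∈ (Fx p (Cst p Ω : Set Ω) ⊓ (C.comap ψ).map (Gx p x).subtype :
        Subgroup (Ω ≃ₐ[ZMod p] Ω)) ↔
      γ ∈ Fx p (Cst p Ω : Set Ω) ∧ ∃ h : γ ∈ Gx p x, ψ ⟨γ, h⟩ ∈ C := by
    intro γ
    rw [Subgroup.mem_inf, Subgroup.mem_map]
    constructor
    · rintro ⟨h1, δ, h2, rfl⟩
      exact ⟨h1, δ.2, h2⟩
    · rintro ⟨h1, h2, h3⟩
      exact ⟨h1, ⟨γ, h2⟩, h3, rfl⟩
  obtain ⟨K, hK, hKH, -, -⟩ := br_gal p Ω x hst
    (Fx p (Cst p Ω : Set Ω) ⊓ (C.comap ψ).map (Gx p x).subtype) S (by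
      intro γ hγ
      obtain ⟨h1, h2, -⟩ := (hmem γ).1 hγ
      rw [mem_Fx]
      intro a ha
      rcases ha with rfl | ha
      · exact mem_Gx.1 h2
      · exact h1 a ha) (by
      intro γ hγ
      rw [mem_Fx] at hγ
      rw [hmem]
      refine ⟨fun a ha => hγ a (Or.inl (Or.inr ha)), mem_Gx.2 (hγ x (Or.inl (Or.inl rfl))), ?_⟩
      rw [hS _ fun s hs => hγ s (Or.inr hs)]
      exact C.one_mem)
  refine ⟨K, hK, fun γ => ?_⟩
  rw [hKH, hmem]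

/-- Kummer theory: if `g` has prime order `ℓ ≠ p`, then there is a Kummer generator which is moved
by all the `γ` with `ψ γ = g`. -/
theorem Kil_kum {x : Ω} (hst : IsStage p x) {G : Type} [Group G] (ψ : Gx p x →* G)
    (hψ : FinLevel ψ) {ℓ : ℕ} (hℓ : ℓ.Prime) (hℓp : ℓ ≠ p) {g : G} (hg : orderOf g = ℓ)
    {K : IntermediateField (Cst p Ω) Ω} (hK : IsLevel p x K)
    (hKm : ∀ γ : Ω ≃ₐ[ZMod p] Ω, γ ∈ Fx p (K : Set Ω) ↔ γ ∈ Fx p (Cst p Ω : Set Ω) ∧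
      ∃ h : γ ∈ Gx p x, ψ ⟨γ, h⟩ ∈ Subgroup.zpowers g)
    {γ : Ω ≃ₐ[ZMod p] Ω} (hγ : γ ∈ Fx p (K : Set Ω)) (hγx : γ ∈ Gx p x)
    (hγg : ψ ⟨γ, hγx⟩ = g) : ∃ (z : K) (Z : Ω), Z ^ ℓ = (z : Ω) ∧ γ Z ≠ Z := by
  have hac : IsAlgClosed (Cst p Ω) := br_cst p Ω x hst
  have hgal : IsGalois K Ω := LevAux.isGalois_top hst hK.mem
  have h1 : ∀ δ : Ω ≃ₐ[K] Ω, LevAux.ofK δ ∈ Gx p x := fun δ =>
    ((hKm _).1 (LevAux.ofK_mem δ)).2.choose
  have h2 : ∀ δ : Ω ≃ₐ[K] Ω, ψ ⟨LevAux.ofK δ, h1 δ⟩ ∈ Subgroup.zpowers g := fun δ =>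
    ((hKm _).1 (LevAux.ofK_mem δ)).2.choose_spec
  let ψ' : (Ω ≃ₐ[K] Ω) →* Subgroup.zpowers g :=
    { toFun := fun δ => ⟨ψ ⟨LevAux.ofK δ, h1 δ⟩, h2 δ⟩
      map_one' := Subtype.ext (by
        have h3 : (⟨LevAux.ofK (1 : Ω ≃ₐ[K] Ω), h1 1⟩ : Gx p x) = 1 :=
          Subtype.ext (AlgEquiv.ext fun _ => rfl)
        change ψ ⟨LevAux.ofK (1 : Ω ≃ₐ[K] Ω), h1 1⟩ = 1
        rw [h3, map_one])
      map_mul' := fun a b => Subtype.ext (by
        have h3 : (⟨LevAux.ofK (a * b), h1 (a * b)⟩ : Gx p x) =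
            ⟨LevAux.ofK a, h1 a⟩ * ⟨LevAux.ofK b, h1 b⟩ :=
          Subtype.ext (AlgEquiv.ext fun _ => rfl)
        change ψ ⟨LevAux.ofK (a * b), h1 (a * b)⟩ =
          ψ ⟨LevAux.ofK a, h1 a⟩ * ψ ⟨LevAux.ofK b, h1 b⟩
        rw [h3, map_mul]) }
  have hψ'v : ∀ δ : Ω ≃ₐ[K] Ω, ((ψ' δ : Subgroup.zpowers g) : G) = ψ ⟨LevAux.ofK δ, h1 δ⟩ :=
    fun _ => rfl
  let γ' : Ω ≃ₐ[K] Ω := LevAux.overK γ hγ
  have hγ' : ((ψ' γ' : Subgroup.zpowers g) : G) = g := by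
    rw [hψ'v, ← hγg]
    exact congrArg ψ (Subtype.ext (AlgEquiv.ext fun _ => rfl))
  have hpow : ∀ c : Subgroup.zpowers g, ∃ k : ℤ, ψ' (γ' ^ k) = c := by
    rintro ⟨c, k, rfl⟩
    refine ⟨k, Subtype.ext ?_⟩
    rw [map_zpow, Subgroup.coe_zpow, hγ']
  have hsurj : Function.Surjective ψ' := fun c => by
    obtain ⟨k, hk⟩ := hpow c
    exact ⟨_, hk⟩
  obtain ⟨S, hS⟩ := hψ
  obtain ⟨L, hfd, hLg, ⟨e⟩, hfix⟩ := reg_gal ψ' hsurj S (fun δ hδ =>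
    Subtype.ext (hS ⟨LevAux.ofK δ, h1 δ⟩ hδ))
  have hcard : Nat.card (L ≃ₐ[K] L) = ℓ := by
    rw [Nat.card_congr e.toEquiv, Nat.card_zpowers, hg]
  have hrank : Module.finrank K L = ℓ := by
    rw [← IsGalois.card_aut_eq_finrank, hcard]
  have hcyc : IsCyclic (L ≃ₐ[K] L) := by
    have : Fact ℓ.Prime := ⟨hℓ⟩
    exact isCyclic_of_prime_card hcard
  have hchar : CharP (Cst p Ω) p := by
    have : CharP (ZMod p) p := ZMod.charP p
    exact charP_of_injective_algebraMap (algebraMap (ZMod p) (Cst p Ω)).injective p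
  have hne : NeZero (ℓ : Cst p Ω) := ⟨by
    rw [Ne, CharP.cast_eq_zero_iff (Cst p Ω) p]
    intro h
    exact hℓp ((Nat.prime_dvd_prime_iff_eq (Fact.out : p.Prime) hℓ).1 h).symm⟩
  have hprim : (primitiveRoots (Module.finrank K L) K).Nonempty := by
    obtain ⟨ζ, hζ⟩ := HasEnoughRootsOfUnity.exists_primitiveRoot (Cst p Ω) ℓ
    rw [hrank]
    refine ⟨algebraMap (Cst p Ω) K ζ, ?_⟩
    rw [mem_primitiveRoots hℓ.pos]
    exact hζ.map_of_injective (algebraMap (Cst p Ω) K).injective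
  obtain ⟨Z, ⟨z, hz⟩, htop⟩ := exists_root_adjoin_eq_top_of_isCyclic K L hprim
  rw [hrank] at hz
  refine ⟨z, (Z : Ω), ?_, ?_⟩
  · have h3 := congrArg (fun y : L => (y : Ω)) hz
    exact h3.symm
  · intro hcon
    have hL : ∀ y : L, γ (y : Ω) = y := by
      intro y
      have hy : y ∈ IntermediateField.adjoin K {Z} := by
        rw [htop]
        exact IntermediateField.mem_top
      induction hy using IntermediateField.adjoin_induction with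
      | mem y hy =>
        rw [Set.mem_singleton_iff.1 hy]
        exact hcon
      | algebraMap c => exact hγ _ c.2
      | add a b _ _ ha hb =>
        change γ ((a : Ω) + b) = a + b
        rw [map_add, ha, hb]
      | inv a _ ha =>
        change γ ((a : Ω)⁻¹) = (a : Ω)⁻¹
        rw [map_inv₀, ha]
      | mul a b _ _ ha hb =>
        change γ ((a : Ω) * b) = a * b
        rw [map_mul, ha, hb]
    have hL' : ∀ (k : ℤ) (y : L), (γ' ^ k) (y : Ω) = y := by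
      intro k y
      have h5 : γ' ∈ L.fixingSubgroup := by
        rw [IntermediateField.mem_fixingSubgroup_iff]
        intro a ha
        exact hL ⟨a, ha⟩
      exact (IntermediateField.mem_fixingSubgroup_iff _ _).1 (zpow_mem h5 k) y y.2
    have hbot : L = ⊥ := by
      rw [eq_bot_iff]
      intro y hy
      rw [IntermediateField.mem_bot, InfiniteGalois.mem_range_algebraMap_iff_fixed]
      intro δ
      obtain ⟨k, hk⟩ := hpow (ψ' δ)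
      have h3 : ψ' ((γ' ^ k)⁻¹ * δ) = 1 := by
        rw [map_mul, map_inv, hk, inv_mul_cancel]
      have h4 := hfix _ h3 y hy
      have h6 : δ = γ' ^ k * ((γ' ^ k)⁻¹ * δ) := by
        rw [mul_inv_cancel_left]
      rw [h6, AlgEquiv.mul_apply, h4]
      exact hL' k ⟨y, hy⟩
    have h7 : Module.finrank K L = 1 := by
      rw [hbot]
      exact IntermediateField.finrank_bot
    rw [hrank] at h7
    exact hℓ.one_lt.ne' h7

/-- Abhyankar's lemma and unramified Kummer elements. -/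
theorem Kil_fin {x : Ω} (hst : IsStage p x) {K₀ : IntermediateField (Cst p Ω) Ω}
    (hKC : IsLevel p x K₀) {N ℓ B : ℕ} (hℓ : ℓ.Prime) (hN : ℓ ^ (B + 1) ∣ N) (hN0 : N ≠ 0)
    (hbC : ∀ v : Place (Cst p Ω) K₀, v.pord (⟨x, hKC.mem⟩ : K₀) ≤ B) {x' : Ω}
    (hx' : x' ^ N = x) {V : ValuationSubring Ω} (hV : V ≠ ⊤) (hVx : V.valuation x < 1)
    {δ : Ω ≃ₐ[ZMod p] Ω} (hδK : δ ∈ Fx p (K₀ : Set Ω)) (hδx' : δ x' = x')
    (hδI : δ ∈ Inert p V) {z : K₀} (hz0 : z ≠ 0) {Z : Ω} (hZ : Z ^ ℓ = (z : Ω)) :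
    δ Z = Z := by
  have hac : IsAlgClosed (Cst p Ω) := br_cst p Ω x hst
  have hx0 : x ≠ 0 := by
    rintro rfl
    exact hst.transc isAlgebraic_zero
  have hcC : IsCurveField (Cst p Ω) K₀ := ((br_lvl p Ω x hst).1 _ hKC).1
  have hxC : (⟨x, hKC.mem⟩ : K₀) ≠ 0 := fun h => hx0 (congrArg Subtype.val h)
  have hδC : δ ∈ Fx p (Cst p Ω : Set Ω) := hδI.1
  -- the level `K' = K(x')`
  have hle : K₀ ≤ K₀ ⊔ IntermediateField.adjoin (Cst p Ω) {x'} := le_sup_left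
  have hx'K : x' ∈ K₀ ⊔ IntermediateField.adjoin (Cst p Ω) {x'} :=
    (le_sup_right : _ ≤ K₀ ⊔ IntermediateField.adjoin (Cst p Ω) {x'})
      (IntermediateField.mem_adjoin_simple_self _ _)
  have hlev : IsLevel p x (K₀ ⊔ IntermediateField.adjoin (Cst p Ω) {x'}) :=
    ⟨hle hKC.mem, IntermediateField.fg_sup hKC.fg
      (IntermediateField.fg_adjoin_of_finite (Set.finite_singleton _))⟩
  have hδK' : δ ∈ Fx p ((K₀ ⊔ IntermediateField.adjoin (Cst p Ω) {x'} :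
      IntermediateField (Cst p Ω) Ω) : Set Ω) := by
    have h1 : K₀ ⊔ IntermediateField.adjoin (Cst p Ω) {x'} ≤ Kil_ff δ hδC := by
      refine sup_le (fun a ha => hδK a ha) ?_
      rw [IntermediateField.adjoin_simple_le_iff]
      exact hδx'
    exact fun a ha => h1 ha
  generalize K₀ ⊔ IntermediateField.adjoin (Cst p Ω) {x'} = K' at hle hx'K hlev hδK'
  obtain ⟨v, hv, -, hvpos⟩ := br_bel p Ω x hst K₀ hKC V hV
  obtain ⟨v', hv', -, -⟩ := br_bel p Ω x hst K' hlev V hV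
  obtain ⟨⟨e, he, hev⟩, -⟩ := br_ram p Ω x hst K₀ K' hle hKC hlev V hV v v' hv hv'
  have hcK' : IsCurveField (Cst p Ω) K' := ((br_lvl p Ω x hst).1 _ hlev).1
  have hx'0 : x' ≠ 0 := by
    rintro rfl
    rw [zero_pow hN0] at hx'
    exact hx0 hx'.symm
  have ha : 0 < v.pord (⟨x, hKC.mem⟩ : K₀) := by
    rw [Place.lt_pord_iff _ hxC]
    exact (hvpos _).2 hVx
  have hpow : ((N : ℕ) : ℤ) * v'.pord (⟨x', hx'K⟩ : K') =
      e * v.pord (⟨x, hKC.mem⟩ : K₀) := by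
    rw [← hev, ← Place.pord_pow v' (fun h => hx'0 (congrArg Subtype.val h))]
    exact congrArg v'.pord (Subtype.ext hx')
  have hℓe : ℓ ∣ e := by
    by_contra hcon
    have h1 : ((ℓ ^ (B + 1) : ℕ) : ℤ) ∣ e * v.pord (⟨x, hKC.mem⟩ : K₀) := by
      rw [← hpow]
      refine Dvd.dvd.mul_right ?_ _
      rw [Int.natCast_dvd_natCast]
      exact hN
    have h2 : IsCoprime ((ℓ ^ (B + 1) : ℕ) : ℤ) (e : ℤ) := by
      rw [Nat.isCoprime_iff_coprime]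
      exact Nat.Coprime.pow_left _ ((Nat.Prime.coprime_iff_not_dvd hℓ).2 hcon)
    have h3 := Int.le_of_dvd ha (h2.dvd_of_dvd_mul_left h1)
    have h4 : B + 1 < ℓ ^ (B + 1) := Nat.lt_pow_self hℓ.one_lt
    have h5 := hbC v
    have h6 : ((B + 1 : ℕ) : ℤ) < ((ℓ ^ (B + 1) : ℕ) : ℤ) := by exact_mod_cast h4
    push_cast at h6
    push_cast at h3
    linarith
  have hz0' : (⟨(z : Ω), hle z.2⟩ : K') ≠ 0 := by
    intro h
    have h8 : (z : Ω) = 0 := congrArg Subtype.val h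
    exact hz0 (Subtype.ext h8)
  exact br_kumU p Ω x hst K' hlev V hV v' hv' ℓ hℓ.pos ⟨(z : Ω), hle z.2⟩ hz0' (by
    rw [hev]
    refine Dvd.dvd.mul_right ?_ _
    exact_mod_cast hℓe) Z hZ δ ⟨hδK', hδI.2⟩

end Kil

theorem tKil : KilStmt := by
  classical
  intro p _ Ω _ _ x hst G _ _ ψ hψ
  have hac : IsAlgClosed (Cst p Ω) := br_cst p Ω x hst
  have hx0 : x ≠ 0 := by
    rintro rfl
    exact hst.transc isAlgebraic_zero
  choose K hK hKm using Kil_lev hst ψ hψ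
  have hcf : ∀ C, IsCurveField (Cst p Ω) (K C) := fun C => ((br_lvl p Ω x hst).1 _ (hK C)).1
  have hxK0 : ∀ C, (⟨x, (hK C).mem⟩ : K C) ≠ 0 := fun C h => hx0 (congrArg Subtype.val h)
  choose b hb using fun C => Kil_bd (𝕜 := Cst p Ω) (hxK0 C)
  obtain ⟨B, hB⟩ := (Set.finite_range b).bddAbove
  have hB' : ∀ C, b C ≤ B := fun C => hB ⟨C, rfl⟩
  have hG0 : Nat.card G ≠ 0 := Nat.card_pos.ne'
  refine ⟨(ordCompl[p] (Nat.card G)) ^ (B + 1), pow_pos (Nat.ordCompl_pos p hG0) _,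
    Nat.Coprime.pow_left _ (Nat.coprime_ordCompl (Fact.out : p.Prime) hG0).symm, ?_⟩
  intro x' hx' V hV hVx γ hγx' hγI ℓ hℓ hℓp hdvd
  -- an element of prime order
  have hm0 : 0 < orderOf (ψ γ) := orderOf_pos _
  have hg : orderOf (ψ γ ^ (orderOf (ψ γ) / ℓ)) = ℓ :=
    orderOf_pow_orderOf_div hm0.ne' hdvd
  have hℓN : ℓ ∣ ordCompl[p] (Nat.card G) := by
    have h1 : ℓ ∣ Nat.card G := hdvd.trans (orderOf_dvd_natCard _)
    rw [← Nat.ordProj_mul_ordCompl_eq_self (Nat.card G) p] at h1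
    rcases (Nat.Prime.dvd_mul hℓ).1 h1 with h2 | h2
    · exact absurd ((Nat.prime_dvd_prime_iff_eq hℓ (Fact.out : p.Prime)).1
        (hℓ.dvd_of_dvd_pow h2)) hℓp
    · exact h2
  have hγ1 : ψ (γ ^ (orderOf (ψ γ) / ℓ)) = ψ γ ^ (orderOf (ψ γ) / ℓ) := map_pow _ _ _
  have hδI : ((γ ^ (orderOf (ψ γ) / ℓ) : Gx p x) : Ω ≃ₐ[ZMod p] Ω) ∈ Inert p V := by
    rw [Subgroup.coe_pow]
    exact pow_mem hγI _
  have hδx' : ((γ ^ (orderOf (ψ γ) / ℓ) : Gx p x) : Ω ≃ₐ[ZMod p] Ω) x' = x' := by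
    rw [← mem_Gx, Subgroup.coe_pow]
    exact pow_mem (mem_Gx.2 hγx') _
  generalize γ ^ (orderOf (ψ γ) / ℓ) = δ at hγ1 hδI hδx'
  generalize ψ γ ^ (orderOf (ψ γ) / ℓ) = g at hg hγ1
  have hδC : (δ : Ω ≃ₐ[ZMod p] Ω) ∈ Fx p (Cst p Ω : Set Ω) := hδI.1
  have hδK : (δ : Ω ≃ₐ[ZMod p] Ω) ∈ Fx p (K (Subgroup.zpowers g) : Set Ω) := by
    rw [hKm]
    refine ⟨hδC, δ.2, ?_⟩
    have h1 : (⟨(δ : Ω ≃ₐ[ZMod p] Ω), δ.2⟩ : Gx p x) = δ := rfl
    rw [h1, hγ1]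
    exact Subgroup.mem_zpowers g
  obtain ⟨z, Z, hZ, hmove⟩ := Kil_kum hst ψ hψ hℓ hℓp hg (hK _) (hKm _) hδK δ.2 hγ1
  apply hmove
  by_cases hz0 : z = 0
  · rw [hz0] at hZ
    have h1 : Z = 0 := (pow_eq_zero_iff hℓ.ne_zero).1 hZ
    rw [h1, map_zero]
  exact Kil_fin hst (hK _) hℓ (pow_dvd_pow_of_dvd hℓN (B + 1))
    (pow_pos (Nat.ordCompl_pos p hG0) _).ne'
    (fun v => (hb _ v).trans (by exact_mod_cast hB' _)) hx' hV hVx hδK hδx' hδI hz0 hZ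

end Top

end MP7Z
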