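import Pool.Agent.Lib.MP_7f581e_Z.Top.Spec

/-!
# Rgl: if `𝔽_p` is algebraically closed in `L` then the geometric Galois group is everything
-/

set_option autoImplicit false

namespace MP7Z

namespace Top

open Polynomial

section Rgl

variable {p : ℕ} [Fact p.Prime] {Ω : Type} [Field Ω] [Algebra (ZMod p) Ω]

/-- Elements fixed by the geometric Galois group. -/
theorem Rgl_mem {t : Ω} (hst : IsStage p t) {c : Ω}
    (hc : ∀ γ ∈ Gx p t, γ ∈ Fx p (Cst p Ω : Set Ω) → γ c = c) :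
    c ∈ IntermediateField.adjoin (Cst p Ω) {t} := by
  have hg : IsGalois (IntermediateField.adjoin (Cst p Ω) {t}) Ω := Gal_galois hst
  have ht : t ∈ IntermediateField.adjoin (Cst p Ω) {t} :=
    IntermediateField.subset_adjoin (Cst p Ω) _ (Set.mem_singleton t)
  obtain ⟨r, hr⟩ := (InfiniteGalois.mem_range_algebraMap_iff_fixed
    (k := IntermediateField.adjoin (Cst p Ω) {t}) (K := Ω) c).2 (by
      intro γ
      exact hc (Gal_rs (IntermediateField.adjoin (Cst p Ω) {t}) γ)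
        (mem_Gx.2 (γ.commutes ⟨t, ht⟩)) (fun a ha => γ.commutes
          (algebraMap (Cst p Ω) (IntermediateField.adjoin (Cst p Ω) {t}) ⟨a, ha⟩)))
  rw [← hr]
  exact r.2

theorem Rgl_tr {t : Ω} (hst : IsStage p t) : Transcendental (Cst p Ω) t := by
  intro h
  exact hst.transc (h.restrictScalars (ZMod p))

/-- An automorphism induces one of the constants. -/
theorem Rgl_cst (γ : Ω ≃ₐ[ZMod p] Ω) {c : Ω} (hc : c ∈ Cst p Ω) : γ c ∈ Cst p Ω := by
  rw [mem_algebraicClosure_iff] at hc ⊢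
  exact IsAlgebraic.algHom γ.toAlgHom hc

/-- The restriction to the constants. -/
noncomputable def Rgl_res (γ : Ω ≃ₐ[ZMod p] Ω) : Cst p Ω →+* Cst p Ω where
  toFun c := ⟨γ c, Rgl_cst γ c.2⟩
  map_one' := Subtype.ext (map_one γ)
  map_mul' _ _ := Subtype.ext (map_mul γ _ _)
  map_zero' := Subtype.ext (map_zero γ)
  map_add' _ _ := Subtype.ext (map_add γ _ _)

theorem Rgl_aeval {t : Ω} {γ : Ω ≃ₐ[ZMod p] Ω} (hγ : γ t = t) (B : (Cst p Ω)[X]) :
    aeval t (B.map (Rgl_res γ)) = γ (aeval t B) := by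
  rw [aeval_def, eval₂_map, aeval_def]
  have h1 := hom_eval₂ B (algebraMap (Cst p Ω) Ω) (γ : Ω →+* Ω) t
  have h2 : ((γ : Ω →+* Ω)) t = t := hγ
  have h3 : (γ : Ω →+* Ω).comp (algebraMap (Cst p Ω) Ω) =
      (algebraMap (Cst p Ω) Ω).comp (Rgl_res γ) := RingHom.ext fun _ => rfl
  rw [h2, h3] at h1
  exact h1.symm

theorem Rgl_adj (t : Ω) (P : (Cst p Ω)[X])
    (hP : ∀ i, ∃ a : ZMod p, algebraMap (ZMod p) Ω a = P.coeff i) :
    aeval t P ∈ IntermediateField.adjoin (ZMod p) {t} := by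
  have ht : t ∈ IntermediateField.adjoin (ZMod p) {t} :=
    IntermediateField.subset_adjoin (ZMod p) _ (Set.mem_singleton t)
  rw [aeval_eq_sum_range]
  refine sum_mem fun i _ => ?_
  obtain ⟨a, ha⟩ := hP i
  have h5 : P.coeff i • t ^ i = algebraMap (ZMod p) Ω a * t ^ i := by
    rw [Algebra.smul_def, ha]
    rfl
  rw [h5]
  exact mul_mem (IntermediateField.algebraMap_mem _ _) (pow_mem ht _)

/-- Normalized numerator and denominator. -/
theorem Rgl_frac {t : Ω} (hst : IsStage p t) {f : Ω}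
    (hf : f ∈ IntermediateField.adjoin (Cst p Ω) {t}) :
    ∃ A B : (Cst p Ω)[X], B ≠ 0 ∧ f * aeval t B = aeval t A ∧
      ∀ γ ∈ Gx p t, γ f = f → ∀ i, γ (A.coeff i : Ω) = A.coeff i ∧
        γ (B.coeff i : Ω) = B.coeff i := by
  classical
  have htr := Rgl_tr hst
  have hex : ∃ n : ℕ, ∃ A B : (Cst p Ω)[X], B ≠ 0 ∧ B.natDegree = n ∧
      f * aeval t B = aeval t A := by
    obtain ⟨r, s, hrs⟩ := (IntermediateField.mem_adjoin_simple_iff (Cst p Ω) f).1 hf
    by_cases hs : aeval t s = 0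
    · refine ⟨_, 0, 1, one_ne_zero, rfl, ?_⟩
      rw [hrs, hs, div_zero, zero_mul, map_zero]
    · refine ⟨_, r, s, ?_, rfl, ?_⟩
      · rintro rfl
        exact hs (map_zero _)
      · rw [hrs, div_mul_cancel₀ _ hs]
  obtain ⟨A, B, hB, hn, hAB⟩ := Nat.find_spec hex
  have hmin : ∀ A' B' : (Cst p Ω)[X], f * aeval t B' = aeval t A' →
      B'.natDegree < B.natDegree → B' = 0 := by
    intro A' B' h1 h2
    by_contra h3
    rw [hn] at h2
    exact Nat.find_min hex h2 ⟨A', B', h3, rfl, h1⟩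
  have hlc : B.leadingCoeff ≠ 0 := leadingCoeff_ne_zero.2 hB
  have hlc' : B.leadingCoeff⁻¹ ≠ 0 := inv_ne_zero hlc
  have hmon : (B * C B.leadingCoeff⁻¹).Monic := monic_mul_leadingCoeff_inv hB
  have hdeg : (B * C B.leadingCoeff⁻¹).natDegree = B.natDegree :=
    natDegree_mul_C hlc'
  refine ⟨A * C B.leadingCoeff⁻¹, B * C B.leadingCoeff⁻¹, hmon.ne_zero, ?_, ?_⟩
  · rw [map_mul, map_mul, ← mul_assoc, hAB]
  · intro γ hγ hγf
    have hγt : γ t = t := mem_Gx.1 hγ
    have h0 : f * aeval t (B * C B.leadingCoeff⁻¹) = aeval t (A * C B.leadingCoeff⁻¹) := by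
      rw [map_mul, map_mul, ← mul_assoc, hAB]
    generalize B * C B.leadingCoeff⁻¹ = B₁ at hmon hdeg h0
    generalize A * C B.leadingCoeff⁻¹ = A₁ at h0
    have h1 : f * aeval t (B₁.map (Rgl_res γ)) = aeval t (A₁.map (Rgl_res γ)) := by
      rw [Rgl_aeval hγt, Rgl_aeval hγt, ← h0, map_mul, hγf]
    have h2 : f * aeval t (B₁ - B₁.map (Rgl_res γ)) = aeval t (A₁ - A₁.map (Rgl_res γ)) := by
      rw [map_sub, map_sub, mul_sub, h0, h1]
    have h3 : B₁ - B₁.map (Rgl_res γ) = 0 := by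
      by_contra hne
      have hd : (B₁ - B₁.map (Rgl_res γ)).degree < B₁.degree :=
        degree_sub_lt_left (hmon.degree_map (Rgl_res γ)).symm hmon.ne_zero (by
          rw [hmon.leadingCoeff, (hmon.map (Rgl_res γ)).leadingCoeff])
      refine hne (hmin _ _ h2 ?_)
      rw [← hdeg]
      exact natDegree_lt_natDegree hne hd
    have h4 : A₁ - A₁.map (Rgl_res γ) = 0 := by
      rw [h3, map_zero, mul_zero] at h2
      exact transcendental_iff.1 htr _ h2.symm
    intro i
    constructor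
    · have h5 := congrArg (fun P : (Cst p Ω)[X] => P.coeff i) (sub_eq_zero.1 h4)
      simp only [coeff_map] at h5
      exact (congrArg (Subtype.val) h5).symm
    · have h5 := congrArg (fun P : (Cst p Ω)[X] => P.coeff i) (sub_eq_zero.1 h3)
      simp only [coeff_map] at h5
      exact (congrArg (Subtype.val) h5).symm

/-- The elements of `Ω` fixed by the kernel are in the image of `L`. -/
theorem Rgl_fix {t : Ω} (hst : IsStage p t) {L : Type} [Field L] [Algebra (RatFunc (ZMod p)) L]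
    (ι : L →+* Ω) (ψ : Gx p t →* (L ≃ₐ[RatFunc (ZMod p)] L))
    (hι : ∀ r, ι (algebraMap (RatFunc (ZMod p)) L r) = emb hst.transc r)
    (hψ : ∀ (γ : Gx p t) (y : L), ι (ψ γ y) = (γ : Ω ≃ₐ[ZMod p] Ω) (ι y)) {c : Ω}
    (hc : ∀ γ : Gx p t, ψ γ = 1 → (γ : Ω ≃ₐ[ZMod p] Ω) c = c) : ∃ y, ι y = c := by
  let _ : Algebra (RatFunc (ZMod p)) Ω := (emb hst.transc).toAlgebra
  have hgal : IsGalois (RatFunc (ZMod p)) Ω := isGalois_emb hst
  have hX : algebraMap (RatFunc (ZMod p)) Ω RatFunc.X = t := emb_X hst.transc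
  have hC : ∀ c : ZMod p, algebraMap (RatFunc (ZMod p)) Ω
      (algebraMap (ZMod p) (RatFunc (ZMod p)) c) = algebraMap (ZMod p) Ω c :=
    fun c => emb_C hst.transc c
  let toA : (Ω ≃ₐ[RatFunc (ZMod p)] Ω) → (Ω ≃ₐ[ZMod p] Ω) := fun γ =>
    AlgEquiv.ofRingEquiv (f := γ.toRingEquiv) (by
      intro c
      rw [← hC]
      exact γ.commutes _)
  let ι' : L →ₐ[RatFunc (ZMod p)] Ω := { ι with commutes' := hι }
  have hmem : c ∈ IntermediateField.fixedField (ι'.fieldRange).fixingSubgroup := by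
    rw [IntermediateField.mem_fixedField_iff]
    intro γ hγ
    rw [IntermediateField.mem_fixingSubgroup_iff] at hγ
    have hG : toA γ ∈ Gx p t := by
      rw [mem_Gx, ← hX]
      exact γ.commutes _
    refine hc ⟨toA γ, hG⟩ ?_
    ext y
    apply ι.injective
    rw [hψ]
    exact hγ (ι y) ⟨y, rfl⟩
  rw [InfiniteGalois.fixedField_fixingSubgroup] at hmem
  exact hmem

end Rgl

theorem tRgl : RglStmt := by
  classical
  intro p _ Ω _ _ t hst L _ _ _ _ ι ψ hι hfin hsurj hψ hcl g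
  -- constants fixed by the kernel are in the prime field
  have hprime : ∀ c ∈ Cst p Ω, (∀ γ : Gx p t, ψ γ = 1 → (γ : Ω ≃ₐ[ZMod p] Ω) c = c) →
      ∃ a : ZMod p, algebraMap (ZMod p) Ω a = c := by
    intro c hc hfix
    obtain ⟨y, rfl⟩ := Rgl_fix hst ι ψ hι hψ hfix
    obtain ⟨f, hf0, hf⟩ := mem_algebraicClosure_iff.1 hc
    obtain ⟨a, ha⟩ := hcl y ⟨f, hf0, by
      apply ι.injective
      rw [map_zero, hom_eval₂]
      have h2 : ι.comp ((algebraMap (RatFunc (ZMod p)) L).comp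
          (algebraMap (ZMod p) (RatFunc (ZMod p)))) = algebraMap (ZMod p) Ω := by
        ext c
        rw [RingHom.comp_apply, RingHom.comp_apply, hι, emb_C]
      rw [h2]
      exact hf⟩
    refine ⟨a, ?_⟩
    rw [← ha, hι, emb_C]
  -- the image of the geometric group
  let N : Subgroup (L ≃ₐ[RatFunc (ZMod p)] L) :=
    ((Fx p (Cst p Ω : Set Ω)).subgroupOf (Gx p t)).map ψ
  have hN : N = ⊤ := by
    have h1 : IntermediateField.fixedField N = ⊥ := by
      rw [eq_bot_iff]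
      intro y hy
      rw [IntermediateField.mem_fixedField_iff] at hy
      have h2 : ι y ∈ IntermediateField.adjoin (Cst p Ω) {t} := by
        apply Rgl_mem hst
        intro γ hγ hγ'
        have h3 := hψ ⟨γ, hγ⟩ y
        rw [hy (ψ ⟨γ, hγ⟩) (Subgroup.mem_map_of_mem ψ hγ')] at h3
        exact h3.symm
      obtain ⟨A, B, hB, hAB, hco⟩ := Rgl_frac hst h2
      have h4 : ∀ γ : Gx p t, ψ γ = 1 → (γ : Ω ≃ₐ[ZMod p] Ω) (ι y) = ι y := by
        intro γ hγ
        rw [← hψ, hγ]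
        rfl
      have hA : aeval t A ∈ IntermediateField.adjoin (ZMod p) {t} :=
        Rgl_adj t A fun i => hprime _ (A.coeff i).2 fun γ hγ => (hco γ γ.2 (h4 γ hγ) i).1
      have hB' : aeval t B ∈ IntermediateField.adjoin (ZMod p) {t} :=
        Rgl_adj t B fun i => hprime _ (B.coeff i).2 fun γ hγ => (hco γ γ.2 (h4 γ hγ) i).2
      have hB0 : aeval t B ≠ 0 := fun h => hB (transcendental_iff.1 (Rgl_tr hst) _ h)
      have h6 : ι y = aeval t A / aeval t B := by
        rw [eq_div_iff hB0, hAB]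
      have h7 : ι y ∈ IntermediateField.adjoin (ZMod p) {t} := by
        rw [h6]
        exact div_mem hA hB'
      obtain ⟨r, hr⟩ := mem_range_emb hst.transc h7
      rw [IntermediateField.mem_bot]
      refine ⟨r, ι.injective ?_⟩
      rw [hι, hr]
    have h2 := IntermediateField.fixingSubgroup_fixedField N
    rw [h1, IntermediateField.fixingSubgroup_bot] at h2
    exact h2.symm
  have hg : g ∈ N := by
    rw [hN]
    exact Subgroup.mem_top g
  obtain ⟨γ, hγ, h⟩ := hg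
  exact ⟨γ, hγ, h⟩

end Top

end MP7Z
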