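import Pool.Agent.Lib.MP_7f581e_Z.Top.Spec

/-!
# A top group has a good realization
-/

set_option autoImplicit false

namespace MP7Z

namespace Top

section

variable {p : ℕ} [Fact p.Prime] {Ω : Type} [Field Ω] [Algebra (ZMod p) Ω]

theorem Top_le {L : Type} [Field L] (ι : L →+* Ω) (V : ValuationSubring Ω) (f : L) :
    (V.comap ι).valuation f ≤ 1 ↔ V.valuation (ι f) ≤ 1 := by
  rw [ValuationSubring.valuation_le_one_iff, ValuationSubring.valuation_le_one_iff,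
    ValuationSubring.mem_comap]

theorem Top_lt {L : Type} [Field L] (ι : L →+* Ω) (V : ValuationSubring Ω) (f : L) :
    (V.comap ι).valuation f < 1 ↔ V.valuation (ι f) < 1 := by
  by_cases h : f = 0
  · rw [h, map_zero, map_zero, map_zero]
    exact ⟨fun _ => zero_lt_one, fun _ => zero_lt_one⟩
  · rw [BC_inv _ h, BC_inv _ ((map_ne_zero ι).2 h), ValuationSubring.mem_comap, map_inv₀]

theorem Top_ne_top {t : Ω} (hst : IsStage p t) {L : Type} [Field L]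
    [Algebra (RatFunc (ZMod p)) L] (ι : L →+* Ω)
    (hι : ∀ r, ι (algebraMap (RatFunc (ZMod p)) L r) = emb hst.transc r)
    (V : ValuationSubring Ω) (hV : V ≠ ⊤) : V.comap ι ≠ ⊤ := by
  intro hT
  apply hV
  rw [eq_top_iff]
  intro ω _
  have hsep := hst.sep
  have h1 : IsIntegral (IntermediateField.adjoin (ZMod p) {t}) ω :=
    Algebra.IsIntegral.isIntegral ω
  have hmem : ∀ a : IntermediateField.adjoin (ZMod p) {t},
      algebraMap (IntermediateField.adjoin (ZMod p) {t}) Ω a ∈ V.toSubring := by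
    intro a
    obtain ⟨r, hr⟩ := mem_range_emb hst.transc a.2
    have h2 : algebraMap (RatFunc (ZMod p)) L r ∈ V.comap ι := by
      rw [hT]
      trivial
    rw [ValuationSubring.mem_comap, hι, hr] at h2
    exact h2
  obtain ⟨P, hP, hP0⟩ := h1
  have h4 : IsIntegral V ω := by
    refine ⟨P.map ((algebraMap (IntermediateField.adjoin (ZMod p) {t}) Ω).codRestrict
      V.toSubring hmem), hP.map _, ?_⟩
    rw [Polynomial.eval₂_map]
    exact hP0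
  obtain ⟨y, hy⟩ := IsIntegrallyClosed.isIntegral_iff.1 h4
  rw [← hy]
  exact y.2

theorem Top_inertia {t : Ω} (hst : IsStage p t) {L : Type} [Field L]
    [Algebra (RatFunc (ZMod p)) L] (ι : L →+* Ω) (ψ : Gx p t →* (L ≃ₐ[RatFunc (ZMod p)] L))
    (hψ : ∀ (γ : Gx p t) (y : L), ι (ψ γ y) = (γ : Ω ≃ₐ[ZMod p] Ω) (ι y))
    (V : ValuationSubring Ω) (hV : V ≠ ⊤) (γ : Gx p t)
    (hγ : (γ : Ω ≃ₐ[ZMod p] Ω) ∈ Inert p V) : InertiaAt (V.comap ι) (ψ γ) := by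
  intro f hf
  rw [Top_lt, map_sub, hψ]
  have h := (br_res p Ω t hst V hV).2.2.2 1 (γ : Ω ≃ₐ[ZMod p] Ω) hγ.2
    (fun c hc => by rw [pow_one]; exact hγ.1 c hc) (ι f) hf
  rwa [pow_one] at h

theorem Top_bad {ℓ : ℕ} (hℓ : ℓ.Prime) {t : Ω} {V : ValuationSubring Ω} (hb : BadV ℓ t V)
    {P : Prop} (h : 1 < V.valuation t ∨ (V.valuation t < 1 ∧ P) ∨ (V.valuation t = 1 ∧
      ∀ m : ℕ, 0 < m → V.valuation (t ^ m - 1) < 1 → ℓ ∣ m)) : V.valuation t < 1 ∧ P := by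
  rcases hb with hb | ⟨m, hm, hml, hb⟩
  · rcases h with h | h | ⟨h, -⟩
    · exact absurd hb (not_lt.2 h.le)
    · exact h
    · exact absurd hb (not_lt.2 h.ge)
  · have h2 : V.valuation (t ^ m) = 1 := by
      have h3 : t ^ m = 1 + (t ^ m - 1) := by ring
      rw [h3, Valuation.map_add_eq_of_lt_left, map_one]
      rwa [map_one]
    have h4 : V.valuation t = 1 := by
      rw [map_pow] at h2
      exact (pow_eq_one_iff_of_nonneg zero_le' (n := m) hm.ne').1 h2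
    rcases h with h | h | ⟨-, h⟩
    · exact absurd h (not_lt.2 h4.le)
    · exact absurd h.1 (not_lt.2 h4.ge)
    · have h5 := Nat.dvd_gcd (h m hm hb) dvd_rfl
      rw [hml] at h5
      exact absurd (Nat.dvd_one.1 h5) hℓ.one_lt.ne'

/-- the commutator of two automorphisms which multiply `x` by constants fixes `x` -/
theorem Top_comm {x : Ω} (hx : x ≠ 0) {γ δ : Ω ≃ₐ[ZMod p] Ω}
    (hγ : γ ∈ Fx p (Cst p Ω : Set Ω)) (hδ : δ ∈ Fx p (Cst p Ω : Set Ω)) {ζ ξ : Ω}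
    (hζ : ζ ∈ Cst p Ω) (hξ : ξ ∈ Cst p Ω) (hγx : γ x = ζ * x) (hδx : δ x = ξ * x) :
    (γ * δ * γ⁻¹ * δ⁻¹) x = x := by
  have hζ0 : ζ ≠ 0 := by
    rintro rfl
    rw [zero_mul] at hγx
    exact hx ((map_eq_zero γ).1 hγx)
  have hξ0 : ξ ≠ 0 := by
    rintro rfl
    rw [zero_mul] at hδx
    exact hx ((map_eq_zero δ).1 hδx)
  have h1 : δ.symm x = ξ⁻¹ * x := by
    rw [AlgEquiv.symm_apply_eq, map_mul, hδ ξ⁻¹ ((Cst p Ω).inv_mem hξ), hδx,
      inv_mul_cancel_left₀ hξ0]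
  have h2 : γ.symm (ξ⁻¹ * x) = ξ⁻¹ * (ζ⁻¹ * x) := by
    rw [AlgEquiv.symm_apply_eq, map_mul, map_mul, hγ ξ⁻¹ ((Cst p Ω).inv_mem hξ),
      hγ ζ⁻¹ ((Cst p Ω).inv_mem hζ), hγx, inv_mul_cancel_left₀ hζ0]
  show γ (δ (γ.symm (δ.symm x))) = x
  have h3 : δ (ξ⁻¹ * (ζ⁻¹ * x)) = ζ⁻¹ * x := by
    rw [map_mul, map_mul, hδ ξ⁻¹ ((Cst p Ω).inv_mem hξ), hδ ζ⁻¹ ((Cst p Ω).inv_mem hζ), hδx]
    field_simp
  rw [h1, h2, h3, map_mul, hγ ζ⁻¹ ((Cst p Ω).inv_mem hζ), hγx, inv_mul_cancel_left₀ hζ0]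

theorem Top_root {t x : Ω} {N : ℕ} (hN : N ≠ 0) (hx : x ^ N = t) (hx0 : x ≠ 0)
    {γ : Ω ≃ₐ[ZMod p] Ω} (hγ : γ t = t) : ∃ ζ ∈ Cst p Ω, γ x = ζ * x := by
  refine ⟨γ x / x, ?_, (div_mul_cancel₀ _ hx0).symm⟩
  have ht0 : t ≠ 0 := by
    rw [← hx]
    exact pow_ne_zero _ hx0
  have h1 : (γ x / x) ^ N = 1 := by
    rw [div_pow, ← map_pow, hx, hγ, div_self ht0]
  show γ x / x ∈ algebraicClosure (ZMod p) Ω
  rw [mem_algebraicClosure_iff]
  refine IsAlgebraic.of_pow (Nat.pos_of_ne_zero hN) ?_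
  rw [h1]
  exact isAlgebraic_one

theorem Top_perf {t x : Ω} {N : ℕ} (hN : N ≠ 0) (hx : x ^ N = t) (hx0 : x ≠ 0) {G : Type}
    [Group G] (ψ : Gx p t →* G) (hle : Gx p x ≤ Gx p t)
    (hreg : ∀ g, ∃ γ : Gx p t, (γ : Ω ≃ₐ[ZMod p] Ω) ∈ Fx p (Cst p Ω : Set Ω) ∧ ψ γ = g)
    (hperf : commutator G = ⊤) :
    ∀ g, ∃ γ : Gx p x, (γ : Ω ≃ₐ[ZMod p] Ω) ∈ Fx p (Cst p Ω : Set Ω) ∧
      ψ (Subgroup.inclusion hle γ) = g := by
  let R : Subgroup G :=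
    ((Fx p (Cst p Ω : Set Ω)).subgroupOf (Gx p x)).map (ψ.comp (Subgroup.inclusion hle))
  have hR : commutator G ≤ R := by
    rw [commutator_def, Subgroup.commutator_le]
    intro a _ b _
    obtain ⟨γ, hγ, rfl⟩ := hreg a
    obtain ⟨δ, hδ, rfl⟩ := hreg b
    obtain ⟨ζ, hζ, hγx⟩ := Top_root hN hx hx0 (mem_Gx.1 γ.2)
    obtain ⟨ξ, hξ, hδx⟩ := Top_root hN hx hx0 (mem_Gx.1 δ.2)
    have hmem : ((γ * δ * γ⁻¹ * δ⁻¹ : Gx p t) : Ω ≃ₐ[ZMod p] Ω) ∈ Gx p x := by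
      rw [mem_Gx]
      exact Top_comm hx0 hγ hδ hζ hξ hγx hδx
    refine ⟨⟨_, hmem⟩, ?_, ?_⟩
    · show ((γ * δ * γ⁻¹ * δ⁻¹ : Gx p t) : Ω ≃ₐ[ZMod p] Ω) ∈ Fx p (Cst p Ω : Set Ω)
      exact mul_mem (mul_mem (mul_mem hγ hδ) (inv_mem hγ)) (inv_mem hδ)
    · show ψ (γ * δ * γ⁻¹ * δ⁻¹) = ψ γ * ψ δ * (ψ γ)⁻¹ * (ψ δ)⁻¹
      rw [map_mul, map_mul, map_mul, map_inv, map_inv]
  intro g
  have hg : g ∈ R := by
    apply hR
    rw [hperf]
    trivial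
  obtain ⟨γ, hγ, hγg⟩ := hg
  exact ⟨γ, hγ, hγg⟩

end

theorem tTop (h1 : EmbStmt) (h2 : RglStmt) (h3 : KilStmt) : TopStmt := by
  intro p _ G _ _ hT
  obtain ⟨L, iF, iA, hfd, hgal, ⟨e⟩, hconst, hV⟩ := hT
  have hst : IsStage p (xx p) := isStage_xx p
  obtain ⟨ι, ψ₀, hι, hX, hfin, hsurj, hcomp⟩ := h1 p (Om p) (xx p) hst L
  have hreg := h2 p (Om p) (xx p) hst L ι ψ₀ hι hfin hsurj hcomp hconst
  have hloc : ∀ ℓ : ℕ, ℓ.Prime → ℓ ≠ p → ∀ V : ValuationSubring (Om p), V ≠ ⊤ →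
      BadV ℓ (xx p) V → ∀ γ : Gx p (xx p), (γ : Om p ≃ₐ[ZMod p] Om p) ∈ Inert p V →
      ℓ ∣ orderOf (ψ₀ γ) → V.valuation (xx p) < 1 ∧ commutator G = ⊤ := by
    intro ℓ hℓ hne V hVT hb γ hγ hdvd
    have h4 := hV (V.comap ι) (Top_ne_top hst ι hι V hVT) (ψ₀ γ)
      (Top_inertia hst ι ψ₀ hcomp V hVT γ hγ) ℓ hℓ hne hdvd
    refine Top_bad hℓ hb ?_
    rcases h4 with h4 | ⟨h4, h5⟩ | ⟨h4, h5⟩
    · left
      rw [← not_le, Top_le, hX, not_le] at h4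
      exact h4
    · right; left
      rw [Top_lt, hX] at h4
      exact ⟨h4, h5⟩
    · right; right
      refine ⟨?_, ?_⟩
      · apply le_antisymm
        · have h6 := h4.le
          rw [Top_le, hX] at h6
          exact h6
        · by_contra h6
          rw [not_le, ← hX, ← Top_lt] at h6
          exact h6.ne h4
      · intro m hm h6
        refine h5 m hm ?_
        rw [Top_lt, map_sub, map_pow, map_one, hX]
        exact h6
  have hfinE : FinLevel (e.toMonoidHom.comp ψ₀) := by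
    obtain ⟨S, hS⟩ := hfin
    refine ⟨S, fun γ hγ => ?_⟩
    show e (ψ₀ γ) = 1
    rw [hS γ hγ, map_one]
  have hregE : ∀ g : G, ∃ γ : Gx p (xx p),
      (γ : Om p ≃ₐ[ZMod p] Om p) ∈ Fx p (Cst p (Om p) : Set (Om p)) ∧
        (e.toMonoidHom.comp ψ₀) γ = g := by
    intro g
    obtain ⟨γ, hγ, hγg⟩ := hreg (e.symm g)
    refine ⟨γ, hγ, ?_⟩
    show e (ψ₀ γ) = g
    rw [hγg, MulEquiv.apply_symm_apply]
  have hord : ∀ γ, orderOf ((e.toMonoidHom.comp ψ₀) γ) = orderOf (ψ₀ γ) := fun γ =>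
    MulEquiv.orderOf_eq e (ψ₀ γ)
  by_cases hperf : commutator G = ⊤
  · obtain ⟨N, hN, hNp, hK⟩ := h3 p (Om p) (xx p) hst G (e.toMonoidHom.comp ψ₀) hfinE
    have hsc : IsSepClosed (Om p) := hst.sepClosed
    have hcp : CharP (Om p) p :=
      charP_of_injective_algebraMap (algebraMap (ZMod p) (Om p)).injective p
    have hN0 : NeZero (N : Om p) := by
      refine ⟨fun h => ?_⟩
      rw [CharP.cast_eq_zero_iff (Om p) p] at h
      have h5 := Nat.dvd_gcd h dvd_rfl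
      rw [hNp] at h5
      exact (Fact.out : p.Prime).one_lt.ne' (Nat.dvd_one.1 h5)
    obtain ⟨x, hx⟩ := IsSepClosed.exists_pow_nat_eq (xx p) N
    have hst' : IsStage p x := BC_stage hst hx
    have hx0 : x ≠ 0 := by
      rintro rfl
      exact hst'.transc isAlgebraic_zero
    have hle : Gx p x ≤ Gx p (xx p) := by
      intro γ hγ
      rw [mem_Gx] at hγ ⊢
      rw [← hx, map_pow, hγ]
    refine ⟨Om p, inferInstance, inferInstance, x,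
      (e.toMonoidHom.comp ψ₀).comp (Subgroup.inclusion hle), hst', ?_, ?_, ?_⟩
    · obtain ⟨S, hS⟩ := hfinE
      exact ⟨S, fun γ hγ => hS _ hγ⟩
    · exact Top_perf hN.ne' hx hx0 (e.toMonoidHom.comp ψ₀) hle hregE hperf
    · intro ℓ hℓ hne V hVT hb γ hγ hdvd
      have hdvd' : ℓ ∣ orderOf ((e.toMonoidHom.comp ψ₀) (Subgroup.inclusion hle γ)) := hdvd
      have hb' : BadV ℓ (xx p) V := BC_bad hN.ne' hx V hb
      have h6 := hloc ℓ hℓ hne V hVT hb' (Subgroup.inclusion hle γ) hγ (by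
        rw [← hord]
        exact hdvd')
      exact hK x hx V hVT h6.1 (Subgroup.inclusion hle γ) (mem_Gx.1 γ.2) hγ ℓ hℓ hne hdvd'
  · refine ⟨Om p, inferInstance, inferInstance, xx p, e.toMonoidHom.comp ψ₀, hst, hfinE, hregE, ?_⟩
    intro ℓ hℓ hne V hVT hb γ hγ hdvd
    rw [hord] at hdvd
    exact hperf (hloc ℓ hℓ hne V hVT hb γ hγ hdvd).2

end Top

end MP7Z
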