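import Pool.Agent.Lib.MP_7f581e_Z.Top.Spec2
import Pool.Agent.Lib.MP_7f581e_Z.Top.Emb
import Pool.Agent.Lib.MP_7f581e_Z.Top.Rgl
import Pool.Agent.Lib.MP_7f581e_Z.Top.Kil
import Pool.Agent.Lib.MP_7f581e_Z.Top.Top
import Pool.Agent.Lib.MP_7f581e_Z.Top.Ext
import Pool.Agent.Lib.MP_7f581e_Z.EPP.Main
import Pool.Agent.Lib.MP_7f581e_Z.EPL.Main

/-!
# Groups at the top: assembly
-/

set_option autoImplicit false

namespace MP7Z

open MP7fC

/-- The direct products of a top group (or the trivial group) and symmetric groups `S_n` of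
arbitrary degrees. -/
def IsTop (p : ℕ) [Fact p.Prime] (G : Type) [Group G] : Prop :=
  ∃ (T : Type) (_ : Group T), (Subsingleton T ∨ IsTopGroup p T) ∧
    ∃ (r : ℕ) (n : Fin r → ℕ), Nonempty (G ≃* T × (∀ i, Equiv.Perm (Fin (n i))))

namespace Top

/-- A top group is finite. -/
theorem finite_of_isTopGroup {p : ℕ} [Fact p.Prime] {T : Type} [Group T] (h : IsTopGroup p T) :
    Finite T := by
  obtain ⟨L, _, _, hf, _, ⟨e⟩, -⟩ := h
  have : Finite (L ≃ₐ[RatFunc (ZMod p)] L) := inferInstance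
  exact Finite.of_equiv _ e.toEquiv

section

variable {p : ℕ} [Fact p.Prime] {𝒮 : (S : Type) → [Group S] → Prop}

/-- Good realizations exist. -/
def HasGood (p : ℕ) [Fact p.Prime] (G : Type) [Group G] : Prop :=
  ∃ (Ω : Type) (_ : Field Ω) (_ : Algebra (ZMod p) Ω) (x : Ω) (ψ : Gx p x →* G), GoodR p x ψ

theorem HasGood.map {G H : Type} [Group G] [Group H] (h : HasGood p G) (f : G →* H)
    (hf : Function.Surjective f) : HasGood p H := by
  obtain ⟨Ω, _, _, x, ψ, hψ⟩ := h
  exact ⟨Ω, inferInstance, inferInstance, x, f.comp ψ, hψ.map f hf⟩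

/-- From `G` to `G × S_m`. -/
theorem HasGood.prod (hsim : ∀ (S : Type) [Group S], 𝒮 S → IsSimpleGroup S)
    (hiso : ∀ (S T : Type) [Group S] [Group T], (S ≃* T) → 𝒮 S → 𝒮 T) (hS : LieStep p 𝒮)
    (hA : ∀ n, 5 ≤ n → p ≤ n → n ≠ 6 → 𝒮 (alternatingGroup (Fin n)))
    (hprd : PrdStmt) (hper : PerStmt) (hF : SnFStmt) (h6 : S6FStmt) {G : Type} [Group G]
    [Finite G] (h : HasGood p G) (m : ℕ) : HasGood p (G × Equiv.Perm (Fin m)) := by
  obtain ⟨Ω, _, _, x, ψ, hψ⟩ := h
  have h1 : SymFam p m → HasGood p (G × Equiv.Perm (Fin m)) := by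
    intro hm
    obtain ⟨ψ', hψ'⟩ := hprd p m hm Ω x G ψ hψ
    exact ⟨Ω, inferInstance, inferInstance, x, ψ', hψ'⟩
  have h2 : (m ≤ 4 ∨ (5 ≤ m ∧ 𝒮 (alternatingGroup (Fin m)))) →
      HasGood p (G × Equiv.Perm (Fin m)) := by
    intro hm
    have h3 := hper 𝒮 hsim hiso m hm
    let f : G × Equiv.Perm (Fin m) →* G := MonoidHom.fst _ _
    have hf : Function.Surjective f := Prod.fst_surjective
    have hsim' : ∀ (S : Type) [Group S], ((Nat.card S).Prime ∨ 𝒮 S) → IsSimpleGroup S := by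
      intro S _ h
      rcases h with h | h
      · have : Fact (Nat.card S).Prime := ⟨h⟩
        exact isSimpleGroup_of_prime_card rfl
      · exact hsim S h
    have hiso' : ∀ (S T : Type) [Group S] [Group T], (S ≃* T) → ((Nat.card S).Prime ∨ 𝒮 S) →
        ((Nat.card T).Prime ∨ 𝒮 T) := by
      intro S T _ _ e h
      rcases h with h | h
      · left
        rw [← Nat.card_congr e.toEquiv]
        exact h
      · exact Or.inr (hiso S T e h)
    let g : Equiv.Perm (Fin m) →* f.ker :=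
      { toFun := fun s => ⟨(1, s), rfl⟩
        map_one' := rfl
        map_mul' := fun a b => Subtype.ext (Prod.ext (one_mul 1).symm rfl) }
    have hg : Function.Surjective g := by
      rintro ⟨⟨a, s⟩, ha⟩
      have ha' : a = 1 := ha
      subst ha'
      exact ⟨s, rfl⟩
    have h4 := h3.of_surjective hiso' hsim' f.ker g hg
    obtain ⟨x', ψ', hψ'⟩ := tExt p (ep_lStep p) (ep_pStep p) 𝒮 hsim hiso hS Ω x G ψ hψ
      (G × Equiv.Perm (Fin m)) f hf h4
    exact ⟨Ω, inferInstance, inferInstance, x', ψ', hψ'⟩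
  by_cases hm4 : m ≤ 4
  · exact h2 (Or.inl hm4)
  · by_cases hmp : m < p
    · exact h1 (hF p m (by omega) hmp)
    · by_cases hm6 : m = 6
      · subst hm6
        have hp : p.Prime := Fact.out
        have h7 : p = 2 ∨ p = 3 ∨ p = 5 := by
          have h8 := hp.two_le
          have h9 : p ≠ 4 := fun h => by
            rw [h] at hp
            norm_num at hp
          have h10 : p ≠ 6 := fun h => by
            rw [h] at hp
            norm_num at hp
          omega
        exact h1 (h6 p h7)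
      · exact h2 (Or.inr ⟨by omega, hA m (by omega) (by omega) hm6⟩)

theorem hasGood_top {G : Type} [Group G] [Finite G] (h : Subsingleton G ∨ IsTopGroup p G) :
    HasGood p G := by
  rcases h with h | h
  · exact ⟨Om p, inferInstance, inferInstance, xx p, 1, good_triv p⟩
  · exact tTop tEmb tRgl tKil p G h

/-- From `T` to `T × S_{n_1} × … × S_{n_r}`. -/
theorem HasGood.pi (hsim : ∀ (S : Type) [Group S], 𝒮 S → IsSimpleGroup S)
    (hiso : ∀ (S T : Type) [Group S] [Group T], (S ≃* T) → 𝒮 S → 𝒮 T) (hS : LieStep p 𝒮)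
    (hA : ∀ n, 5 ≤ n → p ≤ n → n ≠ 6 → 𝒮 (alternatingGroup (Fin n)))
    (hprd : PrdStmt) (hper : PerStmt) (hF : SnFStmt) (h6 : S6FStmt) {T : Type} [Group T]
    [Finite T] (h : HasGood p T) (r : ℕ) :
    ∀ n : Fin r → ℕ, HasGood p (T × (∀ i, Equiv.Perm (Fin (n i)))) := by
  induction r with
  | zero =>
    intro n
    let f : T →* T × (∀ i, Equiv.Perm (Fin (n i))) := (MonoidHom.id T).prod 1
    refine h.map f ?_
    rintro ⟨t, s⟩
    exact ⟨t, Prod.ext rfl (Subsingleton.elim _ _)⟩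
  | succ r ih =>
    intro n
    have h1 := (ih fun i => n i.succ).prod hsim hiso hS hA hprd hper hF h6 (n 0)
    let f : (T × (∀ i : Fin r, Equiv.Perm (Fin (n i.succ)))) × Equiv.Perm (Fin (n 0)) →*
        T × (∀ i, Equiv.Perm (Fin (n i))) :=
      { toFun := fun a => (a.1.1, Fin.cons (α := fun i => Equiv.Perm (Fin (n i))) a.2 a.1.2)
        map_one' := by
          refine Prod.ext rfl ?_
          funext i
          refine Fin.cases ?_ (fun j => ?_) i
          · rfl
          · rfl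
        map_mul' := by
          intro a b
          refine Prod.ext rfl ?_
          funext i
          refine Fin.cases ?_ (fun j => ?_) i
          · rfl
          · rfl }
    refine h1.map f ?_
    rintro ⟨t, s⟩
    refine ⟨((t, fun i => s i.succ), s 0), ?_⟩
    refine Prod.ext rfl ?_
    funext i
    refine Fin.cases ?_ (fun j => ?_) i
    · rfl
    · rfl

/-- The groups `IsTop` have good realizations. -/
theorem hasGood_of_isTop (hsim : ∀ (S : Type) [Group S], 𝒮 S → IsSimpleGroup S)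
    (hiso : ∀ (S T : Type) [Group S] [Group T], (S ≃* T) → 𝒮 S → 𝒮 T) (hS : LieStep p 𝒮)
    (hA : ∀ n, 5 ≤ n → p ≤ n → n ≠ 6 → 𝒮 (alternatingGroup (Fin n)))
    (hprd : PrdStmt) (hper : PerStmt) (hF : SnFStmt) (h6 : S6FStmt) {G : Type} [Group G]
    (h : IsTop p G) : HasGood p G := by
  obtain ⟨T, _, hT, r, n, ⟨e⟩⟩ := h
  have hfin : Finite T := by
    rcases hT with hT | hT
    · infer_instance
    · exact finite_of_isTopGroup hT
  exact (HasGood.pi hsim hiso hS hA hprd hper hF h6 (hasGood_top hT) r n).map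
    e.symm.toMonoidHom e.symm.surjective

/-- **Extensions of top groups.** -/
theorem hasGood_ext (hsim : ∀ (S : Type) [Group S], 𝒮 S → IsSimpleGroup S)
    (hiso : ∀ (S T : Type) [Group S] [Group T], (S ≃* T) → 𝒮 S → 𝒮 T) (hS : LieStep p 𝒮)
    (hA : ∀ n, 5 ≤ n → p ≤ n → n ≠ 6 → 𝒮 (alternatingGroup (Fin n)))
    (hprd : PrdStmt) (hper : PerStmt) (hF : SnFStmt) (h6 : S6FStmt) {G : Type} [Group G]
    [Finite G] (M : Subgroup G) [M.Normal]
    (hM : HasFactors (fun S [Group S] => (Nat.card S).Prime ∨ 𝒮 S) M)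
    (h : IsTop p (G ⧸ M)) : HasGood p G := by
  obtain ⟨Ω, _, _, x, ψ, hψ⟩ := hasGood_of_isTop hsim hiso hS hA hprd hper hF h6 h
  have hM' : HasFactors (fun S [Group S] => (Nat.card S).Prime ∨ 𝒮 S)
      (QuotientGroup.mk' M).ker := by
    rw [QuotientGroup.ker_mk']
    exact hM
  obtain ⟨x', ψ', hψ'⟩ := tExt p (ep_lStep p) (ep_pStep p) 𝒮 hsim hiso hS Ω x (G ⧸ M) ψ hψ
    G (QuotientGroup.mk' M) (QuotientGroup.mk'_surjective M) hM'
  exact ⟨Ω, inferInstance, inferInstance, x', ψ', hψ'⟩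

end

end Top

end MP7Z
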