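import Pool.Agent.Lib.MP_7f581e_Z.Top.Spec2

/-!
# Nra: a homomorphism of finite level is unramified at almost all points
-/

set_option autoImplicit false

namespace MP7Z

namespace Top

open Polynomial

section Nra

variable {p : ℕ} [Fact p.Prime] {Ω : Type} [Field Ω] [Algebra (ZMod p) Ω]

/-- The automorphisms fixing `x` fix `ZMod p (x)`. -/
theorem Nra_fix {x : Ω} {γ : Ω ≃ₐ[ZMod p] Ω} (h : γ ∈ Gx p x) :
    ∀ f ∈ IntermediateField.adjoin (ZMod p) {x}, γ f = f := by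
  intro f hf
  induction hf using IntermediateField.adjoin_induction with
  | mem y hy =>
    rw [Set.mem_singleton_iff.1 hy]
    exact mem_Gx.1 h
  | algebraMap c => exact γ.commutes c
  | add a b _ _ ha hb => rw [map_add, ha, hb]
  | inv a _ ha => rw [map_inv₀, ha]
  | mul a b _ _ ha hb => rw [map_mul, ha, hb]

/-- A finite set which contains all conjugates of the elements of `S`. -/
theorem Nra_orbit {x : Ω} (hst : IsStage p x) (S : Finset Ω) :
    ∃ S' : Finset Ω, ∀ γ ∈ Gx p x, ∀ s ∈ S, γ s ∈ S' := by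
  classical
  have hsep := hst.sep
  refine ⟨S.biUnion fun s =>
    ((minpoly (IntermediateField.adjoin (ZMod p) {x}) s).aroots Ω).toFinset, ?_⟩
  intro γ hγ s hs
  rw [Finset.mem_biUnion]
  refine ⟨s, hs, ?_⟩
  have hint : IsIntegral (IntermediateField.adjoin (ZMod p) {x}) s :=
    Algebra.IsIntegral.isIntegral s
  rw [Multiset.mem_toFinset, mem_aroots]
  refine ⟨minpoly.ne_zero hint, ?_⟩
  have h1 := minpoly.aeval (IntermediateField.adjoin (ZMod p) {x}) s
  rw [aeval_def] at h1 ⊢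
  have h2 := congrArg γ h1
  have h3 := hom_eval₂ (minpoly (IntermediateField.adjoin (ZMod p) {x}) s)
    (algebraMap (IntermediateField.adjoin (ZMod p) {x}) Ω) (γ : Ω →+* Ω) s
  have h4 : (γ : Ω →+* Ω).comp (algebraMap (IntermediateField.adjoin (ZMod p) {x}) Ω) =
      algebraMap (IntermediateField.adjoin (ZMod p) {x}) Ω :=
    RingHom.ext fun a => Nra_fix hγ a a.2
  rw [h4] at h3
  rw [map_zero] at h2
  exact h3.symm.trans h2

end Nra

theorem tNra (h1 : OneStmt) : NraStmt := by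
  classical
  intro p _ Ω _ _ x hst G _ ψ hψ
  obtain ⟨S, hS⟩ := hψ
  obtain ⟨S', hS'⟩ := Nra_orbit hst S
  have hone : ∀ f : Ω, ∃ R : Finset Ω, f ≠ 0 → ∀ c ∈ Cst p Ω, c ∉ R →
      ∀ V : ValuationSubring Ω, V ≠ ⊤ → V.valuation (x - c) < 1 → V.valuation f = 1 := by
    intro f
    by_cases hf : f = 0
    · exact ⟨∅, fun h => absurd hf h⟩
    · obtain ⟨R, hR⟩ := (h1 p Ω x hst).1 f hf
      exact ⟨R, fun _ => hR⟩
  choose Rf hRf using hone
  have hSS' : ∀ s ∈ S, s ∈ S' := fun s hs => hS' 1 (Gx p x).one_mem s hs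
  refine ⟨S'.biUnion Rf ∪ S'.biUnion fun s => S'.biUnion fun s' => Rf (s - s'), ?_⟩
  intro c hc hcR V hV hVx γ hγ
  rw [Finset.mem_union, not_or, Finset.mem_biUnion, Finset.mem_biUnion] at hcR
  obtain ⟨hc1, hc2⟩ := hcR
  refine hS γ fun s hs => ?_
  by_contra hne
  have hsV : s ∈ V := by
    by_cases h0 : s = 0
    · rw [h0]
      exact V.zero_mem
    · rw [← V.valuation_le_one_iff]
      exact (hRf s h0 c hc (fun h => hc1 ⟨s, hSS' s hs, h⟩) V hV hVx).le
  have h2 := (br_res p Ω x hst V hV).2.2.2 1 γ hγ.2 (fun a ha => by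
    rw [pow_one]
    exact hγ.1 a ha) s hsV
  rw [pow_one] at h2
  have h3 := hRf ((γ : Ω ≃ₐ[ZMod p] Ω) s - s) (sub_ne_zero.2 hne) c hc (fun h => hc2
    ⟨(γ : Ω ≃ₐ[ZMod p] Ω) s, hS' _ γ.2 s hs, by
      rw [Finset.mem_biUnion]
      exact ⟨s, hSS' s hs, h⟩⟩) V hV hVx
  exact h2.ne h3

end Top

end MP7Z
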