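import Pool.Agent.Lib.MP_7f581e_Z.Top.Spec2
import Pool.Agent.Lib.MP_7f581e_Z.Alt.Unr

/-!
# An element has value `1` at almost all places; and there are places over all points
-/

set_option autoImplicit false

namespace MP7Z

namespace Top

open Polynomial

theorem tOne : OneStmt := by
  classical
  intro p _ Ω _ _ x hst
  have hAC : IsAlgClosed (Cst p Ω) := br_cst p Ω x hst
  refine ⟨fun f hf => ?_, fun c hc => ?_⟩
  · obtain ⟨K, hK, hfK⟩ := (br_lvl p Ω x hst).2 {f}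
    have hfK' : f ∈ K := hfK f (Finset.mem_singleton_self f)
    obtain ⟨hcf, htr, hsep⟩ := (br_lvl p Ω x hst).1 _ hK
    have hf' : (⟨f, hfK'⟩ : K) ≠ 0 := fun h => hf (congrArg Subtype.val h)
    have hfin : {v : Place (Cst p Ω) K | v.ord (⟨f, hfK'⟩ : K) ≠ 0}.Finite := finite_ord_ne hf'
    let κ : Place (Cst p Ω) K → Ω := fun v =>
      if h : ∃ c : Cst p Ω, 0 < v.ord ((⟨x, hK.mem⟩ : K) - algebraMap (Cst p Ω) K c) then
        (h.choose : Ω) else 0
    refine ⟨hfin.toFinset.image κ, fun c hc hcR V hV hVx => ?_⟩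
    obtain ⟨v, hb, -, h3⟩ := br_bel p Ω x hst K hK V hV
    obtain ⟨hR1, hR2, -, -⟩ := br_res p Ω x hst V hV
    have h4 : v.ord (⟨f, hfK'⟩ : K) = 0 := by
      by_contra h5
      apply hcR
      rw [Finset.mem_image]
      refine ⟨v, hfin.mem_toFinset.2 h5, ?_⟩
      have h6 : ∃ c : Cst p Ω, 0 < v.ord ((⟨x, hK.mem⟩ : K) - algebraMap (Cst p Ω) K c) :=
        ⟨⟨c, hc⟩, (h3 _).2 hVx⟩
      have h7 : κ v = (h6.choose : Ω) := dif_pos h6
      rw [h7]
      have h8 : V.valuation (x - (h6.choose : Ω)) < 1 := (h3 _).1 h6.choose_spec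
      by_contra h9
      have h10 : (h6.choose : Ω) - c ≠ 0 := sub_ne_zero.2 h9
      have h11 : (h6.choose : Ω) - c ∈ Cst p Ω := sub_mem h6.choose.2 hc
      have h12 := hR2 _ h11 h10
      have h13 : (h6.choose : Ω) - c = (x - c) - (x - (h6.choose : Ω)) := by ring
      have h14 : V.valuation ((x - c) - (x - (h6.choose : Ω))) < 1 :=
        lt_of_le_of_lt (Valuation.map_sub _ _ _) (max_lt hVx h8)
      rw [← h13, h12] at h14
      exact lt_irrefl _ h14
    have h5 : f ∈ V := (hb ⟨f, hfK'⟩).1 h4.ge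
    have h6 : V.valuation f ≤ 1 := (V.valuation_le_one_iff f).2 h5
    refine le_antisymm h6 (not_lt.1 fun h7 => ?_)
    have h8 : 0 < v.ord (⟨f, hfK'⟩ : K) := (h3 _).2 h7
    rw [h4] at h8
    exact lt_irrefl _ h8
  · have hK := BC_isLevel (p := p) x x 1 (pow_one x)
    obtain ⟨hcf, htr, hsep⟩ := (br_lvl p Ω x hst).1 _ hK
    obtain ⟨v, hv⟩ := exists_ord_pos htr (⟨c, hc⟩ : Cst p Ω)
    obtain ⟨V, hV, hb⟩ := br_abv p Ω x hst _ hK v
    obtain ⟨v₀, _, h2, h3⟩ := br_bel p Ω x hst _ hK V hV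
    rw [h2 v hb] at hv
    exact ⟨V, hV, (h3 _).1 hv⟩

end Top

end MP7Z
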