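import Pool.Agent.Lib.MP_7f581e_Z.Top.Spec2

/-!
# Composition factors of the symmetric groups
-/

set_option autoImplicit false

namespace MP7Z

namespace Top

open MP7fC

/-- The symmetric group of degree at most four is solvable. -/
theorem Per_solvable (n : ℕ) (hn : n ≤ 4) : Group.IsSolvable (Equiv.Perm (Fin n)) := by
  have h4 : Nat.card (Fin 4) = 4 := Nat.card_fin 4
  have hN : (alternatingGroup.kleinFour (Fin 4)).Normal := alternatingGroup.normal_kleinFour h4
  have hcard : Nat.card (alternatingGroup (Fin 4) ⧸ alternatingGroup.kleinFour (Fin 4)) = 3 := by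
    rw [← Nat.mul_left_inj (a := Nat.card (alternatingGroup.kleinFour (Fin 4)))]
    · rw [← Subgroup.card_eq_card_quotient_mul_card_subgroup,
        alternatingGroup.card_of_card_eq_four h4,
        alternatingGroup.kleinFour_card_of_card_eq_four h4]
    · rw [alternatingGroup.kleinFour_card_of_card_eq_four h4]
      norm_num
  have hQ : Group.IsSolvable (alternatingGroup (Fin 4) ⧸ alternatingGroup.kleinFour (Fin 4)) := by
    have : Fact (Nat.Prime 3) := ⟨Nat.prime_three⟩
    have hcyc : IsCyclic (alternatingGroup (Fin 4) ⧸ alternatingGroup.kleinFour (Fin 4)) :=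
      isCyclic_of_prime_card (p := 3) hcard
    obtain ⟨g, hg⟩ := hcyc
    refine Group.isSolvable_of_comm fun a b => ?_
    obtain ⟨i, rfl⟩ := Subgroup.mem_zpowers_iff.1 (hg a)
    obtain ⟨j, rfl⟩ := Subgroup.mem_zpowers_iff.1 (hg b)
    exact (Commute.refl g).zpow_zpow i j
  have hK : Group.IsSolvable (alternatingGroup.kleinFour (Fin 4)) := by
    have : IsKleinFour (alternatingGroup.kleinFour (Fin 4)) :=
      alternatingGroup.kleinFour_isKleinFour h4
    have h : IsMulCommutative (alternatingGroup.kleinFour (Fin 4)) :=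
      IsKleinFour.isMulCommutative
    exact Group.isSolvable_of_comm fun a b => h.is_comm.comm a b
  have hA : Group.IsSolvable (alternatingGroup (Fin 4)) :=
    (Group.isSolvable_iff_subgroup_quotient _).2 ⟨hK, hQ⟩
  have hP : Group.IsSolvable (Equiv.Perm (Fin 4)) :=
    Group.isSolvable_of_ker_le_range (alternatingGroup (Fin 4)).subtype Equiv.Perm.sign (by
      rw [Subgroup.range_subtype]
      exact le_rfl)
  exact Group.isSolvable_of_isSolvable_injective
    (f := (Equiv.Perm.viaEmbeddingHom (Fin.castLEEmb hn)))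
    (Equiv.Perm.viaEmbeddingHom_injective _)

section

variable {𝒮 : (S : Type) → [Group S] → Prop}
  (hiso : ∀ (S T : Type) [Group S] [Group T], (S ≃* T) → 𝒮 S → 𝒮 T)
  (hsim : ∀ (S : Type) [Group S], 𝒮 S → IsSimpleGroup S)

include hiso in
theorem Per_simple (G : Type) [Group G] (h : 𝒮 G) : HasFactors 𝒮 G :=
  .ext G ⊥ (.triv _) (hiso _ _ (QuotientGroup.quotientBot (G := G)).symm h)

include hiso hsim

/-- Finite commutative groups. -/
theorem Per_comm (hp : ∀ (S : Type) [Group S], (Nat.card S).Prime → 𝒮 S) (m : ℕ) :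
    ∀ (G : Type) [CommGroup G] [Finite G], Nat.card G = m → HasFactors 𝒮 G := by
  induction m using Nat.strong_induction_on with
  | _ m ih =>
    intro G _ _ hm
    by_cases h1 : Nat.card G = 1
    · have : Subsingleton G := (Nat.card_eq_one_iff_unique.1 h1).1
      exact .triv G
    obtain ⟨q, hq, hqd⟩ := Nat.exists_prime_and_dvd h1
    have : Fact q.Prime := ⟨hq⟩
    obtain ⟨a, ha⟩ := exists_prime_orderOf_dvd_card' q hqd
    have hc : Nat.card (Subgroup.zpowers a) = q := by rw [Nat.card_zpowers, ha]
    have hlt : Nat.card (G ⧸ Subgroup.zpowers a) < m := by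
      have h2 := Subgroup.card_eq_card_quotient_mul_card_subgroup (Subgroup.zpowers a)
      rw [hc, hm] at h2
      have h3 : 0 < Nat.card (G ⧸ Subgroup.zpowers a) := Nat.card_pos
      have h4 := hq.two_le
      nlinarith
    refine HasFactors.extension hiso hsim
      (ih _ hlt (G ⧸ Subgroup.zpowers a) rfl) G (QuotientGroup.mk' (Subgroup.zpowers a))
      (QuotientGroup.mk'_surjective _) ?_
    rw [QuotientGroup.ker_mk']
    exact Per_simple hiso _ (hp _ (by rw [hc]; exact hq))

/-- Finite solvable groups. -/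
theorem Per_solv (hp : ∀ (S : Type) [Group S], (Nat.card S).Prime → 𝒮 S) (m : ℕ) :
    ∀ (G : Type) [Group G] [Finite G] [Group.IsSolvable G], Nat.card G = m → HasFactors 𝒮 G := by
  induction m using Nat.strong_induction_on with
  | _ m ih =>
    intro G _ _ _ hm
    rcases subsingleton_or_nontrivial G with h1 | h1
    · exact .triv G
    have hlt := Group.IsSolvable.commutator_lt_top_of_nontrivial G
    refine HasFactors.extension hiso hsim
      (Per_comm hiso hsim hp _ (Abelianization G) rfl) G Abelianization.of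
      (QuotientGroup.mk'_surjective _) ?_
    have h2 : (Abelianization.of : G →* Abelianization G).ker = commutator G :=
      Abelianization.ker_of G
    rw [h2]
    refine ih (Nat.card (commutator G)) ?_ (commutator G) rfl
    rw [← hm]
    exact lt_of_le_of_ne (Subgroup.card_le_card_group _) fun h3 =>
      hlt.ne (Subgroup.eq_top_of_card_eq _ h3)

end

theorem tPer : PerStmt := by
  intro 𝒮 hsim hiso n hn
  have hiso' : ∀ (S T : Type) [Group S] [Group T], (S ≃* T) →
      ((Nat.card S).Prime ∨ 𝒮 S) → ((Nat.card T).Prime ∨ 𝒮 T) := by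
    intro S T _ _ e h
    rcases h with h | h
    · left
      rwa [← Nat.card_congr e.toEquiv]
    · exact Or.inr (hiso S T e h)
  have hsim' : ∀ (S : Type) [Group S], ((Nat.card S).Prime ∨ 𝒮 S) → IsSimpleGroup S := by
    intro S _ h
    rcases h with h | h
    · have : Fact (Nat.card S).Prime := ⟨h⟩
      exact isSimpleGroup_of_prime_card (p := Nat.card S) rfl
    · exact hsim S h
  rcases hn with hn | ⟨hn, hA⟩
  · have := Per_solvable n hn
    exact Per_solv (𝒮 := fun S [Group S] => (Nat.card S).Prime ∨ 𝒮 S) hiso' hsim'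
      (fun S _ h => Or.inl h) _ (Equiv.Perm (Fin n)) rfl
  · have : Nontrivial (Fin n) := Fin.nontrivial_iff_two_le.2 (by omega)
    refine HasFactors.extension (𝒮 := fun S [Group S] => (Nat.card S).Prime ∨ 𝒮 S) hiso' hsim'
      (Q := ℤˣ) ?_ (Equiv.Perm (Fin n)) Equiv.Perm.sign (Equiv.Perm.sign_surjective _) ?_
    · refine Per_simple hiso' _ (Or.inl ?_)
      rw [Nat.card_eq_fintype_card, Fintype.card_units_int]
      exact Nat.prime_two
    · exact Per_simple (𝒮 := fun S [Group S] => (Nat.card S).Prime ∨ 𝒮 S) hiso' _ (Or.inr hA)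

end Top

end MP7Z
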