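import Pool.Agent.Lib.MP_7f581e_Z.Top.Spec

/-!
# Sn: the symmetric group `S_n`, `3 ≤ n < p`, has a good realization
-/

set_option autoImplicit false

namespace MP7Z

namespace Top

open Polynomial

section Sn

theorem Sn_pow {Ω : Type} [Field Ω] (V : ValuationSubring Ω) {a b : Ω} (ha : a ∈ V) (hb : b ∈ V)
    (h : V.valuation (a - b) < 1) (k : ℕ) : V.valuation (a ^ k - b ^ k) < 1 := by
  obtain ⟨s, hs⟩ := sub_dvd_pow_sub_pow (⟨a, ha⟩ : V) ⟨b, hb⟩ k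
  have hs' : a ^ k - b ^ k = (a - b) * (s : Ω) := by
    have := congrArg (Subtype.val : V → Ω) hs
    simpa using this
  rw [hs', map_mul]
  exact mul_lt_one_of_lt_of_le h ((V.valuation_le_one_iff _).2 s.2)

/-- `x` is not both a root of unity of odd order and a root of `X^(n-1) + 1`. -/
theorem Sn_odd {Ω : Type} [Field Ω] (V : ValuationSubring Ω) {x : Ω} (hx : x ∈ V)
    (h2 : V.valuation (2 : Ω) = 1) {m k : ℕ} (hm : Odd m)
    (h3 : V.valuation (x ^ m - 1) < 1) (h4 : V.valuation (x ^ k + 1) < 1) : False := by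
  have h5 := Sn_pow V (pow_mem hx m) V.one_mem h3 k
  have h6 := Sn_pow V (pow_mem hx k) (neg_mem V.one_mem)
    (show V.valuation (x ^ k - -1) < 1 by rwa [sub_neg_eq_add]) m
  rw [hm.neg_one_pow, sub_neg_eq_add] at h6
  rw [one_pow] at h5
  have h7 : (2 : Ω) = ((x ^ k) ^ m + 1) - ((x ^ m) ^ k - 1) := by
    rw [← pow_mul, ← pow_mul, mul_comm k m]
    ring
  rw [h7] at h2
  exact (lt_of_le_of_lt (V.valuation.map_sub _ _) (max_lt h6 h5)).ne h2

/-- All transpositions are obtained from one of them. -/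
theorem Sn_swaps {n : ℕ} (R : Fin n → Fin n → Prop) (hs : ∀ i j, R i j → R j i)
    (hR : ∀ i j k, R i k → i ≠ k → j ≠ k → R j k) {a b : Fin n} (hab : a ≠ b) (h : R a b)
    (c d : Fin n) (hcd : c ≠ d) : R c d := by
  by_cases hda : d = a
  · subst hda
    exact hR b c d (hs _ _ h) hab.symm hcd
  · have h1 : R a d := hs _ _ (hR b d a (hs _ _ h) hab.symm hda)
    exact hR a c d h1 (fun h => hda h.symm) hcd

variable {p : ℕ} [Fact p.Prime] {Ω : Type} [Field Ω] [Algebra (ZMod p) Ω]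

/-- The automorphisms fixing `x^(n-1)` permute the `Y_i / x`. -/
theorem Sn_rho {x : Ω} (hx : x ≠ 0) {n : ℕ} (hn : 3 ≤ n) {Y : Fin n → Ω}
    (hf : sf n x = ∏ i, (X - C (Y i))) {δ : Ω ≃ₐ[ZMod p] Ω}
    (hδ : δ (x ^ (n - 1)) = x ^ (n - 1)) (i : Fin n) : ∃ j, δ (Y i / x) = Y j / x := by
  have hδx : δ x ≠ 0 := (map_ne_zero δ).2 hx
  obtain ⟨ζ, hζ⟩ : ∃ ζ, δ x = ζ * x := ⟨δ x / x, (div_mul_cancel₀ _ hx).symm⟩
  have hζ0 : ζ ≠ 0 := by
    rintro rfl
    rw [zero_mul] at hζ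
    exact hδx hζ
  have hζ1 : ζ ^ (n - 1) = 1 := by
    rw [map_pow, hζ, mul_pow] at hδ
    exact mul_right_cancel₀ (pow_ne_zero (n - 1) hx) (hδ.trans (one_mul _).symm)
  have hζn : ζ ^ n = ζ := by
    have h1 : n = (n - 1) + 1 := by omega
    rw [h1, pow_succ, hζ1, one_mul]
  have hev : ∀ w : Ω, (sf n x).eval w = w ^ n + (n : Ω) * w - (n - 1 : Ω) * x := by
    intro w
    simp [sf]
  have hY : (Y i) ^ n + (n : Ω) * Y i - (n - 1 : Ω) * x = 0 := by
    rw [← hev, hf, eval_prod]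
    refine Finset.prod_eq_zero (Finset.mem_univ i) ?_
    rw [eval_sub, eval_X, eval_C, sub_self]
  obtain ⟨w, hw⟩ : ∃ w, δ (Y i) = ζ * w := ⟨δ (Y i) / ζ, (mul_div_cancel₀ _ hζ0).symm⟩
  have h2 : (ζ * w) ^ n + (n : Ω) * (ζ * w) - (n - 1 : Ω) * (ζ * x) = 0 := by
    have h3 := congrArg δ hY
    simp only [map_sub, map_add, map_mul, map_pow, map_natCast, map_one, map_zero] at h3
    rw [hw, hζ] at h3
    exact h3
  have h4 : w ^ n + (n : Ω) * w - (n - 1 : Ω) * x = 0 := by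
    have h5 : ζ * (w ^ n + (n : Ω) * w - (n - 1 : Ω) * x) = 0 := by
      rw [mul_pow, hζn] at h2
      rw [← h2]
      ring
    exact (mul_eq_zero.1 h5).resolve_left hζ0
  rw [← hev, hf, eval_prod, Finset.prod_eq_zero_iff] at h4
  obtain ⟨j, -, hj⟩ := h4
  rw [eval_sub, eval_X, eval_C, sub_eq_zero] at hj
  refine ⟨j, ?_⟩
  rw [map_div₀, hw, hζ, hj, mul_div_mul_left _ _ hζ0]

/-- Conjugating a transposition of the geometric group. -/
theorem Sn_conj {x : Ω} (hx : x ≠ 0) {n : ℕ} (hn : 3 ≤ n) {Y : Fin n → Ω}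
    (hY : Function.Injective Y) (hf : sf n x = ∏ i, (X - C (Y i)))
    (ψ : Gx p x →* Equiv.Perm (Fin n))
    (hψ : ∀ (γ : Gx p x) (i : Fin n), (γ : Ω ≃ₐ[ZMod p] Ω) (Y i) = Y (ψ γ i))
    {δ : Ω ≃ₐ[ZMod p] Ω} (hδc : δ ∈ Fx p (Cst p Ω : Set Ω))
    (hδ : δ (x ^ (n - 1)) = x ^ (n - 1)) {i j k : Fin n}
    (hik : δ (Y i / x) = Y j / x) (hk : δ (Y k / x) = Y k / x)
    (hswap : ∃ γ : Gx p x, (γ : Ω ≃ₐ[ZMod p] Ω) ∈ Fx p (Cst p Ω : Set Ω) ∧
      ψ γ = Equiv.swap i k) :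
    ∃ γ : Gx p x, (γ : Ω ≃ₐ[ZMod p] Ω) ∈ Fx p (Cst p Ω : Set Ω) ∧ ψ γ = Equiv.swap j k := by
  obtain ⟨γ, hγc, hγ⟩ := hswap
  have hzinj : Function.Injective fun i => Y i / x := by
    intro a b hab
    exact hY ((div_left_inj' hx).1 hab)
  choose r hr using Sn_rho hx hn hf hδ
  have hrinj : Function.Injective r := by
    intro a b hab
    apply hzinj
    apply δ.injective
    change δ (Y a / x) = δ (Y b / x)
    rw [hr, hr, hab]
  have hrsurj : Function.Surjective r := Finite.surjective_of_injective hrinj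
  have hri : r i = j := by
    apply hzinj
    change Y (r i) / x = Y j / x
    rw [← hr, hik]
  have hrk : r k = k := by
    apply hzinj
    change Y (r k) / x = Y k / x
    rw [← hr, hk]
  have hδx : δ⁻¹ x ≠ 0 := (map_ne_zero δ⁻¹).2 hx
  -- the conjugate fixes `x`
  have hx1 : ∀ c ∈ Cst p Ω, γ.1 c = c := hγc
  obtain ⟨ζ, hζ⟩ : ∃ ζ, δ⁻¹ x = ζ * x := ⟨δ⁻¹ x / x, (div_mul_cancel₀ _ hx).symm⟩
  have hζ1 : ζ ^ (n - 1) = 1 := by
    have h1 : δ⁻¹ (x ^ (n - 1)) = x ^ (n - 1) := by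
      have h2 := congrArg (δ⁻¹ : Ω ≃ₐ[ZMod p] Ω) hδ
      rw [← AlgEquiv.mul_apply, inv_mul_cancel, AlgEquiv.one_apply] at h2
      exact h2.symm
    rw [map_pow, hζ, mul_pow] at h1
    exact mul_right_cancel₀ (pow_ne_zero (n - 1) hx) (h1.trans (one_mul _).symm)
  have hζc : ζ ∈ Cst p Ω := by
    have h1 : IsAlgebraic (ZMod p) (ζ ^ (n - 1)) := by
      rw [hζ1]
      exact isAlgebraic_one
    exact mem_algebraicClosure_iff.2 (h1.of_pow (by omega))
  have hgx : δ * γ.1 * δ⁻¹ ∈ Gx p x := by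
    rw [mem_Gx, AlgEquiv.mul_apply, AlgEquiv.mul_apply, hζ, map_mul, hx1 ζ hζc,
      mem_Gx.1 γ.2, ← hζ, ← AlgEquiv.mul_apply, mul_inv_cancel, AlgEquiv.one_apply]
  refine ⟨⟨δ * γ.1 * δ⁻¹, hgx⟩, mul_mem (mul_mem hδc hγc) (inv_mem hδc), ?_⟩
  ext1 m
  obtain ⟨m, rfl⟩ := hrsurj m
  have h3 : ψ ⟨δ * γ.1 * δ⁻¹, hgx⟩ (r m) = r (ψ γ m) := by
    apply hzinj
    change Y (ψ ⟨δ * γ.1 * δ⁻¹, hgx⟩ (r m)) / x = Y (r (ψ γ m)) / x
    rw [← hψ, ← hr, ← hψ]
    have h4 : ∀ z : Ω, (δ * γ.1 * δ⁻¹) z / x = (δ * γ.1 * δ⁻¹) (z / x) := by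
      intro z
      rw [map_div₀, mem_Gx.1 hgx]
    have h5 : (γ.1 (Y m)) / x = γ.1 (Y m / x) := by
      rw [map_div₀, mem_Gx.1 γ.2]
    change (δ * γ.1 * δ⁻¹) (Y (r m)) / x = δ (γ.1 (Y m) / x)
    rw [h4, h5, ← hr, AlgEquiv.mul_apply, AlgEquiv.mul_apply, ← AlgEquiv.mul_apply δ⁻¹ δ,
      inv_mul_cancel, AlgEquiv.one_apply]
  rw [h3, hγ, ← hri, ← hrinj.swap_apply i k m, hrk]

end Sn

theorem tSn (h1 : SnRStmt) (h2 : SnSStmt) (h3 : SnTStmt) : SnStmt := by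
  classical
  intro p n _ hn hnp
  have hst := isStage_xx p
  have hx0 : xx p ≠ 0 := by
    intro h
    apply hst.transc
    rw [h]
    exact isAlgebraic_zero
  obtain ⟨Y, ψ, hY, hf, hfin, hψ, hloc⟩ := h1 p n hn hnp (Om p) (xx p) hst
  refine ⟨Om p, inferInstance, inferInstance, xx p, ψ, ⟨hst, hfin, ?_, ?_⟩⟩
  · -- regularity
    let R : Fin n → Fin n → Prop := fun i j => ∃ γ : Gx p (xx p),
      (γ : Om p ≃ₐ[ZMod p] Om p) ∈ Fx p (Cst p (Om p) : Set (Om p)) ∧ ψ γ = Equiv.swap i j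
    have hRs : ∀ i j, R i j → R j i := by
      rintro i j ⟨γ, h4, h5⟩
      exact ⟨γ, h4, by rw [h5, Equiv.swap_comm]⟩
    have hR : ∀ i j k, R i k → i ≠ k → j ≠ k → R j k := by
      intro i j k hik hne hne'
      obtain ⟨δ, hδc, hδt, hδk, hδi⟩ := h3 p n hn hnp (Om p) (xx p) hst Y hY hf i j k hne hne'
      exact Sn_conj hx0 hn hY hf ψ hψ hδc hδt hδi hδk hik
    obtain ⟨V, hV, hxV, δ, ⟨hδx, hδI⟩, i, hi⟩ := h2 p n hn hnp (Om p) (xx p) hst Y hf
    have hne : ψ ⟨δ, hδx⟩ ≠ 1 := by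
      intro h4
      apply hi
      have h5 := hψ ⟨δ, hδx⟩ i
      rw [h4, Equiv.Perm.one_apply] at h5
      exact h5
    obtain ⟨-, a, b, hab, hsw⟩ := hloc V hV hxV ⟨δ, hδx⟩ hδI hne
    have hRab : R a b := ⟨⟨δ, hδx⟩, hδI.1, hsw⟩
    let H : Subgroup (Equiv.Perm (Fin n)) :=
      ((Fx p (Cst p (Om p) : Set (Om p))).subgroupOf (Gx p (xx p))).map ψ
    have hH : H = ⊤ := by
      rw [eq_top_iff, ← Equiv.Perm.closure_isSwap, Subgroup.closure_le]
      rintro σ ⟨c, d, hcd, rfl⟩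
      obtain ⟨γ, h4, h5⟩ := Sn_swaps R hRs hR hab hRab c d hcd
      exact ⟨γ, h4, h5⟩
    intro g
    have hg : g ∈ H := by
      rw [hH]
      exact Subgroup.mem_top g
    obtain ⟨γ, h4, h5⟩ := hg
    exact ⟨γ, h4, h5⟩
  · -- the invariant
    intro ℓ hℓ hℓp V hV hbad γ hγ hdvd
    have hxV : xx p ∈ V := by
      rw [← V.valuation_le_one_iff]
      rcases hbad with h4 | ⟨m, hm, -, h4⟩
      · exact h4.le
      · by_contra hcon
        rw [not_le] at hcon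
        have h5 : 1 < V.valuation (xx p ^ m) := by
          rw [map_pow]
          exact one_lt_pow₀ hcon hm.ne'
        have h6 : V.valuation (xx p ^ m - 1) = V.valuation (xx p ^ m) := by
          apply Valuation.map_sub_eq_of_lt_left
          rw [map_one]
          exact h5
        rw [h6] at h4
        exact absurd (h4.trans h5) (lt_irrefl _)
    have hne : ψ γ ≠ 1 := by
      intro h4
      rw [h4, orderOf_one] at hdvd
      exact hℓ.one_lt.ne' (Nat.dvd_one.1 hdvd)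
    obtain ⟨hval, hsw⟩ := hloc V hV hxV γ hγ hne
    rw [hsw.orderOf] at hdvd
    have hℓ2 : ℓ = 2 := (Nat.prime_dvd_prime_iff_eq hℓ Nat.prime_two).1 hdvd
    subst hℓ2
    have h20 : (2 : Om p) ≠ 0 := by
      have hch : CharP (Om p) p :=
        charP_of_injective_algebraMap (algebraMap (ZMod p) (Om p)).injective p
      intro h4
      have h5 : ((2 : ℕ) : Om p) = 0 := by exact_mod_cast h4
      rw [CharP.cast_eq_zero_iff (Om p) p] at h5
      have := Nat.le_of_dvd (by norm_num) h5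
      omega
    have h2v : V.valuation (2 : Om p) = 1 := by
      have h2c : (2 : Om p) ∈ Cst p (Om p) := by
        have h5 : ((2 : ℕ) : Om p) ∈ Cst p (Om p) := natCast_mem _ 2
        exact_mod_cast h5
      exact (br_res p (Om p) (xx p) hst V hV).2.1 _ h2c h20
    rcases hbad with h4 | ⟨m, hm, hm2, h4⟩
    · have h5 : V.valuation (xx p ^ (n - 1)) < 1 := by
        rw [map_pow]
        exact pow_lt_one₀ zero_le h4 (by omega)
      have h6 : (1 : Om p) = (xx p ^ (n - 1) + 1) - xx p ^ (n - 1) := by ring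
      have h7 : V.valuation (1 : Om p) < 1 := by
        rw [h6]
        exact lt_of_le_of_lt (V.valuation.map_sub _ _) (max_lt hval h5)
      rw [map_one] at h7
      exact lt_irrefl _ h7
    · exact Sn_odd V hxV h2v (Nat.coprime_two_right.1 hm2) h4 hval

end Top

end MP7Z
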