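import Pool.Agent.Lib.MP_7f581e_Z.Top.Spec2
import Pool.Agent.Lib.MP_7f581e_Z.Top.Sn

/-!
# S6F: the family of realizations of `S_6` in characteristic `2`, `3`, `5`
-/

set_option autoImplicit false

namespace MP7Z

namespace Top

open Polynomial

section S6F

variable {p : ℕ} [Fact p.Prime] {Ω : Type} [Field Ω] [Algebra (ZMod p) Ω]

theorem S6F_val (V : ValuationSubring Ω) (hC : ∀ c : ZMod p, algebraMap (ZMod p) Ω c ∈ V)
    {a b : Ω} (ha : a ∈ V) (hb : b ∈ V) (h : V.valuation (a - b) < 1) (P : (ZMod p)[X]) :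
    V.valuation (aeval a P - aeval b P) < 1 := by
  induction P using Polynomial.induction_on' with
  | add P Q hP hQ =>
    rw [map_add, map_add, add_sub_add_comm]
    exact lt_of_le_of_lt (V.valuation.map_add _ _) (max_lt hP hQ)
  | monomial n c =>
    rw [aeval_monomial, aeval_monomial, ← mul_sub, map_mul]
    exact mul_lt_one_of_nonneg_of_lt_one_right ((V.valuation_le_one_iff _).2 (hC c)) zero_le
      (Sn_pow V ha hb h n)

/-- Conjugation of a transposition by an element of the stabilizer of a point. -/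
theorem S6F_conj {x : Ω} {n : ℕ} {Y : Fin n → Ω} (hY : Function.Injective Y)
    (ψ : Gx p x →* Equiv.Perm (Fin n))
    (hψ : ∀ (γ : Gx p x) (i : Fin n), (γ : Ω ≃ₐ[ZMod p] Ω) (Y i) = Y (ψ γ i))
    {δ : Ω ≃ₐ[ZMod p] Ω} (hδ : δ ∈ Fx p (insert x (Cst p Ω : Set Ω))) {i j k : Fin n}
    (hij : δ (Y i) = Y j) (hk : δ (Y k) = Y k)
    (hswap : ∃ γ : Gx p x, (γ : Ω ≃ₐ[ZMod p] Ω) ∈ Fx p (Cst p Ω : Set Ω) ∧
      ψ γ = Equiv.swap i k) :
    ∃ γ : Gx p x, (γ : Ω ≃ₐ[ZMod p] Ω) ∈ Fx p (Cst p Ω : Set Ω) ∧ ψ γ = Equiv.swap j k := by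
  obtain ⟨γ, hγc, hγ⟩ := hswap
  have hδx : δ ∈ Gx p x := mem_Gx.2 (hδ x (Set.mem_insert _ _))
  have hδc : δ ∈ Fx p (Cst p Ω : Set Ω) := fun a ha => hδ a (Set.mem_insert_of_mem _ ha)
  have h1 : ψ ⟨δ, hδx⟩ i = j := by
    apply hY
    rw [← hψ]
    exact hij
  have h2 : ψ ⟨δ, hδx⟩ k = k := by
    apply hY
    rw [← hψ]
    exact hk
  refine ⟨⟨δ, hδx⟩ * γ * ⟨δ, hδx⟩⁻¹, mul_mem (mul_mem hδc hγc) (inv_mem hδc), ?_⟩
  rw [map_mul, map_mul, map_inv, hγ]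
  ext1 m
  obtain ⟨m, rfl⟩ := (ψ ⟨δ, hδx⟩).surjective m
  rw [Equiv.Perm.mul_apply, Equiv.Perm.mul_apply, Equiv.Perm.inv_def,
    Equiv.symm_apply_apply]
  have h3 := (ψ ⟨δ, hδx⟩).injective.swap_apply i k m
  rw [h1, h2] at h3
  exact h3.symm

theorem S6F_deg (h : p = 2 ∨ p = 3 ∨ p = 5) : 0 < (q6 p).natDegree := by
  unfold q6
  have hne : (1 : ZMod p) ≠ 0 := one_ne_zero
  rcases h with rfl | rfl | rfl
  · rw [if_pos rfl]
    have h1 : (X + 1 : (ZMod 2)[X]).natDegree = 1 := by compute_degree!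
    rw [h1]
    norm_num
  · rw [if_neg (by norm_num), if_pos rfl]
    have h1 : (X ^ 6 - X ^ 2 + 1 : (ZMod 3)[X]).natDegree = 6 := by compute_degree!
    rw [h1]
    norm_num
  · rw [if_neg (by norm_num), if_neg (by norm_num)]
    have h1 : (X ^ 2 + 1 : (ZMod 5)[X]).natDegree = 2 := by compute_degree!
    rw [h1]
    norm_num

theorem S6F_dvd (h : p = 2 ∨ p = 3 ∨ p = 5) : ∃ e : ℕ, 0 < e ∧ q6 p ∣ X ^ e + 1 := by
  unfold q6
  rcases h with rfl | rfl | rfl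
  · rw [if_pos rfl]
    exact ⟨1, one_pos, by rw [pow_one]⟩
  · rw [if_neg (by norm_num), if_pos rfl]
    refine ⟨26, by norm_num, 1 + X ^ 2 + X ^ 4 - X ^ 8 + X ^ 10 + X ^ 12 - X ^ 14 + X ^ 16 +
      X ^ 20, ?_⟩
    have h3 : (3 : (ZMod 3)[X]) = 0 := by
      have h4 : ((3 : ℕ) : ZMod 3) = 0 := ZMod.natCast_self 3
      have h5 : (3 : (ZMod 3)[X]) = C ((3 : ℕ) : ZMod 3) := by
        rw [map_natCast]
        norm_num
      rw [h5, h4, C_0]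
    linear_combination (-X ^ 10 + X ^ 14 - X ^ 16 : (ZMod 3)[X]) * h3
  · rw [if_neg (by norm_num), if_neg (by norm_num)]
    exact ⟨2, two_pos, dvd_rfl⟩

end S6F

theorem tS6F (h1 : S6RStmt) (h2 : S6SStmt) (h3 : S6TStmt) : S6FStmt := by
  classical
  intro p _ hp
  obtain ⟨e, he, hdvd⟩ := S6F_dvd hp
  refine ⟨q6 p, e, he, hdvd, S6F_deg hp, ?_⟩
  intro Ω _ _ x hst
  obtain ⟨Y, ψ, hY, hf, hfin, hψ, hloc⟩ := h1 p hp Ω x hst
  have hmove : ∀ (δ : Ω ≃ₐ[ZMod p] Ω) (hδ : δ ∈ Gx p x) (i : Fin 6), δ (Y i) ≠ Y i →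
      ψ ⟨δ, hδ⟩ ≠ 1 := by
    intro δ hδx i hi h4
    apply hi
    have h5 := hψ ⟨δ, hδx⟩ i
    rw [h4, Equiv.Perm.one_apply] at h5
    exact h5
  refine ⟨ψ, hfin, ?_, hloc, ?_⟩
  · -- regularity
    have hAC : IsAlgClosed (Cst p Ω) := br_cst p Ω x hst
    obtain ⟨c, hc⟩ := IsAlgClosed.exists_aeval_eq_zero (Cst p Ω) (q6 p)
      (natDegree_pos_iff_degree_pos.1 (S6F_deg hp)).ne'
    have hcΩ : aeval (c : Ω) (q6 p) = 0 := by
      have h4 := congrArg (algebraMap (Cst p Ω) Ω) hc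
      rw [map_zero, ← aeval_algebraMap_apply] at h4
      exact h4
    obtain ⟨V, hV, hVx⟩ : ∃ V : ValuationSubring Ω, V ≠ ⊤ ∧ V.valuation (x - c) < 1 := by
      have hK := BC_isLevel (p := p) x x 1 (pow_one x)
      obtain ⟨hcf, htr, hsep⟩ := (br_lvl p Ω x hst).1 _ hK
      obtain ⟨v, hv⟩ := exists_ord_pos htr c
      obtain ⟨V, hV, hb⟩ := br_abv p Ω x hst _ hK v
      obtain ⟨v₀, _, h2, h3⟩ := br_bel p Ω x hst _ hK V hV
      rw [h2 v hb] at hv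
      exact ⟨V, hV, (h3 _).1 hv⟩
    obtain ⟨hR1, -, -, -⟩ := br_res p Ω x hst V hV
    have hcV : (c : Ω) ∈ V := hR1 c c.2
    have hxV : x ∈ V := by
      have h4 := V.add_mem _ _ ((V.valuation_le_one_iff _).1 hVx.le) hcV
      rwa [sub_add_cancel] at h4
    have hCV : ∀ a : ZMod p, algebraMap (ZMod p) Ω a ∈ V := fun a =>
      hR1 _ ((Cst p Ω).algebraMap_mem a)
    have hqx : V.valuation (aeval x (q6 p)) < 1 := by
      have h4 := S6F_val V hCV hxV hcV hVx (q6 p)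
      rwa [hcΩ, sub_zero] at h4
    obtain ⟨δ, ⟨hδx, hδI⟩, i, hi⟩ := h2 p hp Ω x hst Y hf V hV hxV hqx
    obtain ⟨-, a, b, hab, hsw⟩ := hloc V hV hxV ⟨δ, hδx⟩ hδI (hmove δ hδx i hi)
    let R : Fin 6 → Fin 6 → Prop := fun i j => ∃ γ : Gx p x,
      (γ : Ω ≃ₐ[ZMod p] Ω) ∈ Fx p (Cst p Ω : Set Ω) ∧ ψ γ = Equiv.swap i j
    have hRs : ∀ i j, R i j → R j i := by
      rintro i j ⟨γ, h4, h5⟩
      exact ⟨γ, h4, by rw [h5, Equiv.swap_comm]⟩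
    have hR : ∀ i j k, R i k → i ≠ k → j ≠ k → R j k := by
      intro i j k hik hne hne'
      obtain ⟨δ, hδ, hδk, hδi⟩ := h3 p Ω x hst Y hY hf i j k hne hne'
      exact S6F_conj hY ψ hψ hδ hδi hδk hik
    have hRab : R a b := ⟨⟨δ, hδx⟩, hδI.1, hsw⟩
    let H : Subgroup (Equiv.Perm (Fin 6)) :=
      ((Fx p (Cst p Ω : Set Ω)).subgroupOf (Gx p x)).map ψ
    have hH : H = ⊤ := by
      rw [eq_top_iff, ← Equiv.Perm.closure_isSwap, Subgroup.closure_le]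
      rintro σ ⟨c, d, hcd, rfl⟩
      obtain ⟨γ, h4, h5⟩ := Sn_swaps R hRs hR hab hRab c d hcd
      exact ⟨γ, h4, h5⟩
    intro g
    have hg : g ∈ H := by
      rw [hH]
      exact Subgroup.mem_top g
    obtain ⟨γ, h4, h5⟩ := hg
    exact ⟨γ, h4, h5⟩
  · intro V hV hxV hval
    obtain ⟨δ, ⟨hδx, hδI⟩, i, hi⟩ := h2 p hp Ω x hst Y hf V hV hxV hval
    exact ⟨⟨δ, hδx⟩, hδI, hmove δ hδx i hi⟩

end Top

end MP7Z
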