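import Pool.Agent.Lib.MP_7f581e_Z.Top.Spec

/-!
# The symmetric groups: two-fold transitivity over the constants and `x ^ (n - 1)`
-/

set_option autoImplicit false

namespace MP7Z

namespace Top

open Polynomial

/-- The quotients of the roots are roots of the Eisenstein polynomial. -/
theorem SnT_alg {M : Type} [Field M] (m : ℕ) (t z y : M)
    (hz : t * z ^ (m + 1) + ((m : M) + 1) * z - m = 0)
    (hy : t * y ^ (m + 1) + ((m : M) + 1) * y - m = 0) (hy0 : y ≠ 0) (hne : z ≠ y) :
    (m : M) * (z / y) ^ m - (((m : M) + 1) * z - m) * ∑ j ∈ Finset.range m, (z / y) ^ j = 0 := by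
  obtain ⟨w, hw⟩ : ∃ w, w = z / y := ⟨_, rfl⟩
  rw [← hw]
  have hz' : z = w * y := by rw [hw, div_mul_cancel₀ _ hy0]
  have hw1 : w - 1 ≠ 0 := by
    intro h
    apply hne
    rw [hz', sub_eq_zero.1 h, one_mul]
  have hg := geom_sum_mul w m
  have hkey : (w - 1) * ((m : M) * w ^ m -
      (((m : M) + 1) * z - m) * ∑ j ∈ Finset.range m, w ^ j) = 0 := by
    have e1 : (w - 1) * ((m : M) * w ^ m -
        (((m : M) + 1) * z - m) * ∑ j ∈ Finset.range m, w ^ j) =
        (m : M) * w ^ (m + 1) - (m : M) * w ^ m -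
        (((m : M) + 1) * z - m) * ((∑ j ∈ Finset.range m, w ^ j) * (w - 1)) := by ring
    rw [e1, hg, hz']
    rw [hz'] at hz
    rw [mul_pow] at hz
    linear_combination hz - w ^ (m + 1) * hy
  exact (mul_eq_zero.1 hkey).resolve_left hw1

variable {p : ℕ} [Fact p.Prime] {Ω : Type} [Field Ω] [Algebra (ZMod p) Ω]

/-- A power of `x` of exponent prime to `p` is again a separating element. -/
theorem SnT_stage {x : Ω} (hst : IsStage p x) {m : ℕ} (hm : m.Coprime p) : IsStage p (x ^ m) := by
  have hp : p.Prime := Fact.out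
  have hm0 : 0 < m := by
    rcases Nat.eq_zero_or_pos m with h | h
    · rw [h, Nat.coprime_zero_left] at hm
      exact absurd hm hp.one_lt.ne'
    · exact h
  have hchar : CharP Ω p := charP_of_injective_algebraMap (algebraMap (ZMod p) Ω).injective p
  have hx0 : x ≠ 0 := by
    rintro rfl
    exact hst.transc isAlgebraic_zero
  refine ⟨hst.sepClosed, ?_, ?_⟩
  · intro ha
    exact hst.transc (ha.of_pow hm0)
  · set K₁ := IntermediateField.adjoin (ZMod p) {x ^ m} with hK₁
    have hxs : IsSeparable K₁ x := by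
      have ht : x ^ m ∈ K₁ := IntermediateField.mem_adjoin_simple_self _ _
      have hchar1 : CharP K₁ p :=
        charP_of_injective_algebraMap (algebraMap (ZMod p) K₁).injective p
      have hmK : (m : K₁) ≠ 0 := by
        rw [Ne, CharP.cast_eq_zero_iff K₁ p m]
        intro hd
        have := Nat.Coprime.symm hm
        exact hp.one_lt.ne' (Nat.Coprime.eq_one_of_dvd this hd)
      have htK : (⟨x ^ m, ht⟩ : K₁) ≠ 0 := by
        intro h
        have := congrArg (fun a : K₁ => (a : Ω)) h
        exact pow_ne_zero m hx0 this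
      have hsep : (X ^ m - C (⟨x ^ m, ht⟩ : K₁)).Separable :=
        separable_X_pow_sub_C _ hmK htK
      have hroot : aeval x (X ^ m - C (⟨x ^ m, ht⟩ : K₁)) = 0 := by
        rw [map_sub, map_pow, aeval_X, aeval_C]
        exact sub_self _
      exact hsep.of_dvd (minpoly.dvd K₁ x hroot)
    set S := separableClosure K₁ Ω with hS
    have hle : IntermediateField.adjoin (ZMod p) {x} ≤ S.restrictScalars (ZMod p) := by
      rw [IntermediateField.adjoin_simple_le_iff]
      exact mem_separableClosure_iff.2 hxs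
    let ι : IntermediateField.adjoin (ZMod p) {x} →+* S :=
      { toFun := fun a => ⟨(a : Ω), hle a.2⟩
        map_one' := rfl
        map_mul' := fun _ _ => rfl
        map_zero' := rfl
        map_add' := fun _ _ => rfl }
    let : Algebra (IntermediateField.adjoin (ZMod p) {x}) S := ι.toAlgebra
    have : IsScalarTower (IntermediateField.adjoin (ZMod p) {x}) S Ω :=
      IsScalarTower.of_algebraMap_eq fun a => rfl
    have := hst.sep
    have h1 : Algebra.IsSeparable S Ω :=
      Algebra.isSeparable_tower_top_of_isSeparable (IntermediateField.adjoin (ZMod p) {x}) S Ω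
    have h2 : Algebra.IsSeparable K₁ S := separableClosure.isSeparable K₁ Ω
    exact Algebra.IsSeparable.trans K₁ S Ω

theorem tSnT (hE : SnEStmt) : SnTStmt := by
  intro p n _ hn hnp Ω _ _ x hst Y hY hf i j k hik hjk
  have hp : p.Prime := Fact.out
  have hchar : CharP Ω p := charP_of_injective_algebraMap (algebraMap (ZMod p) Ω).injective p
  have hcharC : CharP (Cst p Ω) p :=
    charP_of_injective_algebraMap (algebraMap (ZMod p) (Cst p Ω)).injective p
  have hx0 : x ≠ 0 := by
    rintro rfl
    exact hst.transc isAlgebraic_zero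
  obtain ⟨m, rfl⟩ : ∃ m, n = m + 1 := ⟨n - 1, by omega⟩
  have hm1 : m + 1 - 1 = m := by omega
  rw [hm1]
  have hst' : IsStage p (x ^ m) := by
    apply SnT_stage hst
    rw [Nat.coprime_comm, hp.coprime_iff_not_dvd]
    intro h
    have := Nat.le_of_dvd (by omega) h
    omega
  have hnC : ((m + 1 : ℕ) : Cst p Ω) ≠ 0 := by
    rw [Ne, CharP.cast_eq_zero_iff (Cst p Ω) p]
    intro h
    have := Nat.le_of_dvd (by omega) h
    omega
  have hmC : (m : Cst p Ω) ≠ 0 := by
    rw [Ne, CharP.cast_eq_zero_iff (Cst p Ω) p]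
    intro h
    have := Nat.le_of_dvd (by omega) h
    omega
  have hmΩ : (m : Ω) ≠ 0 := by
    rw [Ne, CharP.cast_eq_zero_iff Ω p]
    intro h
    have := Nat.le_of_dvd (by omega) h
    omega
  -- the roots
  have hroot : ∀ l, Y l ^ (m + 1) + ((m : Ω) + 1) * Y l - m * x = 0 := by
    intro l
    have h1 : (sf (m + 1) x).eval (Y l) = 0 := by
      rw [hf, eval_prod]
      exact Finset.prod_eq_zero (Finset.mem_univ l) (by rw [eval_sub, eval_X, eval_C, sub_self])
    rw [sf, eval_sub, eval_add, eval_pow, eval_mul, eval_C, eval_C, eval_X] at h1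
    push_cast at h1
    rw [← h1]
    ring
  have hz : ∀ l, x ^ m * (Y l / x) ^ (m + 1) + ((m : Ω) + 1) * (Y l / x) - m = 0 := by
    intro l
    have h1 : x ^ m * (Y l / x) ^ (m + 1) + ((m : Ω) + 1) * (Y l / x) - m =
        (Y l ^ (m + 1) + ((m : Ω) + 1) * Y l - m * x) / x := by
      rw [div_pow, pow_succ x m]
      field_simp
    rw [h1, hroot l, zero_div]
  have hz0 : ∀ l, Y l / x ≠ 0 := by
    intro l h
    have h1 := hz l
    rw [h, zero_pow (by omega), mul_zero, mul_zero, add_zero, zero_sub, neg_eq_zero] at h1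
    exact hmΩ h1
  have hinj : ∀ l, l ≠ k → Y k / x ≠ Y l / x := by
    intro l hl h
    apply hl
    apply hY
    rw [div_left_inj' hx0] at h
    exact h.symm
  -- `z` is transcendental
  have hzt : Transcendental (Cst p Ω) (Y k / x) := by
    intro ha
    apply hst'.transc
    have h1 : x ^ m = - (((m : Ω) + 1) * (Y k / x) - m) / (Y k / x) ^ (m + 1) := by
      rw [eq_div_iff (pow_ne_zero _ (hz0 k))]
      linear_combination hz k
    have h2 : IsAlgebraic (Cst p Ω) (x ^ m) := by
      rw [h1]
      have h3 : ∀ r : ℕ, IsAlgebraic (Cst p Ω) (r : Ω) := fun r => by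
        rw [← map_natCast (algebraMap (Cst p Ω) Ω)]
        exact isAlgebraic_algebraMap _
      have h4 : IsAlgebraic (Cst p Ω) ((m : Ω) + 1) := by
        have := h3 (m + 1)
        rwa [Nat.cast_add, Nat.cast_one] at this
      rw [div_eq_mul_inv]
      exact (((h4.mul ha).sub (h3 m)).neg).mul ((ha.pow _).inv)
    have : Algebra.IsAlgebraic (ZMod p) (Cst p Ω) := algebraicClosure.isAlgebraic (ZMod p) Ω
    exact h2.restrictScalars (ZMod p)
  -- the field
  set z : Ω := Y k / x with hzd
  set K : IntermediateField (Cst p Ω) Ω := IntermediateField.adjoin (Cst p Ω) {z} with hK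
  have hzK : z ∈ K := IntermediateField.mem_adjoin_simple_self _ _
  have hnat : ∀ r : ℕ, (r : Ω) ∈ K := fun r => by
    rw [← map_natCast (algebraMap (Cst p Ω) Ω)]
    exact K.algebraMap_mem _
  have htK : x ^ m ∈ K := by
    have h1 : x ^ m = - (((m : Ω) + 1) * z - m) / z ^ (m + 1) := by
      rw [eq_div_iff (pow_ne_zero _ (hz0 k))]
      linear_combination hz k
    rw [h1]
    exact K.div_mem (K.neg_mem (K.sub_mem (K.mul_mem (K.add_mem (hnat m) K.one_mem) hzK) (hnat m)))
      (pow_mem hzK (m + 1))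
  have hgal : IsGalois K Ω := LevAux.isGalois_top hst' htK
  have hirr := hE (m + 1) (Cst p Ω) Ω z hzt hn hnC (by
    rw [Nat.cast_add, Nat.cast_one, add_sub_cancel_right]
    exact hmC)
  have haev : ∀ l, l ≠ k → aeval (z / (Y l / x)) (C (((m + 1 : ℕ) : K) - 1) * X ^ (m + 1 - 1) -
      C (((m + 1 : ℕ) : K) * IntermediateField.AdjoinSimple.gen (Cst p Ω) z -
        (((m + 1 : ℕ) : K) - 1)) *
        ∑ j ∈ Finset.range (m + 1 - 1), X ^ j : K[X]) = 0 := by
    intro l hl
    have h1 := SnT_alg m (x ^ m) z (Y l / x) (hz k) (hz l) (hz0 l) (hinj l hl)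
    rw [hm1, map_sub, map_mul, map_mul, map_pow, aeval_X, aeval_C, aeval_C, map_sum]
    simp only [map_pow, aeval_X, map_sub, map_mul, map_natCast, map_one]
    have h2 : algebraMap K Ω (IntermediateField.AdjoinSimple.gen (Cst p Ω) z) = z := rfl
    rw [h2, ← h1]
    push_cast
    ring
  have hconj : IsConjRoot K (z / (Y j / x)) (z / (Y i / x)) := by
    rw [isConjRoot_def, ← minpoly.eq_of_irreducible hirr (haev i hik),
      ← minpoly.eq_of_irreducible hirr (haev j hjk)]
  obtain ⟨σ, hσ⟩ := hconj.exists_algEquiv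
  refine ⟨LevAux.ofK σ, ?_, ?_, ?_, ?_⟩
  · intro c hc
    exact LevAux.ofK_mem σ c (K.algebraMap_mem ⟨c, hc⟩)
  · exact LevAux.ofK_mem σ _ htK
  · exact LevAux.ofK_mem σ _ hzK
  · have h1 : Y i / x = z / (z / (Y i / x)) := by
      rw [div_div_cancel₀ (hz0 k)]
    have h2 : Y j / x = z / (z / (Y j / x)) := by
      rw [div_div_cancel₀ (hz0 k)]
    have h3 : LevAux.ofK σ z = z := LevAux.ofK_mem σ _ hzK
    rw [h1, map_div₀, h3, LevAux.ofK_apply, hσ, ← h2]

end Top

end MP7Z
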