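import Pool.Agent.Lib.MP_7f581e_Z.Top.Spec2
import Pool.Agent.Lib.MP_7f581e_Z.Top.Sn
import Pool.Agent.Lib.MP_7f581e_Z.Top.S6F
import Pool.Agent.Lib.MP_7f581e_Z.Top.SnT
import Pool.Agent.Lib.MP_7f581e_Z.Top.Top

/-!
# Prd: direct products with symmetric groups
-/

set_option autoImplicit false

namespace MP7Z

namespace Top

open Polynomial

section Prd

/-- A normal subgroup with a transposition is everything. -/
theorem Prd_top {n : ℕ} (D : Subgroup (Equiv.Perm (Fin n)))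
    (hD : ∀ s d : Equiv.Perm (Fin n), d ∈ D → s * d * s⁻¹ ∈ D) {σ : Equiv.Perm (Fin n)}
    (hσ : σ.IsSwap) (h : σ ∈ D) : D = ⊤ := by
  classical
  rw [eq_top_iff, ← Equiv.Perm.closure_isSwap, Subgroup.closure_le]
  rintro τ ⟨c, d, hcd, rfl⟩
  obtain ⟨a, b, hab, rfl⟩ := hσ
  obtain ⟨s, hs⟩ := isConj_iff.1 (Equiv.Perm.isConj_swap hab hcd)
  rw [← hs]
  exact hD s _ h

variable {p : ℕ} [Fact p.Prime] {Ω : Type} [Field Ω] [Algebra (ZMod p) Ω]

/-- `x` is in `V` at a bad place. -/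
theorem Prd_mem {ℓ : ℕ} {x : Ω} {V : ValuationSubring Ω} (hbad : BadV ℓ x V) : x ∈ V := by
  rw [← V.valuation_le_one_iff]
  rcases hbad with h4 | ⟨m, hm, -, h4⟩
  · exact h4.le
  · by_contra hcon
    rw [not_le] at hcon
    have h5 : 1 < V.valuation (x ^ m) := by
      rw [map_pow]
      exact one_lt_pow₀ hcon hm.ne'
    have h6 : V.valuation (x ^ m - 1) = V.valuation (x ^ m) := by
      apply Valuation.map_sub_eq_of_lt_left
      rw [map_one]
      exact h5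
    rw [h6] at h4
    exact absurd (h4.trans h5) (lt_irrefl _)

theorem Prd_conj {x : Ω} (hx : x ≠ 0) {m : ℕ} (hm : m ≠ 0) {g γ : Ω ≃ₐ[ZMod p] Ω}
    (hg : g (x ^ m) = x ^ m) (hγc : γ ∈ Fx p (Cst p Ω : Set Ω)) (hγx : γ x = x) :
    (g * γ * g⁻¹) x = x := by
  have hg' : g⁻¹ (x ^ m) = x ^ m := by
    have h2 := congrArg (g⁻¹ : Ω ≃ₐ[ZMod p] Ω) hg
    rw [← AlgEquiv.mul_apply, inv_mul_cancel, AlgEquiv.one_apply] at h2
    exact h2.symm
  obtain ⟨ζ, hζ, hζx⟩ := Top_root hm rfl hx hg'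
  rw [AlgEquiv.mul_apply, AlgEquiv.mul_apply, hζx, map_mul, hγc ζ hζ, hγx, ← hζx,
    ← AlgEquiv.mul_apply, mul_inv_cancel, AlgEquiv.one_apply]

/-- An `m`-th root outside of a small set. -/
theorem Prd_root [IsAlgClosed (Cst p Ω)] {m : ℕ} (hm : m.Coprime p) {c₀ : Cst p Ω}
    (hc₀ : c₀ ≠ 0) (R : Finset Ω) (hR : R.card < m) : ∃ c : Cst p Ω, c ^ m = c₀ ∧ (c : Ω) ∉ R := by
  classical
  have hp : p.Prime := Fact.out
  have hchar : CharP (Cst p Ω) p :=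
    charP_of_injective_algebraMap (algebraMap (ZMod p) (Cst p Ω)).injective p
  have hne : NeZero (m : Cst p Ω) := ⟨by
    rw [Ne, CharP.cast_eq_zero_iff (Cst p Ω) p]
    intro h
    rw [Nat.coprime_comm, hp.coprime_iff_not_dvd] at hm
    exact hm h⟩
  have hm0 : 0 < m := by omega
  obtain ⟨ζ, hζ⟩ := HasEnoughRootsOfUnity.exists_primitiveRoot (Cst p Ω) m
  obtain ⟨c₁, hc₁⟩ := IsAlgClosed.exists_pow_nat_eq c₀ hm0
  have hc₁0 : c₁ ≠ 0 := by
    rintro rfl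
    rw [zero_pow hm0.ne'] at hc₁
    exact hc₀ hc₁.symm
  by_contra hcon
  push Not at hcon
  have h1 : (Finset.range m).card ≤ R.card := by
    refine Finset.card_le_card_of_injOn (fun i => ((ζ ^ i * c₁ : Cst p Ω) : Ω)) ?_ ?_
    · intro i _
      refine hcon _ ?_
      rw [mul_pow, hc₁, ← pow_mul, mul_comm i m, pow_mul, hζ.pow_eq_one, one_pow, one_mul]
    · intro i hi j hj hij
      have h2 : ζ ^ i * c₁ = ζ ^ j * c₁ := Subtype.ext hij
      exact hζ.pow_inj (Finset.mem_range.1 hi) (Finset.mem_range.1 hj)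
        (mul_right_cancel₀ hc₁0 h2)
  rw [Finset.card_range] at h1
  omega

end Prd

theorem tPrd (h1 : OneStmt) (h2 : NraStmt) : PrdStmt := by
  classical
  intro p n _ hfam Ω _ _ x G _ _ ψ hψ
  have hp : p.Prime := Fact.out
  have hst := hψ.stage
  have hAC : IsAlgClosed (Cst p Ω) := br_cst p Ω x hst
  have hx0 : x ≠ 0 := by
    intro h
    apply hst.transc
    rw [h]
    exact isAlgebraic_zero
  obtain ⟨q, e, he, hqe, hqd, hfam⟩ := hfam
  obtain ⟨R, hR⟩ := h2 p Ω x hst G ψ hψ.fin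
  -- the root of `q`
  obtain ⟨c₀, hc₀⟩ := IsAlgClosed.exists_aeval_eq_zero (Cst p Ω) q
    (natDegree_pos_iff_degree_pos.1 hqd).ne'
  have hc₀0 : c₀ ≠ 0 := by
    rintro rfl
    obtain ⟨r, hr⟩ := hqe
    have h4 := congrArg (aeval (0 : Cst p Ω)) hr
    rw [map_mul, hc₀, zero_mul, map_add, map_pow, aeval_X, zero_pow he.ne', map_one,
      zero_add] at h4
    exact one_ne_zero h4
  -- the exponent
  obtain ⟨m, hm, hmR⟩ : ∃ m : ℕ, m.Coprime p ∧ R.card < m := by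
    refine ⟨p * (R.card + 1) + 1, ?_, ?_⟩
    · rw [Nat.coprime_comm, hp.coprime_iff_not_dvd]
      intro h
      have h3 := (Nat.dvd_add_right (dvd_mul_right p (R.card + 1))).1 h
      exact hp.one_lt.ne' (Nat.dvd_one.1 h3)
    · have h3 : 1 * (R.card + 1) ≤ p * (R.card + 1) := Nat.mul_le_mul_right _ hp.one_lt.le
      omega
  have hm0 : m ≠ 0 := by omega
  obtain ⟨c, hcm, hcR⟩ := Prd_root hm hc₀0 R hmR
  have hc0 : c ≠ 0 := by
    rintro rfl
    rw [zero_pow hm0] at hcm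
    exact hc₀0 hcm.symm
  have hsty : IsStage p (x ^ m) := SnT_stage hst hm
  obtain ⟨φ, hφfin, hφreg, hφram, hφbr⟩ := hfam Ω (x ^ m) hsty
  have hle : Gx p x ≤ Gx p (x ^ m) := by
    intro γ hγ
    rw [mem_Gx] at hγ ⊢
    rw [map_pow, hγ]
  have hincl : ∀ (γ : Gx p x), ((Subgroup.inclusion hle γ : Gx p (x ^ m)) : Ω ≃ₐ[ZMod p] Ω) =
      (γ : Ω ≃ₐ[ZMod p] Ω) := fun _ => rfl
  refine ⟨ψ.prod (φ.comp (Subgroup.inclusion hle)), ⟨hst, ?_, ?_, ?_⟩⟩
  · -- finite level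
    obtain ⟨S₁, hS₁⟩ := hψ.fin
    obtain ⟨S₂, hS₂⟩ := hφfin
    refine ⟨S₁ ∪ S₂, fun γ hγ => ?_⟩
    rw [MonoidHom.prod_apply, Prod.mk_eq_one]
    exact ⟨hS₁ γ fun s hs => hγ s (Finset.mem_union_left _ hs),
      hS₂ (Subgroup.inclusion hle γ) fun s hs => hγ s (Finset.mem_union_right _ hs)⟩
  · -- regularity
    obtain ⟨V, hV, hVx⟩ := (h1 p Ω x hst).2 (c : Ω) c.2
    obtain ⟨hR1, hR2, -, hR4⟩ := br_res p Ω x hst V hV
    have hcV : (c : Ω) ∈ V := hR1 c c.2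
    have hxV : x ∈ V := by
      have h4 := V.add_mem _ _ ((V.valuation_le_one_iff _).1 hVx.le) hcV
      rwa [sub_add_cancel] at h4
    have hCV : ∀ a : ZMod p, algebraMap (ZMod p) Ω a ∈ V := fun a =>
      hR1 _ ((Cst p Ω).algebraMap_mem a)
    have hq0 : aeval ((c : Ω) ^ m) q = 0 := by
      have h4 := congrArg (algebraMap (Cst p Ω) Ω) hc₀
      rw [map_zero, ← aeval_algebraMap_apply, ← hcm] at h4
      exact h4
    have hqx : V.valuation (aeval (x ^ m) q) < 1 := by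
      have h4 := S6F_val V hCV (pow_mem hxV m) (pow_mem hcV m) (Sn_pow V hxV hcV hVx m) q
      rwa [hq0, sub_zero] at h4
    obtain ⟨δ, hδI, hδ1⟩ := hφbr V hV (pow_mem hxV m) hqx
    obtain ⟨-, hδs⟩ := hφram V hV (pow_mem hxV m) δ hδI hδ1
    -- `δ` fixes `x`
    have hδx : (δ : Ω ≃ₐ[ZMod p] Ω) x = x := by
      obtain ⟨ζ, hζ, hζx⟩ := Top_root hm0 rfl hx0 (mem_Gx.1 δ.2)
      have h3 := hR4 1 (δ : Ω ≃ₐ[ZMod p] Ω) hδI.2 (fun a ha => by
        rw [pow_one]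
        exact hδI.1 a ha) x hxV
      rw [pow_one, hζx] at h3
      have h4 : V.valuation x = 1 := by
        have h5 : V.valuation (c : Ω) = 1 := hR2 c c.2 fun h => hc0 (Subtype.ext h)
        have h6 : x = c + (x - c) := by ring
        rw [h6, Valuation.map_add_eq_of_lt_left, h5]
        rw [h5]
        exact hVx
      have h5 : ζ * x - x = (ζ - 1) * x := by ring
      rw [h5, map_mul, h4, mul_one] at h3
      have h6 : ζ = 1 := by
        by_contra hne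
        have h7 := hR2 (ζ - 1) ((Cst p Ω).sub_mem hζ (Cst p Ω).one_mem) (sub_ne_zero.2 hne)
        exact h3.ne h7
      rw [hζx, h6, one_mul]
    obtain ⟨δ', hδ'⟩ : ∃ δ' : Gx p x, Subgroup.inclusion hle δ' = δ :=
      ⟨⟨(δ : Ω ≃ₐ[ZMod p] Ω), mem_Gx.2 hδx⟩, rfl⟩
    have hδ'v : (δ' : Ω ≃ₐ[ZMod p] Ω) = (δ : Ω ≃ₐ[ZMod p] Ω) := by rw [← hδ']; rfl
    have hδ'I : (δ' : Ω ≃ₐ[ZMod p] Ω) ∈ Inert p V := by rw [hδ'v]; exact hδI
    have hδ'ψ : ψ δ' = 1 := hR c c.2 hcR V hV hVx δ' hδ'I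
    -- the image of the geometric group of `x`
    have hD1 : ((Fx p (Cst p Ω : Set Ω)).subgroupOf (Gx p x)).map
        (φ.comp (Subgroup.inclusion hle)) = ⊤ := by
      refine Prd_top _ ?_ hδs ⟨δ', hδ'I.1, ?_⟩
      · rintro s _ ⟨γ, hγ, rfl⟩
        obtain ⟨g, hgc, rfl⟩ := hφreg s
        have h3 : (g : Ω ≃ₐ[ZMod p] Ω) * (γ : Ω ≃ₐ[ZMod p] Ω) * (g : Ω ≃ₐ[ZMod p] Ω)⁻¹ ∈
            Gx p x := mem_Gx.2 (Prd_conj hx0 hm0 (mem_Gx.1 g.2) hγ (mem_Gx.1 γ.2))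
        refine ⟨⟨_, h3⟩, mul_mem (mul_mem hgc hγ) (inv_mem hgc), ?_⟩
        rw [MonoidHom.comp_apply, MonoidHom.comp_apply, ← map_inv, ← map_mul, ← map_mul]
        rfl
      · rw [MonoidHom.comp_apply, hδ']
    have hD2 : ((Fx p (Cst p Ω : Set Ω)).subgroupOf (Gx p x) ⊓ ψ.ker).map
        (φ.comp (Subgroup.inclusion hle)) = ⊤ := by
      refine Prd_top _ ?_ hδs ⟨δ', ⟨hδ'I.1, MonoidHom.mem_ker.2 hδ'ψ⟩, ?_⟩
      · rintro s _ ⟨γ, ⟨hγ, hγψ⟩, rfl⟩
        have hs : s ∈ ((Fx p (Cst p Ω : Set Ω)).subgroupOf (Gx p x)).map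
            (φ.comp (Subgroup.inclusion hle)) := by
          rw [hD1]
          exact Subgroup.mem_top s
        obtain ⟨g, hg, rfl⟩ := hs
        refine ⟨g * γ * g⁻¹, ⟨Subgroup.mul_mem _ (Subgroup.mul_mem _ hg hγ)
          (Subgroup.inv_mem _ hg), ?_⟩, ?_⟩
        · exact (inferInstance : ψ.ker.Normal).conj_mem γ hγψ g
        · rw [map_mul, map_mul, map_inv]
      · rw [MonoidHom.comp_apply, hδ']
    rintro ⟨a, s⟩
    obtain ⟨γ, hγc, hγ⟩ := hψ.reg a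
    have hs : (φ.comp (Subgroup.inclusion hle) γ)⁻¹ * s ∈
        ((Fx p (Cst p Ω : Set Ω)).subgroupOf (Gx p x) ⊓ ψ.ker).map
        (φ.comp (Subgroup.inclusion hle)) := by
      rw [hD2]
      exact Subgroup.mem_top _
    obtain ⟨δ₂, ⟨hδ₂c, hδ₂ψ⟩, hδ₂⟩ := hs
    refine ⟨γ * δ₂, mul_mem hγc hδ₂c, ?_⟩
    rw [MonoidHom.prod_apply, map_mul, map_mul, hδ₂, MonoidHom.mem_ker.1 hδ₂ψ, hγ, mul_one,
      mul_inv_cancel_left]
  · -- the invariant
    intro ℓ hℓ hℓp V hV hbad γ hγ hdvd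
    rw [MonoidHom.prod_apply, Prod.orderOf_mk] at hdvd
    have h3 := hdvd.trans (Nat.lcm_dvd_mul _ _)
    rcases (Nat.Prime.dvd_mul hℓ).1 h3 with h4 | h4
    · exact hψ.inv ℓ hℓ hℓp V hV hbad γ hγ h4
    have hxV : x ∈ V := Prd_mem hbad
    have hne : φ (Subgroup.inclusion hle γ) ≠ 1 := by
      intro h5
      rw [MonoidHom.comp_apply, h5, orderOf_one] at h4
      exact hℓ.one_lt.ne' (Nat.dvd_one.1 h4)
    obtain ⟨hval, hsw⟩ := hφram V hV (pow_mem hxV m) (Subgroup.inclusion hle γ) hγ hne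
    rw [MonoidHom.comp_apply, hsw.orderOf] at h4
    have hℓ2 : ℓ = 2 := (Nat.prime_dvd_prime_iff_eq hℓ Nat.prime_two).1 h4
    subst hℓ2
    obtain ⟨hR1, hR2, -, -⟩ := br_res p Ω x hst V hV
    have h20 : (2 : Ω) ≠ 0 := by
      have hch : CharP Ω p :=
        charP_of_injective_algebraMap (algebraMap (ZMod p) Ω).injective p
      intro h5
      have h6 : ((2 : ℕ) : Ω) = 0 := by exact_mod_cast h5
      rw [CharP.cast_eq_zero_iff Ω p] at h6
      exact hℓp ((Nat.prime_dvd_prime_iff_eq hp Nat.prime_two).1 h6).symm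
    have h2v : V.valuation (2 : Ω) = 1 := by
      have h2c : (2 : Ω) ∈ Cst p Ω := by
        have h5 : ((2 : ℕ) : Ω) ∈ Cst p Ω := natCast_mem _ 2
        exact_mod_cast h5
      exact hR2 _ h2c h20
    have hval' : V.valuation (x ^ (m * e) + 1) < 1 := by
      obtain ⟨r, hr⟩ := hqe
      have h5 := congrArg (aeval (x ^ m)) hr
      rw [map_mul, map_add, map_pow, aeval_X, map_one, ← pow_mul] at h5
      rw [h5, map_mul]
      have h6 : aeval (x ^ m) r ∈ V := by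
        rw [aeval_eq_sum_range]
        refine sum_mem fun i _ => ?_
        rw [Algebra.smul_def]
        exact mul_mem (hR1 _ ((Cst p Ω).algebraMap_mem _)) (pow_mem (pow_mem hxV m) i)
      exact mul_lt_one_of_lt_of_le hval ((V.valuation_le_one_iff _).2 h6)
    rcases hbad with h5 | ⟨k, hk, hk2, h5⟩
    · have h6 : V.valuation (x ^ (m * e)) < 1 := by
        rw [map_pow]
        exact pow_lt_one₀ zero_le h5 (Nat.mul_ne_zero hm0 he.ne')
      have h7 : (1 : Ω) = (x ^ (m * e) + 1) - x ^ (m * e) := by ring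
      have h8 : V.valuation (1 : Ω) < 1 := by
        rw [h7]
        exact lt_of_le_of_lt (V.valuation.map_sub _ _) (max_lt hval' h6)
      rw [map_one] at h8
      exact lt_irrefl _ h8
    · exact Sn_odd V hxV h2v (Nat.coprime_two_right.1 hk2) h5 hval'

end Top

end MP7Z
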