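import Pool.Agent.Lib.MP_7f581e_Z.Top.Spec2

/-!
# The symmetric group of degree six: irreducibility by Eisenstein's criterion
-/

set_option autoImplicit false

namespace MP7Z

namespace Top

open Polynomial

/-- A monic Eisenstein polynomial of degree five. -/
theorem S6E_irr {R : Type} [CommRing R] [IsDomain R] (Z : R) (hZ : Prime Z) (Q : R[X])
    (hQ : Q.natDegree ≤ 4) (hQ0 : Q.coeff 0 = 1) :
    Irreducible (X ^ 5 - C Z * Q) ∧ (X ^ 5 - C Z * Q).Monic := by
  have hcoef : ∀ k, (X ^ 5 - C Z * Q).coeff k = (if k = 5 then 1 else 0) - Z * Q.coeff k := by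
    intro k
    rw [coeff_sub, coeff_C_mul, coeff_X_pow]
  have hQ5 : ∀ k, 5 ≤ k → Q.coeff k = 0 := fun k hk =>
    coeff_eq_zero_of_natDegree_lt (by omega)
  have hc5 : (X ^ 5 - C Z * Q).coeff 5 = 1 := by
    rw [hcoef, if_pos rfl, hQ5 5 le_rfl, mul_zero, sub_zero]
  have hnat : (X ^ 5 - C Z * Q).natDegree = 5 := by
    refine natDegree_eq_of_le_of_coeff_ne_zero ?_ ?_
    · rw [natDegree_le_iff_coeff_eq_zero]
      intro k hk
      rw [hcoef, if_neg (by omega), hQ5 k (by omega), mul_zero, sub_zero]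
    · rw [hc5]
      exact one_ne_zero
  have hmon : (X ^ 5 - C Z * Q).Monic := by
    rw [Monic, leadingCoeff, hnat, hc5]
  have hdeg : (X ^ 5 - C Z * Q).degree = ((5 : ℕ) : WithBot ℕ) := by
    rw [degree_eq_natDegree hmon.ne_zero, hnat]
  refine ⟨?_, hmon⟩
  refine irreducible_of_eisenstein_criterion (P := Ideal.span {Z})
    ((Ideal.span_singleton_prime hZ.ne_zero).2 hZ) ?_ ?_ ?_ ?_ hmon.isPrimitive
  · rw [hmon.leadingCoeff, Ideal.mem_span_singleton]
    intro h
    exact hZ.not_isUnit (isUnit_of_dvd_one h)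
  · intro k hk
    rw [hdeg] at hk
    have hk' : k < 5 := by exact_mod_cast hk
    rw [hcoef, if_neg (by omega), zero_sub, Ideal.mem_span_singleton, dvd_neg]
    exact dvd_mul_right _ _
  · rw [hdeg]
    exact_mod_cast (by norm_num : 0 < 5)
  · rw [hcoef, if_neg (by norm_num), hQ0, zero_sub, mul_one, Ideal.span_singleton_pow,
      Ideal.mem_span_singleton, dvd_neg, sq]
    intro h
    have h3 : Z * Z ∣ Z * 1 := by rwa [mul_one]
    exact hZ.not_isUnit (isUnit_of_dvd_one ((mul_dvd_mul_iff_left hZ.ne_zero).1 h3))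

theorem tS6E : S6EStmt := by
  intro F M _ _ _ z a hz
  obtain ⟨g1, gm⟩ := S6E_irr (X : F[X]) prime_X
    (1 + C X * X + C (X ^ 2 + (a : F[X])) * X ^ 2 +
      C (X ^ 3 + (a : F[X]) * X + (a : F[X])) * X ^ 3 +
      C (X ^ 4 + (a : F[X]) * X ^ 2 + (a : F[X]) * X + 1) * X ^ 4 : F[X][X])
    (by compute_degree) (by simp [coeff_X, coeff_one])
  have g3 := (gm.irreducible_iff_irreducible_map_fraction_map (K := RatFunc F)).1 g1
  have g4 := (MulEquiv.irreducible_iff (Polynomial.mapEquiv
    (RatFunc.algEquivOfTranscendental z hz).toRingEquiv)).2 g3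
  convert g4 using 1
  rw [Polynomial.mapEquiv_apply, Polynomial.map_map]
  set φ : F[X] →+* IntermediateField.adjoin F {z} :=
    ((RatFunc.algEquivOfTranscendental z hz).toRingEquiv : RatFunc F →+* _).comp
      (algebraMap F[X] (RatFunc F)) with hφ
  have h5 : ∀ g : F[X], φ g = aeval (IntermediateField.AdjoinSimple.gen F z) g :=
    fun g => RatFunc.algEquivOfTranscendental_algebraMap z hz g
  simp only [Polynomial.map_sub, Polynomial.map_mul, Polynomial.map_add, Polynomial.map_pow,
    Polynomial.map_one, map_X, map_C, h5, map_add, map_mul, map_pow, aeval_X, map_natCast, map_one,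
    Polynomial.map_natCast]

end Top

end MP7Z
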