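import Pool.Agent.Lib.MP_7f581e_Z.Top.Spec2

/-!
# The multiple roots of the sextic `s6`
-/

open Polynomial

namespace MP7Z.Top

private theorem S6M_char (p : ℕ) (k : Type) [Field k] [Algebra (ZMod p) k] :
    ((p : ℕ) : k) = 0 := by
  rw [← map_natCast (algebraMap (ZMod p) k) p, ZMod.natCast_self, map_zero]

private theorem S6M_ev {k : Type} [Field k] (f : k[X]) (r : k) (h : (X - C r) ^ 2 ∣ f) :
    f.eval r = 0 ∧ f.derivative.eval r = 0 := by
  obtain ⟨g, rfl⟩ := h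
  constructor
  · simp
  · simp [derivative_mul, derivative_pow]

private theorem S6M_not {k : Type} [Field k] (f g : k[X]) (r : k) (h : f = (X - C r) ^ 2 * g)
    (hg : g.eval r ≠ 0) : ¬ (X - C r) ^ 3 ∣ f := by
  rintro ⟨w, hw⟩
  apply hg
  have h1 : (X - C r) ^ 2 * g = (X - C r) ^ 2 * ((X - C r) * w) := by
    rw [← h, hw]; ring
  have h2 : (X - C r : k[X]) ^ 2 ≠ 0 := pow_ne_zero _ (X_sub_C_ne_zero r)
  rw [mul_left_cancel₀ h2 h1]
  simp

private theorem S6M_evs {k : Type} [Field k] (p : ℕ) (x r : k) (h : (X - C r) ^ 2 ∣ s6 p x) :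
    r ^ 6 + (a6 p : k) * r ^ 4 + (a6 p : k) * r ^ 3 + r ^ 2 - x * r + 1 = 0 ∧
      6 * r ^ 5 + (a6 p : k) * (4 * r ^ 3) + (a6 p : k) * (3 * r ^ 2) + 2 * r - x = 0 := by
  obtain ⟨h1, h2⟩ := S6M_ev _ r h
  constructor
  · rw [← h1]
    simp [s6]
  · rw [← h2]
    simp [s6, derivative_pow]

private theorem S6M_two {k : Type} [Field k] (h2 : (2 : k) = 0) (x : k) :
    (∀ r : k, (X - C r) ^ 2 ∣ s6 2 x → x + 1 = 0 ∧ r = 1) ∧
    (x + 1 = 0 → ∃ (r : k) (g : k[X]), r ≠ 0 ∧ s6 2 x = (X - C r) ^ 2 * g ∧ g.eval r ≠ 0) := by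
  constructor
  · intro r hr
    obtain ⟨e1, e2⟩ := S6M_evs 2 x r hr
    have ha : ((a6 2 : ℕ) : k) = 1 := by simp [a6]
    rw [ha] at e1 e2
    have hx : x = r ^ 2 := by
      linear_combination (-1 : k) * e2 + (3 * r ^ 5 + 2 * r ^ 3 + r ^ 2 + r) * h2
    have h3 : (r - 1) ^ 6 = 0 := by
      rw [hx] at e1
      linear_combination e1 + (-3 * r ^ 5 + 7 * r ^ 4 - 10 * r ^ 3 + 7 * r ^ 2 - 3 * r) * h2
    have h4 : r = 1 := by
      have := pow_eq_zero_iff (n := 6) (by norm_num) |>.1 h3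
      linear_combination this
    refine ⟨?_, h4⟩
    rw [hx, h4]
    linear_combination h2
  · intro hx
    have hx1 : x = 1 := by linear_combination hx - h2
    have hC : (C 2 : k[X]) = 0 := by rw [h2, C_0]
    have hC' : (2 : k[X]) = 0 := by
      rw [← hC]; rfl
    refine ⟨1, X ^ 4 + X + 1, one_ne_zero, ?_, ?_⟩
    · have ha : ((a6 2 : ℕ) : k) = 1 := by simp [a6]
      unfold s6
      rw [ha, hx1, C_1]
      linear_combination (X ^ 5 + X ^ 2) * hC'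
    · simp only [eval_add, eval_pow, eval_X, eval_one]
      intro h
      apply one_ne_zero (α := k)
      linear_combination h - h2

private theorem S6M_three {k : Type} [Field k] (h3 : (3 : k) = 0) (x : k) :
    (∀ r : k, (X - C r) ^ 2 ∣ s6 3 x → x ^ 6 - x ^ 2 + 1 = 0 ∧ r = -x) ∧
    (x ^ 6 - x ^ 2 + 1 = 0 →
      ∃ (r : k) (g : k[X]), r ≠ 0 ∧ s6 3 x = (X - C r) ^ 2 * g ∧ g.eval r ≠ 0) := by
  have ha : ((a6 3 : ℕ) : k) = 0 := by simp [a6]
  constructor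
  · intro r hr
    obtain ⟨e1, e2⟩ := S6M_evs 3 x r hr
    rw [ha] at e1 e2
    have hx : r = -x := by
      linear_combination (-1 : k) * e2 + (2 * r ^ 5 + r) * h3
    refine ⟨?_, hx⟩
    rw [hx] at e1
    linear_combination e1 - (x ^ 2) * h3
  · intro hx
    have hC : (C 3 : k[X]) = 0 := by rw [h3, C_0]
    have hC' : (3 : k[X]) = 0 := by
      rw [← hC]; rfl
    have hX : (C x) ^ 6 - (C x) ^ 2 + 1 = (0 : k[X]) := by
      rw [← C_pow, ← C_pow, ← C_sub, ← C_1, ← C_add, hx, C_0]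
    refine ⟨-x, (X - C (-x)) * (X + C (-x)) ^ 3 + 1, ?_, ?_, ?_⟩
    · intro h0
      have h4 : x = 0 := by linear_combination (-1 : k) * h0
      rw [h4] at hx
      apply one_ne_zero (α := k)
      linear_combination hx
    · unfold s6
      rw [ha, C_0, C_neg]
      linear_combination hX + (X ^ 4 * C x ^ 2 - X ^ 2 * C x ^ 4 - C x * X) * hC'
    · simp

private theorem S6M_five {k : Type} [Field k] (h5 : (5 : k) = 0) (x : k) :
    (∀ r : k, (X - C r) ^ 2 ∣ s6 5 x → x ^ 2 + 1 = 0 ∧ r = 2 * x) ∧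
    (x ^ 2 + 1 = 0 →
      ∃ (r : k) (g : k[X]), r ≠ 0 ∧ s6 5 x = (X - C r) ^ 2 * g ∧ g.eval r ≠ 0) := by
  have ha : ((a6 5 : ℕ) : k) = 0 := by simp [a6]
  constructor
  · intro r hr
    obtain ⟨e1, e2⟩ := S6M_evs 5 x r hr
    rw [ha] at e1 e2
    have hr2 : r ^ 2 = 1 := by
      linear_combination (-1 : k) * e1 + r * e2 - r ^ 6 * h5
    have hx : x = 3 * r := by
      linear_combination (-1 : k) * e2 + 6 * (r ^ 3 + r) * hr2 + r * h5
    refine ⟨?_, ?_⟩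
    · linear_combination (x + 3 * r) * hx + 9 * hr2 + 2 * h5
    · linear_combination (-2 : k) * hx - r * h5
  · intro hx
    have hC : (C 5 : k[X]) = 0 := by rw [h5, C_0]
    have hC' : (5 : k[X]) = 0 := by
      rw [← hC]; rfl
    have hX : (C x) ^ 2 + 1 = (0 : k[X]) := by
      rw [← C_pow, ← C_1, ← C_add, hx, C_0]
    have h2C : C (2 * x) = (2 : k[X]) * C x := by rw [C_mul]; rfl
    refine ⟨2 * x, X * (X - C (2 * x)) ^ 3 + 1, ?_, ?_, ?_⟩
    · intro h0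
      apply one_ne_zero (α := k)
      linear_combination h5 - 4 * hx + (2 * x) * h0
    · unfold s6
      rw [ha, C_0, h2C]
      linear_combination (2 * C x * X ^ 5 - 8 * C x ^ 2 * X ^ 4 + 16 * C x ^ 3 * X ^ 3 -
        16 * C x ^ 4 * X ^ 2 + 7 * C x * X + 1) * hC' +
        (32 * C x * X * (C x ^ 2 - 1) - 4) * hX
    · simp

/-- The multiple roots of `s6`. -/
theorem tS6M : S6MStmt := by
  intro p _ hp k _ _ x
  have hp0 : ((p : ℕ) : k) = 0 := S6M_char p k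
  have key : ∃ ρ : k, (∀ r : k, (X - C r) ^ 2 ∣ s6 p x → aeval x (q6 p) = 0 ∧ r = ρ) ∧
      (aeval x (q6 p) = 0 →
        ∃ (r : k) (g : k[X]), r ≠ 0 ∧ s6 p x = (X - C r) ^ 2 * g ∧ g.eval r ≠ 0) := by
    rcases hp with rfl | rfl | rfl
    · have hq : aeval x (q6 2) = x + 1 := by simp [q6]
      rw [hq]
      exact ⟨1, S6M_two (by exact_mod_cast hp0) x⟩
    · have hq : aeval x (q6 3) = x ^ 6 - x ^ 2 + 1 := by simp [q6]
      rw [hq]
      exact ⟨-x, S6M_three (by exact_mod_cast hp0) x⟩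
    · have hq : aeval x (q6 5) = x ^ 2 + 1 := by simp [q6]
      rw [hq]
      exact ⟨2 * x, S6M_five (by exact_mod_cast hp0) x⟩
  obtain ⟨ρ, h1, h2⟩ := key
  refine ⟨fun r hr => ?_, h2⟩
  obtain ⟨h3, h4⟩ := h1 r hr
  refine ⟨h3, fun r' hr' => ?_, ?_⟩
  · rw [(h1 r' hr').2, h4]
  · obtain ⟨r₀, g, _, h5, h6⟩ := h2 h3
    have h7 : r₀ = r := by
      rw [(h1 r₀ ⟨g, h5⟩).2, h4]
    rw [h7] at h5 h6
    exact S6M_not _ g r h5 h6

end MP7Z.Top
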