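import Pool.Agent.Lib.MP_7f581e_Z.Top.Spec2
import Pool.Agent.Lib.MP_7f581e_Z.Alt.Lab

/-!
# The sextic `s6`: the roots and the local analysis
-/

set_option autoImplicit false

namespace MP7Z

namespace Top

open Polynomial

section alg

theorem S6R_map {R S : Type} [CommRing R] [CommRing S] (f : R →+* S) (p : ℕ) (x : R) :
    (s6 p x).map f = s6 p (f x) := by
  unfold s6
  simp only [Polynomial.map_sub, Polynomial.map_add, Polynomial.map_mul, Polynomial.map_pow,
    map_X, map_C, map_natCast, Polynomial.map_natCast, Polynomial.map_one]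

theorem S6R_monic {R : Type} [CommRing R] [Nontrivial R] (p : ℕ) (x : R) :
    (s6 p x).Monic := by
  unfold s6
  monicity!

theorem S6R_natDegree {R : Type} [CommRing R] [Nontrivial R] (p : ℕ) (x : R) :
    (s6 p x).natDegree = 6 := by
  unfold s6
  compute_degree!

/-- The value of `q6 p`. -/
def S6R_q (p : ℕ) {R : Type} [CommRing R] (x : R) : R :=
  if p = 2 then x + 1 else if p = 3 then x ^ 6 - x ^ 2 + 1 else x ^ 2 + 1

theorem S6R_aeval (p : ℕ) {R : Type} [CommRing R] [Algebra (ZMod p) R] (x : R) :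
    aeval x (q6 p) = S6R_q p x := by
  unfold q6 S6R_q
  split_ifs <;> simp

theorem S6R_qmap (p : ℕ) {R S : Type} [CommRing R] [CommRing S] (f : R →+* S) (x : R) :
    f (S6R_q p x) = S6R_q p (f x) := by
  unfold S6R_q
  split_ifs <;> simp

theorem S6R_q0 (p : ℕ) [Fact p.Prime] : q6 p ≠ 0 := by
  have h : (q6 p).Monic := by
    unfold q6
    split_ifs <;> monicity!
  exact h.ne_zero

theorem S6R_sq {K : Type} [Field K] (F : K[X]) (r : K) (h0 : F.eval r = 0)
    (h1 : (derivative F).eval r = 0) : (X - C r) ^ 2 ∣ F := by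
  obtain ⟨g, hg⟩ := dvd_iff_isRoot.2 h0
  have h2 : g.eval r = 0 := by
    rw [hg] at h1
    simpa [derivative_mul] using h1
  obtain ⟨w, hw⟩ := dvd_iff_isRoot.2 h2
  exact ⟨w, by rw [hg, hw]; ring⟩

theorem S6R_sep (h₁ : S6MStmt) {p : ℕ} [Fact p.Prime] (hp : p = 2 ∨ p = 3 ∨ p = 5) {Ω : Type}
    [Field Ω] [Algebra (ZMod p) Ω] (x : Ω) (hx : ¬ IsAlgebraic (ZMod p) x) :
    (s6 p x).Separable := by
  unfold Polynomial.Separable
  refine (Polynomial.isCoprime_iff_aeval_ne_zero_of_isAlgClosed Ω (AlgebraicClosure Ω) _ _).2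
    fun r => ?_
  by_contra hc
  push Not at hc
  obtain ⟨hc1, hc2⟩ := hc
  apply hx
  refine ⟨q6 p, S6R_q0 p, ?_⟩
  have h2 : (X - C r) ^ 2 ∣ (s6 p x).map (algebraMap Ω (AlgebraicClosure Ω)) := by
    apply S6R_sq
    · rw [eval_map_algebraMap, hc1]
    · rw [derivative_map, eval_map_algebraMap, hc2]
  rw [S6R_map] at h2
  have h3 := ((h₁ p hp (AlgebraicClosure Ω) (algebraMap Ω (AlgebraicClosure Ω) x)).1 r h2).1
  rw [S6R_aeval, ← S6R_qmap, ← S6R_aeval] at h3
  exact (map_eq_zero_iff _ (algebraMap Ω (AlgebraicClosure Ω)).injective).1 h3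

theorem S6R_dvd {k : Type} [Field k] {n : ℕ} (y : Fin n → k) (r : k) (s : Finset (Fin n))
    (hs : ∀ i ∈ s, y i = r) : (X - C r) ^ s.card ∣ ∏ i, (X - C (y i)) := by
  have h1 : ∏ i ∈ s, (X - C (y i)) = (X - C r) ^ s.card := by
    rw [Finset.prod_congr rfl fun i hi => by rw [hs i hi], Finset.prod_const]
  rw [← h1]
  exact Finset.prod_dvd_prod_of_subset _ _ _ (Finset.subset_univ s)

end alg

theorem tS6R (h₁ : S6MStmt) : S6RStmt := by
  classical
  intro p _ hp3 Ω _ _ x hst
  have := hst.sepClosed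
  have hp : p.Prime := Fact.out
  have hchar : CharP Ω p := charP_of_injective_algebraMap (algebraMap (ZMod p) Ω).injective p
  obtain ⟨Y, hY, hfac⟩ := LabM.exists_roots (s6 p x) 6 (S6R_sep h₁ hp3 x hst.transc)
    (S6R_natDegree p x)
  rw [(S6R_monic p x).leadingCoeff, C_1, one_mul] at hfac
  have hroot : ∀ y : Ω, (s6 p x).eval y = 0 → ∃ i, y = Y i := by
    intro y hy
    rw [hfac, eval_prod] at hy
    obtain ⟨i, -, hi⟩ := Finset.prod_eq_zero_iff.1 hy
    rw [eval_sub, eval_X, eval_C, sub_eq_zero] at hi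
    exact ⟨i, hi⟩
  have hYr : ∀ i, (s6 p x).eval (Y i) = 0 := by
    intro i
    rw [hfac, eval_prod]
    refine Finset.prod_eq_zero (Finset.mem_univ i) ?_
    rw [eval_sub, eval_X, eval_C, sub_self]
  have hex : ∀ γ : Gx p x, ∃ ρ : Equiv.Perm (Fin 6),
      ∀ i, (γ : Ω ≃ₐ[ZMod p] Ω) (Y i) = Y (ρ i) := by
    intro γ
    have hγ : (γ : Ω ≃ₐ[ZMod p] Ω) x = x := mem_Gx.1 γ.2
    have h3 : ∀ i, ∃ j, (γ : Ω ≃ₐ[ZMod p] Ω) (Y i) = Y j := by
      intro i
      apply hroot
      have h4 : ((s6 p x).map ((γ : Ω ≃ₐ[ZMod p] Ω) : Ω →+* Ω)).eval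
          (((γ : Ω ≃ₐ[ZMod p] Ω) : Ω →+* Ω) (Y i)) = 0 := by
        rw [eval_map_apply, hYr, map_zero]
      rw [S6R_map] at h4
      have h5 : ((γ : Ω ≃ₐ[ZMod p] Ω) : Ω →+* Ω) x = x := hγ
      rw [h5] at h4
      exact h4
    choose ρ hρ using h3
    have hinj : Function.Injective ρ := by
      intro i j hij
      apply hY
      apply (γ : Ω ≃ₐ[ZMod p] Ω).injective
      rw [hρ, hρ, hij]
    exact ⟨Equiv.ofBijective ρ (Finite.injective_iff_bijective.1 hinj), hρ⟩
  choose ψ hψ using hex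
  have hψu : ∀ (γ : Gx p x) (ρ : Equiv.Perm (Fin 6)),
      (∀ i, (γ : Ω ≃ₐ[ZMod p] Ω) (Y i) = Y (ρ i)) → ψ γ = ρ := by
    intro γ ρ h
    ext i
    rw [hY ((hψ γ i).symm.trans (h i))]
  have hmul : ∀ γ γ', ψ (γ * γ') = ψ γ * ψ γ' := by
    intro γ γ'
    apply hψu
    intro i
    change (γ : Ω ≃ₐ[ZMod p] Ω) ((γ' : Ω ≃ₐ[ZMod p] Ω) (Y i)) = _
    rw [hψ γ' i, hψ γ _]
    rfl
  refine ⟨Y, MonoidHom.mk' ψ hmul, hY, hfac, ?_, hψ, ?_⟩
  · refine ⟨Finset.univ.image Y, fun γ hγ => ?_⟩
    refine hψu γ 1 fun i => ?_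
    rw [hγ (Y i) (Finset.mem_image_of_mem _ (Finset.mem_univ i))]
    rfl
  · intro V hV hxV γ hγ hne
    change ψ γ ≠ 1 at hne
    change V.valuation (aeval x (q6 p)) < 1 ∧ (ψ γ).IsSwap
    obtain ⟨-, -, -, hres⟩ := br_res p Ω x hst V hV
    have hγV : ∀ u ∈ V, V.valuation ((γ : Ω ≃ₐ[ZMod p] Ω) u - u) < 1 := by
      intro u hu
      have h3 := hres 1 (γ : Ω ≃ₐ[ZMod p] Ω) hγ.2 (fun c hc => by
        rw [pow_one]
        exact hγ.1 c hc) u hu
      rwa [pow_one] at h3
    -- the polynomial over `V`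
    set xV : V := ⟨x, hxV⟩ with hxVdef
    have hmapV : (s6 p xV).map (algebraMap V Ω) = s6 p x := S6R_map _ _ _
    have hYV : ∀ i, ∃ y : V, algebraMap V Ω y = Y i := by
      intro i
      refine IsIntegrallyClosed.isIntegral_iff.1 ⟨s6 p xV, S6R_monic p xV, ?_⟩
      rw [← eval_map, hmapV]
      exact hYr i
    choose yV hyV using hYV
    have hfacV : s6 p xV = ∏ i, (X - C (yV i)) := by
      apply Polynomial.map_injective (algebraMap V Ω) (IsFractionRing.injective V Ω)
      rw [hmapV, Polynomial.map_prod, hfac]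
      refine Finset.prod_congr rfl fun i _ => ?_
      rw [Polynomial.map_sub, map_X, map_C, hyV]
    set res := IsLocalRing.residue V with hresdef
    have hfack : s6 p (res xV) = ∏ i, (X - C (res (yV i))) := by
      rw [← S6R_map, hfacV, Polynomial.map_prod]
      refine Finset.prod_congr rfl fun i _ => ?_
      rw [Polynomial.map_sub, map_X, map_C]
    have hcharV : CharP V p := (algebraMap V Ω).charP (IsFractionRing.injective V Ω) p
    have hchark : CharP (IsLocalRing.ResidueField V) p := by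
      rw [CharP.charP_iff_prime_eq_zero hp, ← map_natCast res, CharP.cast_eq_zero, map_zero]
    have hresz : ∀ a : V, res a = 0 ↔ V.valuation (a : Ω) < 1 := by
      intro a
      rw [hresdef, IsLocalRing.residue_eq_zero_iff, ValuationSubring.valuation_lt_one_iff]
    have hYres : ∀ i, res (yV (ψ γ i)) = res (yV i) := by
      intro i
      rw [← sub_eq_zero, ← map_sub, hresz]
      have h3 := hγV (Y i) (by
        rw [← hyV i]
        exact (yV i).2)
      rw [hψ γ i, ← hyV i, ← hyV (ψ γ i)] at h3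
      exact h3
    let _ := ZMod.algebra (IsLocalRing.ResidueField V) p
    have hM := (h₁ p hp3 (IsLocalRing.ResidueField V) (res xV)).1
    -- moved indices
    have hmov : ∀ i, ψ γ i ≠ i → (X - C (res (yV i))) ^ 2 ∣ s6 p (res xV) := by
      intro i hi
      have h3 := S6R_dvd (fun i => res (yV i)) (res (yV i)) {i, ψ γ i} (by
        intro j hj
        rw [Finset.mem_insert, Finset.mem_singleton] at hj
        rcases hj with rfl | rfl
        · rfl
        · exact hYres i)
      rw [Finset.card_pair (Ne.symm hi), ← hfack] at h3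
      exact h3
    obtain ⟨i, hi⟩ : ∃ i, ψ γ i ≠ i := by
      by_contra h3
      push Not at h3
      exact hne (Equiv.ext h3)
    obtain ⟨hi1, hi2, hi3⟩ := hM _ (hmov i hi)
    refine ⟨?_, ?_⟩
    · rw [S6R_aeval] at hi1 ⊢
      have h3 : res (S6R_q p xV) = 0 := by rw [S6R_qmap, hi1]
      have h4 := (hresz _).1 h3
      have h5 : ((S6R_q p xV : V) : Ω) = S6R_q p x := S6R_qmap p (algebraMap V Ω) xV
      rwa [h5] at h4
    · rw [← Equiv.Perm.card_support_eq_two]
      have hj : ψ γ (ψ γ i) ≠ ψ γ i := fun h => hi ((ψ γ).injective h)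
      have h3 : (ψ γ).support = {i, ψ γ i} := by
        ext m
        rw [Equiv.Perm.mem_support, Finset.mem_insert, Finset.mem_singleton]
        constructor
        · intro hm
          by_contra h4
          push Not at h4
          have h5 := S6R_dvd (fun i => res (yV i)) (res (yV i)) {m, i, ψ γ i} (by
            intro l hl
            rw [Finset.mem_insert, Finset.mem_insert, Finset.mem_singleton] at hl
            rcases hl with rfl | rfl | rfl
            · exact hi2 _ (hmov _ hm)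
            · rfl
            · exact hi2 _ (hmov _ hj))
          have h6 : ({m, i, ψ γ i} : Finset (Fin 6)).card = 3 := by
            rw [Finset.card_eq_three]
            exact ⟨m, i, ψ γ i, h4.1, h4.2, Ne.symm hi, rfl⟩
          rw [h6, ← hfack] at h5
          exact hi3 h5
        · rintro (rfl | rfl)
          · exact hi
          · exact hj
      rw [h3, Finset.card_pair (Ne.symm hi)]

end Top

end MP7Z
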