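import Pool.Agent.Lib.MP_7f581e_Z.Top.Spec2
import Pool.Agent.Lib.MP_7f581e_Z.Alt.Unr

/-!
# The symmetric group of degree six: ramification at the branch locus
-/

set_option autoImplicit false

namespace MP7Z

namespace Top

open Polynomial

variable {p : ℕ} [Fact p.Prime] {Ω : Type} [Field Ω] [Algebra (ZMod p) Ω]

/-- Polynomials with constant coefficients. -/
theorem S6S_lip (V : ValuationSubring Ω) (hV : ∀ c ∈ Cst p Ω, c ∈ V) {a b : Ω} (ha : a ∈ V)
    (hb : b ∈ V) (q : (Cst p Ω)[X]) : ∃ h ∈ V, aeval a q - aeval b q = (a - b) * h := by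
  induction q using Polynomial.induction_on with
  | C c =>
    refine ⟨0, V.zero_mem, ?_⟩
    rw [aeval_C, aeval_C, sub_self, mul_zero]
  | add q r hq hr =>
    obtain ⟨h, hh, h1⟩ := hq
    obtain ⟨h', hh', h1'⟩ := hr
    refine ⟨h + h', V.add_mem _ _ hh hh', ?_⟩
    rw [map_add, map_add]
    linear_combination h1 + h1'
  | monomial n c ih =>
    obtain ⟨h, hh, h1⟩ := ih
    refine ⟨h * a + (c : Ω) * b ^ n, V.add_mem _ _ (V.mul_mem _ _ hh ha)
      (V.mul_mem _ _ (hV c c.2) (pow_mem hb n)), ?_⟩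
    have e1 : ∀ w : Ω, ∀ m : ℕ, aeval w (C c * X ^ m : (Cst p Ω)[X]) = (c : Ω) * w ^ m := by
      intro w m
      rw [map_mul, aeval_C, aeval_X_pow]
      rfl
    rw [e1, e1] at h1 ⊢
    rw [pow_succ, pow_succ]
    linear_combination a * h1

theorem S6S_map {F E : Type} [Field F] [Field E] (f : F →+* E) (c : F) :
    (s6 p c).map f = s6 p (f c) := by
  simp only [s6, Polynomial.map_sub, Polynomial.map_add, Polynomial.map_mul, Polynomial.map_pow,
    map_X, map_C, Polynomial.map_one, map_natCast, Polynomial.map_natCast]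

omit [Fact p.Prime] in
theorem S6S_eval {F : Type} [Field F] (x c r : F) :
    (s6 p x).eval r = (s6 p c).eval r - (x - c) * r := by
  simp only [s6, eval_sub, eval_add, eval_pow, eval_mul, eval_C, eval_X, eval_one]
  ring

theorem tS6S (hM : S6MStmt) : S6SStmt := by
  intro p _ hp Ω _ _ x hst Y hf V hV hxV hq
  obtain ⟨hR1, hR2, hR3, hR4⟩ := br_res p Ω x hst V hV
  have hcu : ∀ r : Cst p Ω, r ≠ 0 → V.valuation (r : Ω) = 1 := fun r hr =>
    hR2 r r.2 fun h => hr (Subtype.ext h)
  obtain ⟨c', hc', hVx, -⟩ := hR3 x hxV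
  obtain ⟨c, hcc⟩ : ∃ c : Cst p Ω, (c : Ω) = c' := ⟨⟨c', hc'⟩, rfl⟩
  rw [← hcc] at hVx
  have hcV : (c : Ω) ∈ V := hR1 c c.2
  -- `c` is a root
  have hqc : aeval c (q6 p) = 0 := by
    obtain ⟨h, hh, h1⟩ := S6S_lip V hR1 hxV hcV ((q6 p).map (algebraMap (ZMod p) (Cst p Ω)))
    rw [aeval_map_algebraMap, aeval_map_algebraMap] at h1
    have h2 : V.valuation (aeval (c : Ω) (q6 p)) < 1 := by
      have h3 : aeval (c : Ω) (q6 p) = aeval x (q6 p) - (x - c) * h := by
        linear_combination - h1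
      rw [h3]
      refine lt_of_le_of_lt (V.valuation.map_sub _ _) (max_lt hq ?_)
      rw [map_mul]
      exact mul_lt_one_of_nonneg_of_lt_one_left zero_le hVx ((V.valuation_le_one_iff _).2 hh)
    by_contra hne
    have h4 := hcu _ hne
    have h5 : ((aeval c (q6 p) : Cst p Ω) : Ω) = aeval (c : Ω) (q6 p) :=
      (aeval_algebraMap_apply Ω c (q6 p)).symm
    rw [h5] at h4
    exact absurd h2 (by rw [h4]; exact lt_irrefl _)
  obtain ⟨r, g, hr0, hg, hgr⟩ := (hM p hp (Cst p Ω) c).2 hqc
  have hr1 : V.valuation (r : Ω) = 1 := hcu r hr0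
  have hrV : (r : Ω) ∈ V := hR1 r r.2
  -- values
  have hfac : ∀ w : Ω, (s6 p (c : Ω)).eval w = (w - r) ^ 2 * aeval w g := by
    intro w
    have h1 : s6 p (c : Ω) = (s6 p c).map (algebraMap (Cst p Ω) Ω) :=
      (S6S_map (p := p) (algebraMap (Cst p Ω) Ω) c).symm
    rw [h1, hg, eval_map_algebraMap, map_mul, map_pow, map_sub, aeval_X, aeval_C]
    rfl
  have hev : ∏ i, ((r : Ω) - Y i) = - (x - c) * r := by
    have h1 := congrArg (eval (r : Ω)) hf
    rw [eval_prod, S6S_eval (p := p) x (c : Ω) r, hfac] at h1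
    simp only [eval_sub, eval_X, eval_C] at h1
    rw [← h1]
    ring
  obtain ⟨i, hi⟩ : ∃ i, V.valuation ((r : Ω) - Y i) < 1 := by
    by_contra hcon
    push Not at hcon
    have h1 : 1 ≤ V.valuation (∏ i, ((r : Ω) - Y i)) := by
      rw [map_prod]
      exact Finset.one_le_prod' fun i _ => hcon i
    rw [hev, map_mul, Valuation.map_neg, hr1, mul_one] at h1
    exact absurd hVx (not_lt.2 h1)
  by_contra hcon
  push Not at hcon
  obtain ⟨u, hu⟩ : ∃ u, u = Y i - r := ⟨_, rfl⟩
  have hu1 : V.valuation u < 1 := by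
    rw [hu, Valuation.map_sub_swap]
    exact hi
  have huV : u ∈ V := (V.valuation_le_one_iff _).1 hu1.le
  have hYi : Y i = r + u := by rw [hu]; ring
  have hYV : Y i ∈ V := by
    rw [hYi]
    exact V.add_mem _ _ hrV huV
  have hfix : ∀ δ ∈ Gx p x ⊓ Inert p V, δ u = u := by
    intro δ hδ
    have h1 : δ (r : Ω) = r := hδ.2.1 r r.2
    rw [hu, map_sub, h1, hcon δ hδ i]
  have hle := tUnr br_cst br_lvl br_bel br_ram p Ω x hst V hV c c.2 hVx u hfix hu1
  -- the equation for `u`
  have heq : u ^ 2 * aeval (Y i) g = (x - c) * Y i := by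
    have h1 : (s6 p x).eval (Y i) = 0 := by
      rw [hf, eval_prod]
      exact Finset.prod_eq_zero (Finset.mem_univ i) (by rw [eval_sub, eval_X, eval_C, sub_self])
    rw [S6S_eval (p := p) x (c : Ω), hfac, ← hu] at h1
    exact sub_eq_zero.1 h1
  have hYi1 : V.valuation (Y i) = 1 := by
    have h7 := Valuation.map_add_eq_of_lt_right V.valuation (x := u) (y := (r : Ω))
      (by rw [hr1]; exact hu1)
    rw [hYi, add_comm, h7, hr1]
  have hg1 : V.valuation (aeval (Y i) g) = 1 := by
    obtain ⟨h, hh, h1⟩ := S6S_lip V hR1 hYV hrV g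
    have h2 : aeval (Y i) g = u * h + aeval (r : Ω) g := by
      rw [hu]
      linear_combination h1
    have h3 : V.valuation (aeval (r : Ω) g) = 1 := by
      have h4 := hcu _ hgr
      have h5 : ((eval r g : Cst p Ω) : Ω) = aeval (r : Ω) g := by
        have h6 := aeval_algebraMap_apply Ω r g
        rw [coe_aeval_eq_eval] at h6
        exact h6.symm
      rw [h5] at h4
      exact h4
    have h4 : V.valuation (u * h) < 1 := by
      rw [map_mul]
      exact mul_lt_one_of_nonneg_of_lt_one_left zero_le hu1 ((V.valuation_le_one_iff _).2 hh)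
    have h7 := Valuation.map_add_eq_of_lt_right V.valuation (x := u * h)
      (y := aeval (r : Ω) g) (by rw [h3]; exact h4)
    rw [h2, h7, h3]
  have hval : V.valuation u ^ 2 = V.valuation (x - c) := by
    have h5 := congrArg V.valuation heq
    rw [map_mul, hg1, mul_one, map_pow, map_mul, hYi1, mul_one] at h5
    exact h5
  have hx0 : x - c ≠ 0 := by
    intro h5
    apply hst.transc
    rw [sub_eq_zero.1 h5]
    have h6 : (c : Ω) ∈ algebraicClosure (ZMod p) Ω := c.2
    rwa [mem_algebraicClosure_iff] at h6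
  have hpos : 0 < V.valuation (x - c) := by
    rw [zero_lt_iff, Ne, Valuation.zero_iff]
    exact hx0
  have h8 : V.valuation (x - c) ≤ V.valuation (x - c) ^ 2 := by
    calc V.valuation (x - c) = V.valuation u ^ 2 := hval.symm
      _ ≤ V.valuation (x - c) ^ 2 := pow_le_pow_left₀ zero_le hle 2
  have h9 : V.valuation (x - c) ^ 2 < V.valuation (x - c) := by
    rw [sq]
    exact mul_lt_of_lt_one_left hpos hVx
  exact absurd h8 (not_le.2 h9)

end Top

end MP7Z
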