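import Pool.Agent.Lib.MP_7f581e_Z.Top.Spec

/-!
# The symmetric groups: irreducibility by Eisenstein's criterion
-/

set_option autoImplicit false

namespace MP7Z

namespace Top

open Polynomial

/-- The polynomial in two variables. -/
theorem SnE_irr {F : Type} [Field F] (n : ℕ) (hn : 3 ≤ n) (h0 : (n : F) ≠ 0)
    (h1 : (n : F) - 1 ≠ 0) :
    Irreducible (C (C ((n : F) - 1)) * X ^ (n - 1) -
      C (C (n : F) * X - C ((n : F) - 1)) * ∑ j ∈ Finset.range (n - 1), X ^ j : F[X][X]) ∧
    (C (C ((n : F) - 1)) * X ^ (n - 1) -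
      C (C (n : F) * X - C ((n : F) - 1)) * ∑ j ∈ Finset.range (n - 1), X ^ j :
        F[X][X]).natDegree = n - 1 := by
  set π : F[X] := C (n : F) * X - C ((n : F) - 1) with hπd
  set Q : F[X][X] := C (C ((n : F) - 1)) * X ^ (n - 1) -
      C π * ∑ j ∈ Finset.range (n - 1), X ^ j with hQ
  have hcoef : ∀ k, Q.coeff k = (if k = n - 1 then C ((n : F) - 1) else 0) -
      (if k < n - 1 then π else 0) := by
    intro k
    rw [hQ, coeff_sub, coeff_C_mul, coeff_C_mul, coeff_X_pow, finsetSum_coeff]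
    simp only [coeff_X_pow]
    rw [Finset.sum_ite_eq]
    simp only [Finset.mem_range, mul_ite, mul_one, mul_zero]
  have hcN : Q.coeff (n - 1) = C ((n : F) - 1) := by
    rw [hcoef, if_pos rfl, if_neg (lt_irrefl _), sub_zero]
  have hck : ∀ k, k < n - 1 → Q.coeff k = - π := by
    intro k hk
    rw [hcoef, if_neg hk.ne, if_pos hk, zero_sub]
  have hcC : C ((n : F) - 1) ≠ (0 : F[X]) := by
    rwa [Ne, C_eq_zero]
  have hnat : Q.natDegree = n - 1 := by
    refine natDegree_eq_of_le_of_coeff_ne_zero ?_ ?_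
    · rw [natDegree_le_iff_coeff_eq_zero]
      intro k hk
      rw [hcoef, if_neg (by omega), if_neg (by omega), sub_zero]
    · rw [hcN]
      exact hcC
  have hQ0 : Q ≠ 0 := by
    intro h
    rw [h, coeff_zero] at hcN
    exact hcC hcN.symm
  have hdeg : Q.degree = ((n - 1 : ℕ) : WithBot ℕ) := by
    rw [degree_eq_natDegree hQ0, hnat]
  have hπdeg : π.degree = 1 := by
    rw [hπd, sub_eq_add_neg, ← C_neg]
    exact degree_linear h0
  have hπp : Prime π := (irreducible_of_degree_eq_one hπdeg).prime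
  have hπ0 : π ≠ 0 := hπp.ne_zero
  have hun : IsUnit (C ((n : F) - 1) : F[X]) := isUnit_C.2 (isUnit_iff_ne_zero.2 h1)
  refine ⟨?_, hnat⟩
  refine irreducible_of_eisenstein_criterion (P := Ideal.span {π})
    ((Ideal.span_singleton_prime hπ0).2 hπp) ?_ ?_ ?_ ?_ ?_
  · rw [leadingCoeff, hnat, hcN, Ideal.mem_span_singleton]
    intro h
    exact hπp.not_isUnit (isUnit_of_dvd_unit h hun)
  · intro k hk
    rw [hdeg] at hk
    have hk' : k < n - 1 := by exact_mod_cast hk
    rw [hck k hk', Ideal.mem_span_singleton, dvd_neg]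
  · rw [hdeg]
    exact_mod_cast (by omega : 0 < n - 1)
  · rw [hck 0 (by omega), Ideal.span_singleton_pow, Ideal.mem_span_singleton, dvd_neg, sq]
    intro h
    have h3 : π * π ∣ π * 1 := by rwa [mul_one]
    exact hπp.not_isUnit (isUnit_of_dvd_one ((mul_dvd_mul_iff_left hπ0).1 h3))
  · intro r hr
    rw [C_dvd_iff_dvd_coeff] at hr
    have h3 := hr (n - 1)
    rw [hcN] at h3
    exact isUnit_of_dvd_unit h3 hun

theorem tSnE : SnEStmt := by
  intro n F M _ _ _ z hz hn h0 h1
  obtain ⟨g1, gn⟩ := SnE_irr n hn h0 h1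
  have hnd : (C (C ((n : F) - 1)) * X ^ (n - 1) -
      C (C (n : F) * X - C ((n : F) - 1)) * ∑ j ∈ Finset.range (n - 1), X ^ j :
        F[X][X]).natDegree ≠ 0 := by
    omega
  have g2 := g1.isPrimitive hnd
  have g3 := (g2.irreducible_iff_irreducible_map_fraction_map (K := RatFunc F)).1 g1
  have g4 := (MulEquiv.irreducible_iff (Polynomial.mapEquiv
    (RatFunc.algEquivOfTranscendental z hz).toRingEquiv)).2 g3
  convert g4 using 1
  rw [Polynomial.mapEquiv_apply, Polynomial.map_map]
  set φ : F[X] →+* IntermediateField.adjoin F {z} :=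
    ((RatFunc.algEquivOfTranscendental z hz).toRingEquiv : RatFunc F →+* _).comp
      (algebraMap F[X] (RatFunc F)) with hφ
  have h5 : ∀ g : F[X], φ g = aeval (IntermediateField.AdjoinSimple.gen F z) g :=
    fun g => RatFunc.algEquivOfTranscendental_algebraMap z hz g
  rw [Polynomial.map_sub, Polynomial.map_mul, Polynomial.map_mul, Polynomial.map_pow, map_X,
    map_C, map_C, Polynomial.map_sum, h5, h5]
  simp only [Polynomial.map_pow, map_X, map_sub, map_mul, aeval_X, map_natCast, map_one]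

end Top

end MP7Z
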