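import Pool.Agent.Lib.MP_7f581e_Z.Top.Spec2
import Pool.Agent.Lib.MP_7f581e_Z.Top.Sn

/-!
# SnF: the family of realizations of `S_n`, `3 ≤ n < p`
-/

set_option autoImplicit false

namespace MP7Z

namespace Top

open Polynomial

theorem tSnF (h1 : SnRStmt) (h0 : SnWStmt) (h2 : SnSStmt) (h3 : SnTStmt) : SnFStmt := by
  classical
  intro p n _ hn hnp
  refine ⟨X ^ (n - 1) + 1, n - 1, by omega, dvd_rfl, ?_, ?_⟩
  · have h4 : (X ^ (n - 1) + 1 : (ZMod p)[X]) = X ^ (n - 1) + C 1 := by rw [C_1]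
    rw [h4, natDegree_X_pow_add_C]
    omega
  intro Ω _ _ x hst
  have hx0 : x ≠ 0 := by
    intro h
    apply hst.transc
    rw [h]
    exact isAlgebraic_zero
  have hae : aeval x (X ^ (n - 1) + 1 : (ZMod p)[X]) = x ^ (n - 1) + 1 := by
    rw [map_add, map_pow, aeval_X, map_one]
  obtain ⟨Y, ψ, hY, hf, hfin, hψ, hloc⟩ := h1 p n hn hnp Ω x hst
  have hmove : ∀ (δ : Ω ≃ₐ[ZMod p] Ω) (hδ : δ ∈ Gx p x) (i : Fin n), δ (Y i) ≠ Y i →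
      ψ ⟨δ, hδ⟩ ≠ 1 := by
    intro δ hδx i hi h4
    apply hi
    have h5 := hψ ⟨δ, hδx⟩ i
    rw [h4, Equiv.Perm.one_apply] at h5
    exact h5
  refine ⟨ψ, hfin, ?_, ?_, ?_⟩
  · -- regularity
    let R : Fin n → Fin n → Prop := fun i j => ∃ γ : Gx p x,
      (γ : Ω ≃ₐ[ZMod p] Ω) ∈ Fx p (Cst p Ω : Set Ω) ∧ ψ γ = Equiv.swap i j
    have hRs : ∀ i j, R i j → R j i := by
      rintro i j ⟨γ, h4, h5⟩
      exact ⟨γ, h4, by rw [h5, Equiv.swap_comm]⟩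
    have hR : ∀ i j k, R i k → i ≠ k → j ≠ k → R j k := by
      intro i j k hik hne hne'
      obtain ⟨δ, hδc, hδt, hδk, hδi⟩ := h3 p n hn hnp Ω x hst Y hY hf i j k hne hne'
      exact Sn_conj hx0 hn hY hf ψ hψ hδc hδt hδi hδk hik
    obtain ⟨V, hV, hxV, δ, ⟨hδx, hδI⟩, i, hi⟩ := h2 p n hn hnp Ω x hst Y hf
    obtain ⟨-, a, b, hab, hsw⟩ := hloc V hV hxV ⟨δ, hδx⟩ hδI (hmove δ hδx i hi)
    have hRab : R a b := ⟨⟨δ, hδx⟩, hδI.1, hsw⟩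
    let H : Subgroup (Equiv.Perm (Fin n)) :=
      ((Fx p (Cst p Ω : Set Ω)).subgroupOf (Gx p x)).map ψ
    have hH : H = ⊤ := by
      rw [eq_top_iff, ← Equiv.Perm.closure_isSwap, Subgroup.closure_le]
      rintro σ ⟨c, d, hcd, rfl⟩
      obtain ⟨γ, h4, h5⟩ := Sn_swaps R hRs hR hab hRab c d hcd
      exact ⟨γ, h4, h5⟩
    intro g
    have hg : g ∈ H := by
      rw [hH]
      exact Subgroup.mem_top g
    obtain ⟨γ, h4, h5⟩ := hg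
    exact ⟨γ, h4, h5⟩
  · intro V hV hxV γ hγ hne
    rw [hae]
    exact hloc V hV hxV γ hγ hne
  · intro V hV hxV hval
    rw [hae] at hval
    obtain ⟨δ, ⟨hδx, hδI⟩, i, hi⟩ := h0 p n hn hnp Ω x hst Y hf V hV hxV hval
    exact ⟨⟨δ, hδx⟩, hδI, hmove δ hδx i hi⟩

end Top

end MP7Z
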