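import Pool.Agent.Lib.MP_7f581e_Z.Top.Spec

/-!
# Multiple roots of `X^n + n X - (n-1) x`
-/

set_option autoImplicit false

namespace MP7Z.Top

open Polynomial

theorem SnM_derivative {k : Type} [Field k] (n : ℕ) (x : k) :
    derivative (sf n x) = C (n : k) * (X ^ (n - 1) + 1) := by
  unfold sf
  rw [derivative_sub, derivative_add, derivative_X_pow, derivative_C_mul_X, derivative_C]
  ring

theorem SnM_eval {k : Type} [Field k] (n : ℕ) (x r : k) :
    (sf n x).eval r = r ^ n + (n : k) * r - ((n - 1 : k) * x) := by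
  unfold sf
  simp only [eval_sub, eval_add, eval_pow, eval_X, eval_mul, eval_C]

theorem SnM_sq {k : Type} [Field k] {f : k[X]} {r : k} (h : (X - C r) ^ 2 ∣ f) :
    f.eval r = 0 ∧ (derivative f).eval r = 0 := by
  obtain ⟨g, rfl⟩ := h
  constructor
  · simp
  · simp [derivative_mul, derivative_pow]

theorem SnM_cube {k : Type} [Field k] {f : k[X]} {r : k} (h : (X - C r) ^ 3 ∣ f) :
    (derivative (derivative f)).eval r = 0 := by
  obtain ⟨g, rfl⟩ := h
  simp [derivative_mul, derivative_pow]

theorem tSnM : SnMStmt := by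
  intro p n _ h3 hp k _ _ x r
  have hn : (n : k) ≠ 0 := by
    rw [Ne, CharP.cast_eq_zero_iff k p n]
    exact fun h => absurd (Nat.le_of_dvd (by omega) h) (by omega)
  have hn1 : (n : k) - 1 ≠ 0 := by
    have h1 : ((n - 1 : ℕ) : k) ≠ 0 := by
      rw [Ne, CharP.cast_eq_zero_iff k p (n - 1)]
      exact fun h => absurd (Nat.le_of_dvd (by omega) h) (by omega)
    rwa [Nat.cast_sub (by omega), Nat.cast_one] at h1
  have key : (X - C r) ^ 2 ∣ sf n x → r = x ∧ r ^ (n - 1) = -1 := by
    intro h
    obtain ⟨h0, h1⟩ := SnM_sq h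
    rw [SnM_derivative] at h1
    simp only [eval_mul, eval_C, eval_add, eval_pow, eval_X, eval_one] at h1
    have h2 : r ^ (n - 1) = -1 := by
      rcases mul_eq_zero.1 h1 with h | h
      · exact absurd h hn
      · exact eq_neg_of_add_eq_zero_left h
    have h4 : r ^ n = -r := by
      have : r ^ n = r ^ (n - 1) * r := by
        rw [← pow_succ]
        congr 1
        omega
      rw [this, h2]
      ring
    rw [SnM_eval, h4] at h0
    have h5 : ((n : k) - 1) * (r - x) = 0 := by
      rw [← h0]
      ring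
    rcases mul_eq_zero.1 h5 with h | h
    · exact absurd h hn1
    · exact ⟨sub_eq_zero.1 h, h2⟩
  refine ⟨fun h => ?_, fun h => ?_⟩
  · obtain ⟨h1, h2⟩ := key h
    exact ⟨h1, by rw [← h1]; exact h2⟩
  · obtain ⟨-, h2⟩ := key (dvd_trans (pow_dvd_pow _ (by norm_num)) h)
    have h4 := SnM_cube h
    rw [SnM_derivative] at h4
    have h5 : derivative (C (n : k) * (X ^ (n - 1) + 1) : k[X]) =
        C (n : k) * (C ((n - 1 : ℕ) : k) * X ^ (n - 1 - 1)) := by
      rw [derivative_C_mul, derivative_add, derivative_X_pow, derivative_one, add_zero]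
    rw [h5] at h4
    simp only [eval_mul, eval_C, eval_pow, eval_X] at h4
    have h6 : r ^ (n - 1 - 1) = 0 := by
      rcases mul_eq_zero.1 h4 with h | h
      · exact absurd h hn
      · rcases mul_eq_zero.1 h with h | h
        · rw [Nat.cast_sub (by omega), Nat.cast_one] at h
          exact absurd h hn1
        · exact h
    have h7 : r = 0 := eq_zero_of_pow_eq_zero h6
    rw [h7, zero_pow (by omega)] at h2
    exact absurd h2 (by simp)

end MP7Z.Top
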