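import Pool.Agent.Lib.MP_7f581e_Z.Top.Spec
import Pool.Agent.Lib.MP_7f581e_Z.Alt.Lab

/-!
# Groups at the top, `S_n`: the roots and the local analysis
-/

set_option autoImplicit false

namespace MP7Z

namespace Top

open Polynomial

section alg

theorem SnR_map {R S : Type} [CommRing R] [CommRing S] (f : R →+* S) (n : ℕ) (x : R) :
    (sf n x).map f = sf n (f x) := by
  unfold sf
  simp only [Polynomial.map_sub, Polynomial.map_add, Polynomial.map_mul, Polynomial.map_pow,
    map_X, map_C, map_mul, map_sub, map_natCast, map_one, Polynomial.map_natCast,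
    Polynomial.map_one]

theorem SnR_degree {R : Type} [CommRing R] [Nontrivial R] {n : ℕ} (hn : 3 ≤ n) (x : R) :
    (C (n : R) * X - C ((n - 1 : R) * x) : R[X]).degree < (n : WithBot ℕ) := by
  refine lt_of_le_of_lt (Polynomial.degree_sub_le _ _) (max_lt ?_ ?_)
  · refine lt_of_le_of_lt (degree_C_mul_X_le _) ?_
    exact_mod_cast (by omega : 1 < n)
  · refine lt_of_le_of_lt degree_C_le ?_
    exact_mod_cast (by omega : 0 < n)

theorem SnR_monic {R : Type} [CommRing R] [Nontrivial R] {n : ℕ} (hn : 3 ≤ n) (x : R) :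
    (sf n x).Monic := by
  unfold sf
  rw [add_sub_assoc]
  exact monic_X_pow_add (SnR_degree hn x)

theorem SnR_natDegree {R : Type} [CommRing R] [Nontrivial R] {n : ℕ} (hn : 3 ≤ n) (x : R) :
    (sf n x).natDegree = n := by
  unfold sf
  rw [add_sub_assoc]
  refine natDegree_eq_of_degree_eq_some ?_
  rw [degree_add_eq_left_of_degree_lt (by rw [degree_X_pow]; exact SnR_degree hn x),
    degree_X_pow]

theorem SnR_sep {F : Type} [Field F] {n : ℕ} (hn : 3 ≤ n) (x : F) (h1 : (n : F) ≠ 0)
    (h2 : (n : F) - 1 ≠ 0) (hx : x ≠ 0) (hx1 : x ^ (n - 1) + 1 ≠ 0) : (sf n x).Separable := by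
  set f := sf n x with hf
  have hder : derivative f = C (n : F) * X ^ (n - 1) + C (n : F) := by
    rw [hf, sf]
    simp only [derivative_sub, derivative_add, derivative_X_pow, derivative_C_mul,
      derivative_X, derivative_C, mul_one, sub_zero]
  have hev : f.eval x = x * (x ^ (n - 1) + 1) := by
    rw [hf, sf, eval_sub, eval_add, eval_pow, eval_mul, eval_X, eval_C, eval_C]
    have h3 : x ^ n = x ^ (n - 1) * x := by
      rw [← pow_succ, Nat.sub_add_cancel (by omega)]
    rw [h3]
    ring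
  have hev0 : f.eval x ≠ 0 := by
    rw [hev]
    exact mul_ne_zero hx hx1
  obtain ⟨q, hq⟩ : ∃ q, f = C (f.eval x) + (X - C x) * q := by
    refine ⟨f /ₘ (X - C x), ?_⟩
    have h3 := modByMonic_add_div f (X - C x)
    rw [modByMonic_X_sub_C_eq_C_eval] at h3
    exact h3.symm
  have hc0 : (n : F) * ((n : F) - 1) ≠ 0 := mul_ne_zero h1 h2
  set c : F := (n : F) * ((n : F) - 1) with hc
  -- `c * (x - X) = X * f' - n * f`
  have hlin : C c * (C x - X) = X * derivative f - C (n : F) * f := by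
    rw [hder, hf, sf, hc]
    have h3 : (X : F[X]) ^ n = X ^ (n - 1) * X := by
      rw [← pow_succ, Nat.sub_add_cancel (by omega)]
    rw [h3]
    simp only [C_mul, C_sub, C_1]
    ring
  have h3 : C c⁻¹ * C c = (1 : F[X]) := by
    rw [← C_mul, inv_mul_cancel₀ hc0, C_1]
  have h4 : C (f.eval x)⁻¹ * C (f.eval x) = (1 : F[X]) := by
    rw [← C_mul, inv_mul_cancel₀ hev0, C_1]
  refine ⟨C (f.eval x)⁻¹ * (1 - C c⁻¹ * C (n : F) * q),
    C (f.eval x)⁻¹ * (C c⁻¹ * X * q), ?_⟩
  have h5 : C (f.eval x) = (1 - C c⁻¹ * C (n : F) * q) * f + C c⁻¹ * X * q * derivative f := by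
    linear_combination (-1 : F[X]) * hq + C c⁻¹ * q * hlin - (C x - X) * q * h3
  calc C (f.eval x)⁻¹ * (1 - C c⁻¹ * C (n : F) * q) * f +
        C (f.eval x)⁻¹ * (C c⁻¹ * X * q) * derivative f
      = C (f.eval x)⁻¹ * ((1 - C c⁻¹ * C (n : F) * q) * f +
        C c⁻¹ * X * q * derivative f) := by ring
    _ = 1 := by rw [← h5, h4]

theorem SnR_dvd {k : Type} [Field k] {n : ℕ} (y : Fin n → k) (r : k) (s : Finset (Fin n))
    (hs : ∀ i ∈ s, y i = r) : (X - C r) ^ s.card ∣ ∏ i, (X - C (y i)) := by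
  have h1 : ∏ i ∈ s, (X - C (y i)) = (X - C r) ^ s.card := by
    rw [Finset.prod_congr rfl fun i hi => by rw [hs i hi], Finset.prod_const]
  rw [← h1]
  exact Finset.prod_dvd_prod_of_subset _ _ _ (Finset.subset_univ s)

end alg

theorem tSnR (h₁ : SnMStmt) : SnRStmt := by
  classical
  intro p n _ hn hnp Ω _ _ x hst
  have := hst.sepClosed
  have hp : p.Prime := Fact.out
  have hchar : CharP Ω p := charP_of_injective_algebraMap (algebraMap (ZMod p) Ω).injective p
  have hn0 : ∀ m : ℕ, 0 < m → m < p → (m : Ω) ≠ 0 := by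
    intro m hm hmp h
    rw [CharP.cast_eq_zero_iff Ω p] at h
    exact absurd (Nat.le_of_dvd hm h) (not_le.2 hmp)
  have h1 : (n : Ω) ≠ 0 := hn0 n (by omega) hnp
  have h2 : (n : Ω) - 1 ≠ 0 := by
    have := hn0 (n - 1) (by omega) (by omega)
    rwa [Nat.cast_sub (by omega), Nat.cast_one] at this
  have hx0 : x ≠ 0 := by
    rintro rfl
    exact hst.transc isAlgebraic_zero
  have hx1 : x ^ (n - 1) + 1 ≠ 0 := by
    intro h
    apply hst.transc
    refine ⟨X ^ (n - 1) + 1, ?_, ?_⟩
    · exact (monic_X_pow_add_C (1 : ZMod p) (n := n - 1) (by omega)).ne_zero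
    · rw [map_add, map_pow, aeval_X, map_one, h]
  obtain ⟨Y, hY, hfac⟩ := LabM.exists_roots (sf n x) n (SnR_sep hn x h1 h2 hx0 hx1)
    (SnR_natDegree hn x)
  rw [(SnR_monic hn x).leadingCoeff, C_1, one_mul] at hfac
  have hroot : ∀ y : Ω, (sf n x).eval y = 0 → ∃ i, y = Y i := by
    intro y hy
    rw [hfac, eval_prod] at hy
    obtain ⟨i, -, hi⟩ := Finset.prod_eq_zero_iff.1 hy
    rw [eval_sub, eval_X, eval_C, sub_eq_zero] at hi
    exact ⟨i, hi⟩
  have hYr : ∀ i, (sf n x).eval (Y i) = 0 := by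
    intro i
    rw [hfac, eval_prod]
    refine Finset.prod_eq_zero (Finset.mem_univ i) ?_
    rw [eval_sub, eval_X, eval_C, sub_self]
  have hex : ∀ γ : Gx p x, ∃ ρ : Equiv.Perm (Fin n),
      ∀ i, (γ : Ω ≃ₐ[ZMod p] Ω) (Y i) = Y (ρ i) := by
    intro γ
    have hγ : (γ : Ω ≃ₐ[ZMod p] Ω) x = x := mem_Gx.1 γ.2
    have h3 : ∀ i, ∃ j, (γ : Ω ≃ₐ[ZMod p] Ω) (Y i) = Y j := by
      intro i
      apply hroot
      have h4 : ((sf n x).map ((γ : Ω ≃ₐ[ZMod p] Ω) : Ω →+* Ω)).eval
          (((γ : Ω ≃ₐ[ZMod p] Ω) : Ω →+* Ω) (Y i)) = 0 := by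
        rw [eval_map_apply, hYr, map_zero]
      rw [SnR_map] at h4
      have h5 : ((γ : Ω ≃ₐ[ZMod p] Ω) : Ω →+* Ω) x = x := hγ
      rw [h5] at h4
      exact h4
    choose ρ hρ using h3
    have hinj : Function.Injective ρ := by
      intro i j hij
      apply hY
      apply (γ : Ω ≃ₐ[ZMod p] Ω).injective
      rw [hρ, hρ, hij]
    exact ⟨Equiv.ofBijective ρ (Finite.injective_iff_bijective.1 hinj), hρ⟩
  choose ψ hψ using hex
  have hψu : ∀ (γ : Gx p x) (ρ : Equiv.Perm (Fin n)),
      (∀ i, (γ : Ω ≃ₐ[ZMod p] Ω) (Y i) = Y (ρ i)) → ψ γ = ρ := by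
    intro γ ρ h
    ext i
    rw [hY ((hψ γ i).symm.trans (h i))]
  have hmul : ∀ γ γ', ψ (γ * γ') = ψ γ * ψ γ' := by
    intro γ γ'
    apply hψu
    intro i
    change (γ : Ω ≃ₐ[ZMod p] Ω) ((γ' : Ω ≃ₐ[ZMod p] Ω) (Y i)) = _
    rw [hψ γ' i, hψ γ _]
    rfl
  refine ⟨Y, MonoidHom.mk' ψ hmul, hY, hfac, ?_, hψ, ?_⟩
  · refine ⟨Finset.univ.image Y, fun γ hγ => ?_⟩
    refine hψu γ 1 fun i => ?_
    rw [hγ (Y i) (Finset.mem_image_of_mem _ (Finset.mem_univ i))]
    rfl
  · intro V hV hxV γ hγ hne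
    change ψ γ ≠ 1 at hne
    change V.valuation (x ^ (n - 1) + 1) < 1 ∧ (ψ γ).IsSwap
    obtain ⟨-, -, -, hres⟩ := br_res p Ω x hst V hV
    have hγV : ∀ u ∈ V, V.valuation ((γ : Ω ≃ₐ[ZMod p] Ω) u - u) < 1 := by
      intro u hu
      have h3 := hres 1 (γ : Ω ≃ₐ[ZMod p] Ω) hγ.2 (fun c hc => by
        rw [pow_one]
        exact hγ.1 c hc) u hu
      rwa [pow_one] at h3
    -- the polynomial over `V`
    set xV : V := ⟨x, hxV⟩ with hxVdef
    have hmapV : (sf n xV).map (algebraMap V Ω) = sf n x := SnR_map _ _ _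
    have hYV : ∀ i, ∃ y : V, algebraMap V Ω y = Y i := by
      intro i
      refine IsIntegrallyClosed.isIntegral_iff.1 ⟨sf n xV, SnR_monic hn xV, ?_⟩
      rw [← eval_map, hmapV]
      exact hYr i
    choose yV hyV using hYV
    have hfacV : sf n xV = ∏ i, (X - C (yV i)) := by
      apply Polynomial.map_injective (algebraMap V Ω) (IsFractionRing.injective V Ω)
      rw [hmapV, Polynomial.map_prod, hfac]
      refine Finset.prod_congr rfl fun i _ => ?_
      rw [Polynomial.map_sub, map_X, map_C, hyV]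
    set res := IsLocalRing.residue V with hresdef
    have hfack : sf n (res xV) = ∏ i, (X - C (res (yV i))) := by
      rw [← SnR_map, hfacV, Polynomial.map_prod]
      refine Finset.prod_congr rfl fun i _ => ?_
      rw [Polynomial.map_sub, map_X, map_C]
    have hcharV : CharP V p := (algebraMap V Ω).charP (IsFractionRing.injective V Ω) p
    have hchark : CharP (IsLocalRing.ResidueField V) p := by
      rw [CharP.charP_iff_prime_eq_zero hp, ← map_natCast res, CharP.cast_eq_zero, map_zero]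
    have hresz : ∀ a : V, res a = 0 ↔ V.valuation (a : Ω) < 1 := by
      intro a
      rw [hresdef, IsLocalRing.residue_eq_zero_iff, ValuationSubring.valuation_lt_one_iff]
    have hYres : ∀ i, res (yV (ψ γ i)) = res (yV i) := by
      intro i
      rw [← sub_eq_zero, ← map_sub, hresz]
      have h3 := hγV (Y i) (by
        rw [← hyV i]
        exact (yV i).2)
      rw [hψ γ i, ← hyV i, ← hyV (ψ γ i)] at h3
      exact h3
    have hM := fun r => h₁ p n hn hnp (IsLocalRing.ResidueField V) (res xV) r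
    -- moved indices
    have hmov : ∀ i, ψ γ i ≠ i → res (yV i) = res xV ∧ (res xV) ^ (n - 1) = -1 := by
      intro i hi
      have h3 := SnR_dvd (fun i => res (yV i)) (res (yV i)) {i, ψ γ i} (by
        intro j hj
        rw [Finset.mem_insert, Finset.mem_singleton] at hj
        rcases hj with rfl | rfl
        · rfl
        · exact hYres i)
      rw [Finset.card_pair (Ne.symm hi), ← hfack] at h3
      exact (hM _).1 h3
    obtain ⟨i, hi⟩ : ∃ i, ψ γ i ≠ i := by
      by_contra h3
      push Not at h3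
      exact hne (Equiv.ext h3)
    obtain ⟨hi1, hi2⟩ := hmov i hi
    refine ⟨?_, ?_⟩
    · have h3 : res (xV ^ (n - 1) + 1) = 0 := by
        rw [map_add, map_pow, map_one, hi2, neg_add_cancel]
      exact (hresz _).1 h3
    · rw [← Equiv.Perm.card_support_eq_two]
      have hj : ψ γ (ψ γ i) ≠ ψ γ i := fun h => hi ((ψ γ).injective h)
      have h3 : (ψ γ).support = {i, ψ γ i} := by
        ext m
        rw [Equiv.Perm.mem_support, Finset.mem_insert, Finset.mem_singleton]
        constructor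
        · intro hm
          by_contra h4
          push Not at h4
          have h5 := SnR_dvd (fun i => res (yV i)) (res xV) {m, i, ψ γ i} (by
            intro l hl
            rw [Finset.mem_insert, Finset.mem_insert, Finset.mem_singleton] at hl
            rcases hl with rfl | rfl | rfl
            · exact (hmov _ hm).1
            · exact hi1
            · exact (hmov _ hj).1)
          have h6 : ({m, i, ψ γ i} : Finset (Fin n)).card = 3 := by
            rw [Finset.card_eq_three]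
            exact ⟨m, i, ψ γ i, h4.1, h4.2, Ne.symm hi, rfl⟩
          rw [h6, ← hfack] at h5
          exact (hM _).2 h5
        · rintro (rfl | rfl)
          · exact hi
          · exact hj
      rw [h3, Finset.card_pair (Ne.symm hi)]

end Top

end MP7Z
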