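import Pool.Agent.Lib.MP_7f581e_Z.Top.Spec
import Pool.Agent.Lib.MP_7f581e_Z.Alt.Unr

/-!
# The symmetric groups: a transposition in the geometric group
-/

set_option autoImplicit false

namespace MP7Z

namespace Top

open Polynomial

/-- Taylor expansion to the second order. -/
theorem SnS_taylor {R : Type} [CommRing R] (c u : R) (k : ℕ) :
    ∃ h : R, 2 * (c + u) ^ (k + 2) = 2 * c ^ (k + 2) + 2 * ((k : R) + 2) * c ^ (k + 1) * u +
      ((k : R) + 2) * (k + 1) * c ^ k * u ^ 2 + u ^ 3 * h := by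
  induction k with
  | zero => exact ⟨0, by push_cast; ring⟩
  | succ k ih =>
    obtain ⟨h, hh⟩ := ih
    refine ⟨((k : R) + 2) * (k + 1) * c ^ k + h * (c + u), ?_⟩
    have e1 : 2 * (c + u) ^ (k + 1 + 2) = (2 * (c + u) ^ (k + 2)) * (c + u) := by ring
    rw [e1, hh]
    push_cast
    ring

theorem tSnS : SnSStmt := by
  intro p n _ hn hnp Ω _ _ x hst Y hf
  have hp : p.Prime := Fact.out
  have hcharC : CharP (Cst p Ω) p :=
    charP_of_injective_algebraMap (algebraMap (ZMod p) (Cst p Ω)).injective p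
  have hAC : IsAlgClosed (Cst p Ω) := br_cst p Ω x hst
  obtain ⟨k, rfl⟩ : ∃ k, n = k + 2 := ⟨n - 2, by omega⟩
  have hcast : ∀ r : ℕ, 0 < r → r < p → ((r : ℕ) : Cst p Ω) ≠ 0 := by
    intro r h0 h1
    rw [Ne, CharP.cast_eq_zero_iff (Cst p Ω) p]
    intro h
    have := Nat.le_of_dvd h0 h
    omega
  -- the constant
  obtain ⟨c, hc⟩ := IsAlgClosed.exists_pow_nat_eq (-1 : Cst p Ω) (n := k + 1) (by omega)
  have hc0 : c ≠ 0 := by
    rintro rfl
    rw [zero_pow (by omega)] at hc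
    exact one_ne_zero (neg_eq_zero.1 hc.symm)
  have hcΩ : (c : Ω) ^ (k + 1) = -1 := by
    have := congrArg (fun a : Cst p Ω => (a : Ω)) hc
    exact this
  -- the place
  obtain ⟨V, hV, hVx⟩ : ∃ V : ValuationSubring Ω, V ≠ ⊤ ∧ V.valuation (x - c) < 1 := by
    have hK := BC_isLevel (p := p) x x 1 (pow_one x)
    obtain ⟨hcf, htr, hsep⟩ := (br_lvl p Ω x hst).1 _ hK
    obtain ⟨v, hv⟩ := exists_ord_pos htr c
    obtain ⟨V, hV, hb⟩ := br_abv p Ω x hst _ hK v
    obtain ⟨v₀, _, h2, h3⟩ := br_bel p Ω x hst _ hK V hV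
    rw [h2 v hb] at hv
    exact ⟨V, hV, (h3 _).1 hv⟩
  obtain ⟨hR1, hR2, hR3, hR4⟩ := br_res p Ω x hst V hV
  have hcV : (c : Ω) ∈ V := hR1 c c.2
  have hxcV : x - c ∈ V := (V.valuation_le_one_iff _).1 hVx.le
  have hxV : x ∈ V := by
    have := V.add_mem _ _ hxcV hcV
    rwa [sub_add_cancel] at this
  have hcu : ∀ r : Cst p Ω, r ≠ 0 → V.valuation (r : Ω) = 1 := fun r hr =>
    hR2 r r.2 fun h => hr (Subtype.ext h)
  refine ⟨V, hV, hxV, ?_⟩
  -- the value at `c`
  have hev : ∏ i, ((c : Ω) - Y i) = ((k : Ω) + 1) * ((c : Ω) - x) := by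
    have h1 := congrArg (eval (c : Ω)) hf
    rw [eval_prod, sf, eval_sub, eval_add, eval_pow, eval_mul, eval_C, eval_C, eval_X] at h1
    simp only [eval_sub, eval_X, eval_C] at h1
    rw [← h1, pow_succ, hcΩ]
    push_cast
    ring
  have hk1 : V.valuation ((k : Ω) + 1) = 1 := by
    have h1 := hcu ((k + 1 : ℕ) : Cst p Ω) (hcast _ (by omega) (by omega))
    have h2 : (((k + 1 : ℕ) : Cst p Ω) : Ω) = (k : Ω) + 1 := by push_cast; rfl
    rwa [h2] at h1
  have hk2 : V.valuation ((k : Ω) + 2) = 1 := by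
    have h1 := hcu ((k + 2 : ℕ) : Cst p Ω) (hcast _ (by omega) (by omega))
    have h2 : (((k + 2 : ℕ) : Cst p Ω) : Ω) = (k : Ω) + 2 := by push_cast; rfl
    rwa [h2] at h1
  have h2 : V.valuation (2 : Ω) = 1 := by
    have h1 := hcu ((2 : ℕ) : Cst p Ω) (hcast _ (by omega) (by omega))
    have h2 : (((2 : ℕ) : Cst p Ω) : Ω) = 2 := by push_cast; rfl
    rwa [h2] at h1
  obtain ⟨i, hi⟩ : ∃ i, V.valuation ((c : Ω) - Y i) < 1 := by
    by_contra hcon
    push Not at hcon
    have h1 : 1 ≤ V.valuation (∏ i, ((c : Ω) - Y i)) := by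
      rw [map_prod]
      exact Finset.one_le_prod' fun i _ => hcon i
    rw [hev, map_mul, hk1, one_mul, Valuation.map_sub_swap] at h1
    exact absurd hVx (not_lt.2 h1)
  by_contra hcon
  push Not at hcon
  obtain ⟨u, hu⟩ : ∃ u, u = Y i - c := ⟨_, rfl⟩
  have hu1 : V.valuation u < 1 := by
    rw [hu, Valuation.map_sub_swap]
    exact hi
  have hYi : Y i = c + u := by rw [hu]; ring
  have huV : u ∈ V := (V.valuation_le_one_iff _).1 hu1.le
  have hfix : ∀ δ ∈ Gx p x ⊓ Inert p V, δ u = u := by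
    intro δ hδ
    have h1 : δ (c : Ω) = c := hδ.2.1 c c.2
    rw [hu, map_sub, h1, hcon δ hδ i]
  have hle := tUnr br_cst br_lvl br_bel br_ram p Ω x hst V hV c c.2 hVx u hfix hu1
  -- the equation for `u`
  have hroot : (Y i) ^ (k + 2) + ((k : Ω) + 2) * Y i - (k + 1) * x = 0 := by
    have h1 : (sf (k + 2) x).eval (Y i) = 0 := by
      rw [hf, eval_prod]
      exact Finset.prod_eq_zero (Finset.mem_univ i) (by rw [eval_sub, eval_X, eval_C, sub_self])
    rw [sf, eval_sub, eval_add, eval_pow, eval_mul, eval_C, eval_C, eval_X] at h1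
    push_cast at h1
    rw [← h1]
    ring
  obtain ⟨h, hh⟩ := SnS_taylor (⟨(c : Ω), hcV⟩ : V) ⟨u, huV⟩ k
  have hhΩ : 2 * ((c : Ω) + u) ^ (k + 2) = 2 * (c : Ω) ^ (k + 2) +
      2 * ((k : Ω) + 2) * (c : Ω) ^ (k + 1) * u +
      ((k : Ω) + 2) * (k + 1) * (c : Ω) ^ k * u ^ 2 + u ^ 3 * (h : Ω) := by
    have := congrArg (fun a : V => (a : Ω)) hh
    push_cast at this
    exact this
  have heq : u ^ 2 * (((k : Ω) + 2) * (k + 1) * (c : Ω) ^ k + u * h) =
      2 * (k + 1) * (x - c) := by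
    rw [hYi] at hroot
    have e1 : (c : Ω) ^ (k + 2) = - c := by
      rw [pow_succ, hcΩ]
      ring
    rw [hcΩ, e1] at hhΩ
    linear_combination 2 * hroot - hhΩ
  have hg : V.valuation (((k : Ω) + 2) * (k + 1) * (c : Ω) ^ k + u * h) = 1 := by
    have h5 : V.valuation (((k : Ω) + 2) * (k + 1) * (c : Ω) ^ k) = 1 := by
      rw [map_mul, map_mul, map_pow, hk1, hk2, hcu c hc0, one_pow, one_mul, one_mul]
    have h6 : V.valuation (u * h) < 1 := by
      rw [map_mul]
      exact mul_lt_one_of_nonneg_of_lt_one_left zero_le hu1 (V.valuation_le_one h)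
    have h7 := Valuation.map_add_eq_of_lt_right V.valuation (x := u * (h : Ω))
      (y := ((k : Ω) + 2) * (k + 1) * (c : Ω) ^ k) (by rw [h5]; exact h6)
    rw [add_comm, h7, h5]
  have hval : V.valuation u ^ 2 = V.valuation (x - c) := by
    have h5 := congrArg V.valuation heq
    rw [map_mul, hg, mul_one, map_pow, map_mul, map_mul, h2, hk1, one_mul, one_mul] at h5
    exact h5
  have hx0 : x - c ≠ 0 := by
    intro h5
    apply hst.transc
    rw [sub_eq_zero.1 h5]
    have h6 : (c : Ω) ∈ algebraicClosure (ZMod p) Ω := c.2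
    rwa [mem_algebraicClosure_iff] at h6
  have hpos : 0 < V.valuation (x - c) := by
    rw [zero_lt_iff, Ne, Valuation.zero_iff]
    exact hx0
  have h8 : V.valuation (x - c) ≤ V.valuation (x - c) ^ 2 := by
    calc V.valuation (x - c) = V.valuation u ^ 2 := hval.symm
      _ ≤ V.valuation (x - c) ^ 2 := pow_le_pow_left₀ zero_le hle 2
  have h9 : V.valuation (x - c) ^ 2 < V.valuation (x - c) := by
    rw [sq]
    exact mul_lt_of_lt_one_left hpos hVx
  exact absurd h8 (not_le.2 h9)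

end Top

end MP7Z
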