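import Pool.Agent.Lib.MP_7f581e_Z.Top.Spec2
import Pool.Agent.Lib.MP_7f581e_Z.Alt.Unr

/-!
# The symmetric groups: a transposition at every place with `x^(n-1) ≡ -1`
-/

set_option autoImplicit false

namespace MP7Z

namespace Top

open Polynomial

/-- Taylor expansion to the second order. -/
theorem SnW_taylor {R : Type} [CommRing R] (c u : R) (k : ℕ) :
    ∃ h : R, 2 * (c + u) ^ (k + 2) = 2 * c ^ (k + 2) + 2 * ((k : R) + 2) * c ^ (k + 1) * u +
      ((k : R) + 2) * (k + 1) * c ^ k * u ^ 2 + u ^ 3 * h := by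
  induction k with
  | zero => exact ⟨0, by push_cast; ring⟩
  | succ k ih =>
    obtain ⟨h, hh⟩ := ih
    refine ⟨((k : R) + 2) * (k + 1) * c ^ k + h * (c + u), ?_⟩
    have e1 : 2 * (c + u) ^ (k + 1 + 2) = (2 * (c + u) ^ (k + 2)) * (c + u) := by ring
    rw [e1, hh]
    push_cast
    ring

theorem SnW_factor {Ω F : Type} [Field Ω] [Field F] [Algebra F Ω] (V : ValuationSubring Ω)
    (x : Ω) (s : Multiset F)
    (h : V.valuation (s.map fun a => x - algebraMap F Ω a).prod < 1) :
    ∃ a ∈ s, V.valuation (x - algebraMap F Ω a) < 1 := by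
  induction s using Multiset.induction_on with
  | empty =>
    rw [Multiset.map_zero, Multiset.prod_zero, map_one] at h
    exact absurd h (lt_irrefl _)
  | cons a s ih =>
    by_cases ha : V.valuation (x - algebraMap F Ω a) < 1
    · exact ⟨a, Multiset.mem_cons_self a s, ha⟩
    · rw [Multiset.map_cons, Multiset.prod_cons, map_mul] at h
      have h1 : V.valuation (s.map fun a => x - algebraMap F Ω a).prod < 1 := by
        by_contra h2
        exact absurd h (not_lt.2 (one_le_mul (not_lt.1 ha) (not_lt.1 h2)))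
      obtain ⟨b, hb, hb1⟩ := ih h1
      exact ⟨b, Multiset.mem_cons_of_mem hb, hb1⟩

theorem tSnW : SnWStmt := by
  intro p n _ hn hnp Ω _ _ x hst Y hf V hV hxV hVn
  have hp : p.Prime := Fact.out
  have hcharC : CharP (Cst p Ω) p :=
    charP_of_injective_algebraMap (algebraMap (ZMod p) (Cst p Ω)).injective p
  have hAC : IsAlgClosed (Cst p Ω) := br_cst p Ω x hst
  obtain ⟨k, rfl⟩ : ∃ k, n = k + 2 := ⟨n - 2, by omega⟩
  have hcast : ∀ r : ℕ, 0 < r → r < p → ((r : ℕ) : Cst p Ω) ≠ 0 := by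
    intro r h0 h1
    rw [Ne, CharP.cast_eq_zero_iff (Cst p Ω) p]
    intro h
    have := Nat.le_of_dvd h0 h
    omega
  -- the constant
  obtain ⟨c, hc, hVx⟩ : ∃ c : Cst p Ω, c ^ (k + 1) = -1 ∧ V.valuation (x - (c : Ω)) < 1 := by
    let P : (Cst p Ω)[X] := X ^ (k + 1) + C 1
    have hPm : P.Monic := monic_X_pow_add_C 1 (by omega)
    have hP := (IsAlgClosed.splits P).eq_prod_roots_of_monic hPm
    have h1 : x ^ (k + 2 - 1) + 1 = (P.roots.map fun a => x - algebraMap (Cst p Ω) Ω a).prod := by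
      have h2 := congrArg (aeval x) hP
      rw [map_multiset_prod, Multiset.map_map] at h2
      simp only [P, map_add, map_pow, aeval_X, aeval_C, map_one, Function.comp_def, map_sub] at h2
      exact h2
    rw [h1] at hVn
    obtain ⟨c, hc, hc1⟩ := SnW_factor V x P.roots hVn
    refine ⟨c, ?_, hc1⟩
    have h2 : P.eval c = 0 := (mem_roots'.1 hc).2
    rw [eval_add, eval_pow, eval_X, eval_C] at h2
    exact eq_neg_of_add_eq_zero_left h2
  have hc0 : c ≠ 0 := by
    rintro rfl
    rw [zero_pow (by omega)] at hc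
    exact one_ne_zero (neg_eq_zero.1 hc.symm)
  have hcΩ : (c : Ω) ^ (k + 1) = -1 := by
    have := congrArg (fun a : Cst p Ω => (a : Ω)) hc
    exact this
  obtain ⟨hR1, hR2, hR3, hR4⟩ := br_res p Ω x hst V hV
  have hcV : (c : Ω) ∈ V := hR1 c c.2
  have hcu : ∀ r : Cst p Ω, r ≠ 0 → V.valuation (r : Ω) = 1 := fun r hr =>
    hR2 r r.2 fun h => hr (Subtype.ext h)
  -- the value at `c`
  have hev : ∏ i, ((c : Ω) - Y i) = ((k : Ω) + 1) * ((c : Ω) - x) := by
    have h1 := congrArg (eval (c : Ω)) hf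
    rw [eval_prod, sf, eval_sub, eval_add, eval_pow, eval_mul, eval_C, eval_C, eval_X] at h1
    simp only [eval_sub, eval_X, eval_C] at h1
    rw [← h1, pow_succ, hcΩ]
    push_cast
    ring
  have hk1 : V.valuation ((k : Ω) + 1) = 1 := by
    have h1 := hcu ((k + 1 : ℕ) : Cst p Ω) (hcast _ (by omega) (by omega))
    have h2 : (((k + 1 : ℕ) : Cst p Ω) : Ω) = (k : Ω) + 1 := by push_cast; rfl
    rwa [h2] at h1
  have hk2 : V.valuation ((k : Ω) + 2) = 1 := by
    have h1 := hcu ((k + 2 : ℕ) : Cst p Ω) (hcast _ (by omega) (by omega))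
    have h2 : (((k + 2 : ℕ) : Cst p Ω) : Ω) = (k : Ω) + 2 := by push_cast; rfl
    rwa [h2] at h1
  have h2 : V.valuation (2 : Ω) = 1 := by
    have h1 := hcu ((2 : ℕ) : Cst p Ω) (hcast _ (by omega) (by omega))
    have h2 : (((2 : ℕ) : Cst p Ω) : Ω) = 2 := by push_cast; rfl
    rwa [h2] at h1
  obtain ⟨i, hi⟩ : ∃ i, V.valuation ((c : Ω) - Y i) < 1 := by
    by_contra hcon
    push Not at hcon
    have h1 : 1 ≤ V.valuation (∏ i, ((c : Ω) - Y i)) := by
      rw [map_prod]
      exact Finset.one_le_prod' fun i _ => hcon i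
    rw [hev, map_mul, hk1, one_mul, Valuation.map_sub_swap] at h1
    exact absurd hVx (not_lt.2 h1)
  by_contra hcon
  push Not at hcon
  obtain ⟨u, hu⟩ : ∃ u, u = Y i - c := ⟨_, rfl⟩
  have hu1 : V.valuation u < 1 := by
    rw [hu, Valuation.map_sub_swap]
    exact hi
  have hYi : Y i = c + u := by rw [hu]; ring
  have huV : u ∈ V := (V.valuation_le_one_iff _).1 hu1.le
  have hfix : ∀ δ ∈ Gx p x ⊓ Inert p V, δ u = u := by
    intro δ hδ
    have h1 : δ (c : Ω) = c := hδ.2.1 c c.2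
    rw [hu, map_sub, h1, hcon δ hδ i]
  have hle := tUnr br_cst br_lvl br_bel br_ram p Ω x hst V hV c c.2 hVx u hfix hu1
  -- the equation for `u`
  have hroot : (Y i) ^ (k + 2) + ((k : Ω) + 2) * Y i - (k + 1) * x = 0 := by
    have h1 : (sf (k + 2) x).eval (Y i) = 0 := by
      rw [hf, eval_prod]
      exact Finset.prod_eq_zero (Finset.mem_univ i) (by rw [eval_sub, eval_X, eval_C, sub_self])
    rw [sf, eval_sub, eval_add, eval_pow, eval_mul, eval_C, eval_C, eval_X] at h1
    push_cast at h1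
    rw [← h1]
    ring
  obtain ⟨h, hh⟩ := SnW_taylor (⟨(c : Ω), hcV⟩ : V) ⟨u, huV⟩ k
  have hhΩ : 2 * ((c : Ω) + u) ^ (k + 2) = 2 * (c : Ω) ^ (k + 2) +
      2 * ((k : Ω) + 2) * (c : Ω) ^ (k + 1) * u +
      ((k : Ω) + 2) * (k + 1) * (c : Ω) ^ k * u ^ 2 + u ^ 3 * (h : Ω) := by
    have := congrArg (fun a : V => (a : Ω)) hh
    push_cast at this
    exact this
  have heq : u ^ 2 * (((k : Ω) + 2) * (k + 1) * (c : Ω) ^ k + u * h) =
      2 * (k + 1) * (x - c) := by
    rw [hYi] at hroot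
    have e1 : (c : Ω) ^ (k + 2) = - c := by
      rw [pow_succ, hcΩ]
      ring
    rw [hcΩ, e1] at hhΩ
    linear_combination 2 * hroot - hhΩ
  have hg : V.valuation (((k : Ω) + 2) * (k + 1) * (c : Ω) ^ k + u * h) = 1 := by
    have h5 : V.valuation (((k : Ω) + 2) * (k + 1) * (c : Ω) ^ k) = 1 := by
      rw [map_mul, map_mul, map_pow, hk1, hk2, hcu c hc0, one_pow, one_mul, one_mul]
    have h6 : V.valuation (u * h) < 1 := by
      rw [map_mul]
      exact mul_lt_one_of_nonneg_of_lt_one_left zero_le hu1 (V.valuation_le_one h)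
    have h7 := Valuation.map_add_eq_of_lt_right V.valuation (x := u * (h : Ω))
      (y := ((k : Ω) + 2) * (k + 1) * (c : Ω) ^ k) (by rw [h5]; exact h6)
    rw [add_comm, h7, h5]
  have hval : V.valuation u ^ 2 = V.valuation (x - c) := by
    have h5 := congrArg V.valuation heq
    rw [map_mul, hg, mul_one, map_pow, map_mul, map_mul, h2, hk1, one_mul, one_mul] at h5
    exact h5
  have hx0 : x - c ≠ 0 := by
    intro h5
    apply hst.transc
    rw [sub_eq_zero.1 h5]
    have h6 : (c : Ω) ∈ algebraicClosure (ZMod p) Ω := c.2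
    rwa [mem_algebraicClosure_iff] at h6
  have hpos : 0 < V.valuation (x - c) := by
    rw [zero_lt_iff, Ne, Valuation.zero_iff]
    exact hx0
  have h8 : V.valuation (x - c) ≤ V.valuation (x - c) ^ 2 := by
    calc V.valuation (x - c) = V.valuation u ^ 2 := hval.symm
      _ ≤ V.valuation (x - c) ^ 2 := pow_le_pow_left₀ zero_le hle 2
  have h9 : V.valuation (x - c) ^ 2 < V.valuation (x - c) := by
    rw [sq]
    exact mul_lt_of_lt_one_left hpos hVx
  exact absurd h8 (not_le.2 h9)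

end Top

end MP7Z
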