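import Pool.Agent.Lib.MP_7f581e_Z.Final
import Pool.Agent.Lib.MP_7f581e_Z.Top.Asm
import Pool.Agent.Lib.MP_7f581e_Z.Top.Nra
import Pool.Agent.Lib.MP_7f581e_Z.Top.One
import Pool.Agent.Lib.MP_7f581e_Z.Top.Per
import Pool.Agent.Lib.MP_7f581e_Z.Top.Prd
import Pool.Agent.Lib.MP_7f581e_Z.Top.S6E
import Pool.Agent.Lib.MP_7f581e_Z.Top.S6F
import Pool.Agent.Lib.MP_7f581e_Z.Top.S6M
import Pool.Agent.Lib.MP_7f581e_Z.Top.S6R
import Pool.Agent.Lib.MP_7f581e_Z.Top.S6S
import Pool.Agent.Lib.MP_7f581e_Z.Top.S6T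
import Pool.Agent.Lib.MP_7f581e_Z.Top.SnE
import Pool.Agent.Lib.MP_7f581e_Z.Top.SnF
import Pool.Agent.Lib.MP_7f581e_Z.Top.SnM
import Pool.Agent.Lib.MP_7f581e_Z.Top.SnR
import Pool.Agent.Lib.MP_7f581e_Z.Top.SnS
import Pool.Agent.Lib.MP_7f581e_Z.Top.SnT
import Pool.Agent.Lib.MP_7f581e_Z.Top.SnW

/-!
# Final form of the theorem, with a top group
-/

set_option autoImplicit false

universe u

namespace MP7Z

open MP7fR MP7fC MP7fE

theorem IsTop.congr {p : ℕ} [Fact p.Prime] {G H : Type} [Group G] [Group H] (e : G ≃* H)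
    (h : IsTop p G) : IsTop p H := by
  obtain ⟨T, _, hT, r, n, ⟨e'⟩⟩ := h
  exact ⟨T, _, hT, r, n, ⟨e.symm.trans e'⟩⟩

namespace Top

theorem t_snR : SnRStmt := tSnR tSnM
theorem t_snT : SnTStmt := tSnT tSnE
theorem t_snF : SnFStmt := tSnF t_snR tSnW tSnS t_snT
theorem t_s6F : S6FStmt := tS6F (tS6R tS6M) (tS6S tS6M) (tS6T tS6E)
theorem t_prd : PrdStmt := tPrd tOne (tNra tOne)

/-- `M / N`, as a subgroup of `G / N` and as a quotient of `M`. -/
noncomputable def quotEquiv {G : Type} [Group G] (N M : Subgroup G) [N.Normal] :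
    M ⧸ N.subgroupOf M ≃* M.map (QuotientGroup.mk' N) := by
  let f : M →* M.map (QuotientGroup.mk' N) :=
    (QuotientGroup.mk' N).subgroupMap M
  have hf : Function.Surjective f := (QuotientGroup.mk' N).subgroupMap_surjective M
  have hk : f.ker = N.subgroupOf M := by
    ext a
    rw [MonoidHom.mem_ker, Subgroup.mem_subgroupOf]
    constructor
    · intro h
      have h1 := congrArg Subtype.val h
      exact (QuotientGroup.eq_one_iff (a : G)).1 h1
    · intro h
      apply Subtype.ext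
      exact (QuotientGroup.eq_one_iff (a : G)).2 h
  exact (QuotientGroup.quotientMulEquivOfEq hk.symm).trans
    (QuotientGroup.quotientKerEquivOfSurjective f hf)

/-- Extensions of top groups by kernels with factors in the list have good realizations. -/
theorem hasGood_main (p : ℕ) [Fact p.Prime] {G : Type} [Group G] [Finite G] (M : Subgroup G)
    [M.Normal] (hM : HasFactors (IsSimpleFactor p) M) (hT : IsTop p (G ⧸ M)) : HasGood p G :=
  hasGood_ext (𝒮 := fun S [Group S] => IsCAll p S) (fun S _ h => IsCAll.isSimpleGroup h)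
    (fun S T _ _ e h => IsCAll.congr e h) (lieStep_all p)
    (fun n h5 hp hn => IsAlternating.isCAll ⟨n, h5, hp, hn, ⟨MulEquiv.refl _⟩⟩)
    t_prd tPer t_snF t_s6F M hM hT

end Top

/-- **Final form**, with a top group. -/
theorem final_top (p : ℕ) [Fact p.Prime] (G : Type) [Group G] [Finite G] (N M : Subgroup G)
    [N.Normal] [M.Normal] (hNM : N ≤ M) (hN : HasFactors (IsFactor p (ZMod p)) N)
    (hM : HasFactors (IsSimpleFactor p) (M ⧸ N.subgroupOf M)) (hT : IsTop p (G ⧸ M)) :
    Occurs G (RatFunc (ZMod p)) ∧ (∀ (K : Type u) [Field K] [CharP K p], OccursRegularly G K) ∧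
      ∀ (K : Type u) [Field K] [CharP K p], IsHilbertian K → Occurs G K := by
  have hsim : ∀ (S : Type) [Group S], IsSimpleFactor p S → IsSimpleGroup S := by
    intro S _ h
    rcases h with h | h
    · have : Fact (Nat.card S).Prime := ⟨h⟩
      exact isSimpleGroup_of_prime_card rfl
    · exact IsCAll.isSimpleGroup h
  have hiso : ∀ (S T : Type) [Group S] [Group T], (S ≃* T) → IsSimpleFactor p S →
      IsSimpleFactor p T := by
    intro S T _ _ e h
    rcases h with h | h
    · left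
      rw [← Nat.card_congr e.toEquiv]
      exact h
    · exact Or.inr (IsCAll.congr e h)
  have hMn : (M.map (QuotientGroup.mk' N)).Normal :=
    Subgroup.Normal.map inferInstance _ (QuotientGroup.mk'_surjective N)
  have hM' : HasFactors (IsSimpleFactor p) (M.map (QuotientGroup.mk' N)) :=
    hM.congr hiso hsim (Top.quotEquiv N M)
  have hT' : IsTop p ((G ⧸ N) ⧸ M.map (QuotientGroup.mk' N)) :=
    hT.congr (QuotientGroup.quotientQuotientEquivQuotient N M hNM).symm
  obtain ⟨Ω, _, _, x, ψ, hψ⟩ := Top.hasGood_main p (M.map (QuotientGroup.mk' N)) hM' hT'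
  have h0 : OccursRegularly (G ⧸ N) (ZMod p) := reg Ω x (G ⧸ N) ψ hψ
  have hN' : HasFactors (IsFactor p (ZMod p)) (QuotientGroup.mk' N).ker := by
    rw [QuotientGroup.ker_mk']
    exact hN
  have h1 : Reach (ZMod p) (IsFactor p (ZMod p)) (IsQuasiClassical p) G :=
    Reach.ext (QuotientGroup.mk' N) (QuotientGroup.mk'_surjective N) hN' (Reach.base h0)
  have h2 := good_factor.reach_regular (p := p) goodSplit_quasiClassical h1
  have h3 := good_factor.reach_regular.{u} (p := p) goodSplit_quasiClassical h1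
  refine ⟨(h2.1 (ZMod p)).occurs, fun K _ _ => ?_, fun K _ _ hK => ?_⟩
  · let _ : Algebra (ZMod p) K := ZMod.algebra K p
    exact h3.1 K
  · let _ : Algebra (ZMod p) K := ZMod.algebra K p
    exact h3.2 K hK

end MP7Z
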