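import Pool.Agent.Lib.MP_7f581e_ntR.Defs

/-!
# Groups at the top: definitions

A regular Galois extension of `𝔽_p(X)` with a condition on the places which are ramified.
-/

set_option autoImplicit false

namespace MP7Z

/-- The automorphism `γ` of `L` over `K` is in the inertia group of the place `V`: it acts
trivially on `V` modulo its maximal ideal. -/
def InertiaAt {K L : Type} [Field K] [Field L] [Algebra K L] (V : ValuationSubring L)
    (γ : L ≃ₐ[K] L) : Prop :=
  ∀ f ∈ V, V.valuation (γ f - f) < 1

/-- The finite group `G` is the Galois group of a Galois extension `L` of `𝔽_p(X)`, in which `𝔽_p`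
is algebraically closed, with the following property: whenever a prime `ℓ ≠ p` divides the order of
an element of the inertia group of a place `V` of `L`, then `X` has a pole at `V`, or `X` has a zero at
`V` and `G` is perfect, or `X` is at `V` a root of unity of order divisible by `ℓ`. -/
def IsTopGroup (p : ℕ) [Fact p.Prime] (G : Type) [Group G] : Prop :=
  ∃ (L : Type) (_ : Field L) (_ : Algebra (RatFunc (ZMod p)) L),
    FiniteDimensional (RatFunc (ZMod p)) L ∧ IsGalois (RatFunc (ZMod p)) L ∧
      Nonempty ((L ≃ₐ[RatFunc (ZMod p)] L) ≃* G) ∧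
      (∀ y : L, (∃ f : Polynomial (ZMod p), f ≠ 0 ∧
          Polynomial.eval₂ ((algebraMap (RatFunc (ZMod p)) L).comp
            (algebraMap (ZMod p) (RatFunc (ZMod p)))) y f = 0) →
        ∃ c : ZMod p,
          algebraMap (RatFunc (ZMod p)) L (algebraMap (ZMod p) (RatFunc (ZMod p)) c) = y) ∧
      ∀ V : ValuationSubring L, V ≠ ⊤ → ∀ γ : L ≃ₐ[RatFunc (ZMod p)] L, InertiaAt V γ →
        ∀ ℓ : ℕ, ℓ.Prime → ℓ ≠ p → ℓ ∣ orderOf γ →
          1 < V.valuation (algebraMap (RatFunc (ZMod p)) L RatFunc.X) ∨
          (V.valuation (algebraMap (RatFunc (ZMod p)) L RatFunc.X) < 1 ∧ commutator G = ⊤) ∨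
          (V.valuation (algebraMap (RatFunc (ZMod p)) L RatFunc.X) = 1 ∧
            ∀ m : ℕ, 0 < m →
              V.valuation (algebraMap (RatFunc (ZMod p)) L RatFunc.X ^ m - 1) < 1 → ℓ ∣ m)

end MP7Z
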