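import Pool.Agent.Lib.MP_7f581e_Z.Top.Spec2

/-!
# The symmetric group of degree six: two-fold transitivity
-/

set_option autoImplicit false

namespace MP7Z

namespace Top

open Polynomial

/-- The inverses of the other roots are roots of the Eisenstein polynomial. -/
theorem S6T_alg {M : Type} [Field M] (a x z y : M)
    (hz : z ^ 6 + a * z ^ 4 + a * z ^ 3 + z ^ 2 - x * z + 1 = 0)
    (hy : y ^ 6 + a * y ^ 4 + a * y ^ 3 + y ^ 2 - x * y + 1 = 0) (hy0 : y ≠ 0) (hne : z ≠ y) :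
    (y⁻¹) ^ 5 - z * (1 + z * y⁻¹ + (z ^ 2 + a) * (y⁻¹) ^ 2 +
      (z ^ 3 + a * z + a) * (y⁻¹) ^ 3 + (z ^ 4 + a * z ^ 2 + a * z + 1) * (y⁻¹) ^ 4) = 0 := by
  have h1 : (y - z) * (z * y * (y ^ 4 + y ^ 3 * z + y ^ 2 * z ^ 2 + y * z ^ 3 + z ^ 4 +
      a * (y ^ 2 + y * z + z ^ 2) + a * (y + z) + 1) - 1) = 0 := by
    linear_combination z * hy - y * hz
  have h2 := (mul_eq_zero.1 h1).resolve_left (sub_ne_zero.2 hne.symm)
  have h3 : (y⁻¹) ^ 5 - z * (1 + z * y⁻¹ + (z ^ 2 + a) * (y⁻¹) ^ 2 +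
      (z ^ 3 + a * z + a) * (y⁻¹) ^ 3 + (z ^ 4 + a * z ^ 2 + a * z + 1) * (y⁻¹) ^ 4) =
      - (z * y * (y ^ 4 + y ^ 3 * z + y ^ 2 * z ^ 2 + y * z ^ 3 + z ^ 4 +
      a * (y ^ 2 + y * z + z ^ 2) + a * (y + z) + 1) - 1) / y ^ 5 := by
    field_simp
    ring
  rw [h3, h2, neg_zero, zero_div]

theorem tS6T (hE : S6EStmt) : S6TStmt := by
  intro p _ Ω _ _ x hst Y hY hf i j k hik hjk
  obtain ⟨a, ha⟩ : ∃ a, a = a6 p := ⟨_, rfl⟩
  -- the roots
  have hroot : ∀ l, Y l ^ 6 + (a : Ω) * Y l ^ 4 + (a : Ω) * Y l ^ 3 + Y l ^ 2 - x * Y l + 1 = 0 := by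
    intro l
    have h1 : (s6 p x).eval (Y l) = 0 := by
      rw [hf, eval_prod]
      exact Finset.prod_eq_zero (Finset.mem_univ l) (by rw [eval_sub, eval_X, eval_C, sub_self])
    simp only [s6, eval_sub, eval_add, eval_pow, eval_mul, eval_C, eval_X, eval_one] at h1
    rw [ha]
    exact h1
  have hY0 : ∀ l, Y l ≠ 0 := by
    intro l h
    have h1 := hroot l
    rw [h] at h1
    norm_num at h1
  have hinj : ∀ l, l ≠ k → Y k ≠ Y l := fun l hl h => hl (hY h).symm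
  set z : Ω := Y k with hzd
  have hxz : x = (z ^ 6 + (a : Ω) * z ^ 4 + (a : Ω) * z ^ 3 + z ^ 2 + 1) / z := by
    rw [eq_div_iff (hY0 k)]
    linear_combination - hroot k
  -- `z` is transcendental
  have hzt : Transcendental (Cst p Ω) z := by
    intro hal
    apply hst.transc
    have h2 : IsAlgebraic (Cst p Ω) x := by
      rw [hxz]
      have h3 : IsAlgebraic (Cst p Ω) (a : Ω) := by
        rw [← map_natCast (algebraMap (Cst p Ω) Ω)]
        exact isAlgebraic_algebraMap _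
      rw [div_eq_mul_inv]
      exact (((((hal.pow 6).add (h3.mul (hal.pow 4))).add (h3.mul (hal.pow 3))).add
        (hal.pow 2)).add isAlgebraic_one).mul hal.inv
    have : Algebra.IsAlgebraic (ZMod p) (Cst p Ω) := algebraicClosure.isAlgebraic (ZMod p) Ω
    exact h2.restrictScalars (ZMod p)
  -- the field
  set K : IntermediateField (Cst p Ω) Ω := IntermediateField.adjoin (Cst p Ω) {z} with hK
  have hzK : z ∈ K := IntermediateField.mem_adjoin_simple_self _ _
  have hnat : (a : Ω) ∈ K := by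
    rw [← map_natCast (algebraMap (Cst p Ω) Ω)]
    exact K.algebraMap_mem _
  have hxK : x ∈ K := by
    rw [hxz]
    exact K.div_mem (add_mem (add_mem (add_mem (add_mem (pow_mem hzK 6)
      (mul_mem hnat (pow_mem hzK 4))) (mul_mem hnat (pow_mem hzK 3))) (pow_mem hzK 2))
      K.one_mem) hzK
  have hgal : IsGalois K Ω := LevAux.isGalois_top hst hxK
  have hirr := hE (Cst p Ω) Ω z a hzt
  have haev : ∀ l, l ≠ k → aeval (Y l)⁻¹ (X ^ 5 - C (IntermediateField.AdjoinSimple.gen (Cst p Ω) z) *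
      (1 + C (IntermediateField.AdjoinSimple.gen (Cst p Ω) z) * X +
        C (IntermediateField.AdjoinSimple.gen (Cst p Ω) z ^ 2 + (a : K)) * X ^ 2 +
        C (IntermediateField.AdjoinSimple.gen (Cst p Ω) z ^ 3 +
          (a : K) * IntermediateField.AdjoinSimple.gen (Cst p Ω) z + (a : K)) * X ^ 3 +
        C (IntermediateField.AdjoinSimple.gen (Cst p Ω) z ^ 4 +
          (a : K) * IntermediateField.AdjoinSimple.gen (Cst p Ω) z ^ 2 +
          (a : K) * IntermediateField.AdjoinSimple.gen (Cst p Ω) z + 1) * X ^ 4) : K[X]) = 0 := by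
    intro l hl
    have h1 := S6T_alg (a : Ω) x z (Y l) (hroot k) (hroot l) (hY0 l) (hinj l hl)
    have h2 : algebraMap K Ω (IntermediateField.AdjoinSimple.gen (Cst p Ω) z) = z := rfl
    simp only [map_sub, map_add, map_mul, map_pow, map_one, map_natCast, aeval_X, aeval_C, h2]
    exact h1
  have hconj : IsConjRoot K (Y j)⁻¹ (Y i)⁻¹ := by
    rw [isConjRoot_def, ← minpoly.eq_of_irreducible hirr (haev i hik),
      ← minpoly.eq_of_irreducible hirr (haev j hjk)]
  obtain ⟨σ, hσ⟩ := hconj.exists_algEquiv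
  refine ⟨LevAux.ofK σ, ?_, ?_, ?_⟩
  · intro c hc
    rcases hc with rfl | hc
    · exact LevAux.ofK_mem σ _ hxK
    · exact LevAux.ofK_mem σ c (K.algebraMap_mem ⟨c, hc⟩)
  · exact LevAux.ofK_mem σ _ hzK
  · rw [LevAux.ofK_apply, ← inv_inv (Y i), map_inv₀, hσ, inv_inv]

end Top

end MP7Z
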