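import Pool.Agent.Lib.MP_7f581e_Z.Top.Defs
import Pool.Agent.Lib.MP_7f581e_Z.BR.Main
import Pool.Agent.Lib.MP_7f581e_Z.Fin.Main

/-!
# Groups at the top: statements with complete proofs in the docstrings

THEOREM.  If `T` is a top group (`IsTopGroup`) or `T = S_n`, `3 ≤ n < p`, then every finite group `E`
with a normal subgroup `M`, `E / M ≅ T`, all composition factors of `M` in the list, has a good
realization (`GoodR`).

Each `def XStmt : Prop` is one Lean task: file `Top/X.lean`, import only this file (and files named in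
the docstring), `theorem tX : XStmt` in the namespace `MP7Z.Top`; statements listed under *Uses* are
hypotheses of `tX`, in the given order (`tX (h₁ : Y₁Stmt) (h₂ : Y₂Stmt) : XStmt`).  The statements of
package BR (`BR/Spec.lean`) are available as theorems `br_cst`, `br_lvl`, `br_bel`, `br_abv`, `br_res`,
`br_conj`, `br_kumU`, `br_bc`, `br_frb`, `br_gal`, `br_ram` (`BR/Main.lean`); read their docstrings.
Useful lemmas: `BR/LevAux.lean` (`isGalois_top`, `exists_lift`, `exists_restrict`, …), `BR/ResT.lean`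
(`val_const`, `val_lt_iff`, `dec_val`), `BR/BC.lean` (`BC_fix`, `BC_isLevel`, `BC_bad`, `BC_stage`),
`BR/Gal.lean` (`Gal_galois`, …), `Fin/Reg.lean` (`emb`, `emb_X`, `emb_C`, `mem_range_emb`,
`isGalois_emb`), `Fin/Base.lean` (`exists_min`, `elem_of_pi`, `card_quot_lt`, `final`, `Om`, `xx`,
`isStage_xx`, `good_triv`).

Notation: `𝔽 = Cst p Ω`, `|f| = V.valuation f`, `Γ_t = Fx p (insert t 𝔽)` (the automorphisms of `Ω` which
fix `t` and the constants).
-/

set_option autoImplicit false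

namespace MP7Z

namespace Top

open Polynomial

/-! ## Extensions with kernel in the list -/

/-- **Ext.** From `G` to its extensions by kernels with factors in the list.

*Proof.*  As `final` in `Fin/Base.lean`, by strong induction on `card E`, for a fixed good realization of
`G`.  If `f.ker = ⊥` then `f` is an isomorphism `e : E ≃* G`, take `e.symm ∘ ψ` (`GoodR.map`, see
`Fin/Solv.lean`).  Otherwise `exists_min f.ker` gives a minimal normal subgroup `M ≤ f.ker` of `E`,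
`M ≃* (Fin k → S)`, `S` simple; the induced `g : E ⧸ M → G` is onto and its kernel is the image of `f.ker`
(a surjective image of `f.ker`, so it has factors in the list, `HasFactors.of_surjective`); induction
for `E ⧸ M`.  `S` is in the list: `HasFactors.of_injective` for `M ≤ f.ker` and `S ≤ M`,
`mem_of_isSimpleGroup`; then the step `hP`, `hL` or `hS` for `E → E ⧸ M`, exactly as in `final`
(`elem_of_pi`). -/
def ExtStmt : Prop :=
  ∀ (p : ℕ) [Fact p.Prime], LStep p → PStep p → ∀ (𝒮 : (S : Type) → [Group S] → Prop),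
    (∀ (S : Type) [Group S], 𝒮 S → IsSimpleGroup S) →
    (∀ (S T : Type) [Group S] [Group T], (S ≃* T) → 𝒮 S → 𝒮 T) → LieStep p 𝒮 →
    ∀ (Ω : Type) [Field Ω] [Algebra (ZMod p) Ω] (x : Ω) (G : Type) [Group G] [Finite G]
      (ψ : Gx p x →* G), GoodR p x ψ →
    ∀ (E : Type) [Group E] [Finite E] (f : E →* G), Function.Surjective f →
      MP7fC.HasFactors (fun S [Group S] => (Nat.card S).Prime ∨ 𝒮 S) f.ker →
      ∃ (x' : Ω) (ψ' : Gx p x' →* E), GoodR p x' ψ'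

/-! ## Top groups -/

/-- **Emb.** A finite Galois extension `L` of `𝔽_p(X)` is embedded in `Ω`, `X ↦ t`.

*Proof.*  `Ω` is a `RatFunc (ZMod p)`-algebra by `emb hst.transc` (`emb_X`: `X ↦ t`) and Galois over it
(`isGalois_emb`), separably closed.  `L` is separable over `RatFunc (ZMod p)`, so there is a
`RatFunc (ZMod p)`-algebra homomorphism `ι : L → Ω` (`IsSepClosed.lift`).  `γ ∈ Gx p t` fixes the image
of `emb` (it fixes `t` and the prime field; see the ring homomorphism argument in `Fin/Reg.lean`), so it is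
an automorphism of `Ω` over `RatFunc (ZMod p)`; `L / RatFunc (ZMod p)` is normal, so it is stable:
`ψ γ = ` the restriction (`AlgEquiv.restrictNormalHom L` with the algebra structure of `Ω` over `L` given
by `ι`, `IsScalarTower`), `ι (ψ γ y) = γ (ι y)` (`AlgEquiv.restrictNormal_commutes`).  Finite level: the
images of a finite generating set (a basis) of `L`.  Surjective: `AlgEquiv.restrictNormalHom_surjective`
(`Ω` is normal over `RatFunc (ZMod p)`); an automorphism of `Ω` over `RatFunc (ZMod p)` gives an element of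
`Gx p t`. -/
def EmbStmt : Prop :=
  ∀ (p : ℕ) [Fact p.Prime] (Ω : Type) [Field Ω] [Algebra (ZMod p) Ω] (t : Ω)
    (hst : IsStage p t) (L : Type) [Field L] [Algebra (RatFunc (ZMod p)) L]
    [FiniteDimensional (RatFunc (ZMod p)) L] [IsGalois (RatFunc (ZMod p)) L],
    ∃ (ι : L →+* Ω) (ψ : Gx p t →* (L ≃ₐ[RatFunc (ZMod p)] L)),
      (∀ r, ι (algebraMap (RatFunc (ZMod p)) L r) = emb hst.transc r) ∧
      ι (algebraMap (RatFunc (ZMod p)) L RatFunc.X) = t ∧ FinLevel ψ ∧ Function.Surjective ψ ∧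
      ∀ (γ : Gx p t) (y : L), ι (ψ γ y) = (γ : Ω ≃ₐ[ZMod p] Ω) (ι y)

/-- **Rgl.** If `𝔽_p` is algebraically closed in `L` then the geometric Galois group is everything.

*Proof.*  Let `H ≤ Gal(L)` be the set of the `ψ γ`, `γ ∈ Gx p t ⊓ Fx p 𝔽`: a normal subgroup (`Fx p 𝔽 ⊓ Gx` is
normal in `Gx`, as `𝔽` is stable under all automorphisms; `ψ` is onto).  Let `Λ ⊆ Ω` be the set of the
`ι y`, `y ∈ L` fixed by `H`.  An element `a ∈ Λ` is fixed by `Γ_t = Gx p t ⊓ Fx p 𝔽`, so it is in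
`𝔽(t) = IntermediateField.adjoin 𝔽 {t}` (`Gal_galois`: `Ω / 𝔽(t)` is Galois, or `br_gal` for `H = Γ_t`).
(1) For every finite set `S ⊂ 𝔽(t)` there is `n > 0` and a finite set `C ⊂ 𝔽` such that `S ⊂ 𝔽_p(t, C)`
(numerators and denominators).  For `γ ∈ Gx p t` there is `a ∈ ℕ` such that `γ` and `φ^a` agree on `C`, where
`φ ∈ Gx p t` is the Frobenius element of `br_frb` (`C` is contained in a finite subfield of `𝔽`, whose
automorphisms are powers of `c ↦ c^p`): so `γ = φ^a` on `S` and on any given further finite subset of `𝔽`.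
(2) Let `S ⊂ Λ` be a finite generating set of `Λ` (the image of a basis of the finite-dimensional
`L^H`), let `j > 0` be minimal with `φ^j = 1` on `Λ` (`br_frb`, second part: exists).  Let `c ∈ 𝔽` with
`c^(p^j) = c`.  If `γ ∈ Gx p t` is the identity on `Λ`, choose by (1) `a` with `γ = φ^a` on `S ∪ {c}`; then
`φ^a = 1` on `Λ`, so `j ∣ a` (minimality) and `γ c = φ^a c = c^(p^a) = c`.  So `c` is fixed by all `γ ∈ Gx p t`
with `γ|Λ = 1`, in particular by all `γ` with `ψ γ ∈ H`; so `c ∈ ι(L)`: (for `γ` with `ψ γ = 1`; the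
elements of `Ω` fixed by `ker ψ` are in `ι(L)`: Galois theory of `Ω / RatFunc`, `IsGalois` over the
subfield `ι(L)`, or `reg_gal` in `Fin/Reg.lean`).  `c = ι y` is algebraic over `𝔽_p`, so by hypothesis `y` is in
the image of `ZMod p`.  So all the `p^j` solutions of `c^(p^j) = c` in `𝔽` (which is algebraically
closed, `br_cst`) are in the prime field: `p^j ≤ p`, `j = 1`.  So `φ = 1` on `Λ`, and by (1) all
`γ ∈ Gx p t` are the identity on `Λ`.
(3) So `Gal(L)` is trivial on `L^H` (`ψ` is onto), `L^H = RatFunc (ZMod p)`, `H = ⊤` (Galois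
correspondence for the finite Galois extension `L`, `IntermediateField.fixingSubgroup_fixedField`). -/
def RglStmt : Prop :=
  ∀ (p : ℕ) [Fact p.Prime] (Ω : Type) [Field Ω] [Algebra (ZMod p) Ω] (t : Ω)
    (hst : IsStage p t) (L : Type) [Field L] [Algebra (RatFunc (ZMod p)) L]
    [FiniteDimensional (RatFunc (ZMod p)) L] [IsGalois (RatFunc (ZMod p)) L] (ι : L →+* Ω)
    (ψ : Gx p t →* (L ≃ₐ[RatFunc (ZMod p)] L)),
    (∀ r, ι (algebraMap (RatFunc (ZMod p)) L r) = emb hst.transc r) → FinLevel ψ →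
    Function.Surjective ψ →
    (∀ (γ : Gx p t) (y : L), ι (ψ γ y) = (γ : Ω ≃ₐ[ZMod p] Ω) (ι y)) →
    (∀ y : L, (∃ f : Polynomial (ZMod p), f ≠ 0 ∧
        Polynomial.eval₂ ((algebraMap (RatFunc (ZMod p)) L).comp
          (algebraMap (ZMod p) (RatFunc (ZMod p)))) y f = 0) →
      ∃ c : ZMod p,
        algebraMap (RatFunc (ZMod p)) L (algebraMap (ZMod p) (RatFunc (ZMod p)) c) = y) →
    ∀ g, ∃ γ : Gx p t, (γ : Ω ≃ₐ[ZMod p] Ω) ∈ Fx p (Cst p Ω : Set Ω) ∧ ψ γ = g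

/-- **Kil.** Abhyankar's lemma: a root of `x` of sufficiently divisible degree kills the tame
ramification over `x = 0`.

*Proof.*  Let `n = card G`, `n'` the part of `n` prime to `p` (`ordCompl[p] n`), `N = n' ^ n`: prime to `p`, and
`ℓ^n ∣ N` for every prime `ℓ ∣ n`, `ℓ ≠ p`.  Suppose `ℓ ∣ m = orderOf (ψ γ)`, `ℓ ≠ p` prime, so `ℓ ∣ n`; put
`γ₁ = γ^(m/ℓ)`: `ψ γ₁` has order `ℓ`, `γ₁ x' = x'`, `γ₁ ∈ Inert p V`.  Let `Γ = Fx p (insert x 𝔽)` (`= Gx p x ⊓
Fx p 𝔽`), `A = {γ ∈ Γ : ψ γ ∈ ⟨ψ γ₁⟩}`, `B = {γ ∈ Γ : ψ γ = 1}`: subgroups which contain the pointwise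
stabilizer of `x`, `𝔽` and a finite set (finite level), so `A = Fx p K`, `B = Fx p M` for levels `K ≤ M`
(`br_gal`, their second claim: `K`, `M` are the fixed fields); `M / K` is finite Galois with group `A / B`
(`Ω / K` is Galois, `isGalois_top`; `B` is normal in `A`), cyclic of order `ℓ` (`A / B` embeds in `⟨ψ γ₁⟩`
and contains the class of `γ₁`).  `𝔽` contains the `ℓ`-th roots of unity, so by Kummer theory
(`Mathlib.FieldTheory.KummerExtension`: `exists_root_adjoin_eq_top_of_isCyclic`) there is `Z ∈ M` with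
`Z ^ ℓ = z ∈ K`, `K(Z) = M`, `z ≠ 0`; `γ₁ Z ≠ Z` (otherwise `γ₁` fixes `M`, `ψ γ₁ = 1`).
Let `v` be the place of `K` below `V` (`br_bel`), `a = v.pord x > 0` (`|x| < 1`).  CLAIM: `a ≤ n`: `v` is over
the place `x = 0` of `K₀ = 𝔽(x)` (`v.res K₀`), where `x` has order `1` (see the docstring of `UnrStmt` in
`Alt/Spec.lean` and its proof in `Alt/Unr.lean`), so `a = v.ram K₀ ≤ [K : K₀]` (`exists_places_over_aux` in
`Crv/PlacesOver_aux.lean`: `Σ` of the ramification indices `= [K : K₀]`) and `[K : K₀] = [Γ : A] ≤ n`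
(for this last step one may use instead any bound: `[M : K₀] = [Γ : B] ≤ n`; or avoid degrees: choose a
normal closure …).  (Alternatively bound `a` by `br_ram`.)
Let `K' = K(x')`, a level, `v'` its place below `V`, `e = v'.ram K` (`pord_algebraMap_eq`:
`v'.pord f = e * v.pord f` for `f ∈ K`).  `x' ^ N = x`: `N * v'.pord x' = v'.pord x = e * a`, so `ℓ^n ∣ e a`;
`0 < a ≤ n < ℓ^n`, so `ℓ^n ∤ a`, and `ℓ ∣ e`.  So `ℓ ∣ v'.pord z`, and `br_kumU` (level `K'`, `n = ℓ`):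
`γ₁ ∈ Fx p K' ⊓ Dec p V` fixes `Z`, contradiction.  (`γ₁` fixes `K` because `γ₁ ∈ A`: it fixes the
constants, as an element of `Inert p V`, and `x = x' ^ N`.) -/
def KilStmt : Prop :=
  ∀ (p : ℕ) [Fact p.Prime] (Ω : Type) [Field Ω] [Algebra (ZMod p) Ω] (x : Ω), IsStage p x →
    ∀ (G : Type) [Group G] [Finite G] (ψ : Gx p x →* G), FinLevel ψ →
    ∃ N : ℕ, 0 < N ∧ N.Coprime p ∧ ∀ x' : Ω, x' ^ N = x → ∀ V : ValuationSubring Ω, V ≠ ⊤ →
      V.valuation x < 1 → ∀ γ : Gx p x, (γ : Ω ≃ₐ[ZMod p] Ω) x' = x' →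
      (γ : Ω ≃ₐ[ZMod p] Ω) ∈ Inert p V → ∀ ℓ : ℕ, ℓ.Prime → ℓ ≠ p → ¬ ℓ ∣ orderOf (ψ γ)

/-- **Top.** A top group has a good realization.

*Proof.*  `Ω = Om p`, `t = xx p`, `isStage_xx`.  `L` from `IsTopGroup`, `e : Gal(L) ≃* G`, `ι`, `ψ₀` from *Emb*.
LOCAL FACT (L): `V ≠ ⊤` a valuation subring of `Ω`, `V_L = V.comap ι`.  Then `V_L ≠ ⊤` (`Ω` is algebraic over
`ι(L)`, and `V` is integrally closed; see the proof of `BelStmt`), `V_L.valuation f < 1 ↔
V.valuation (ι f) < 1`, the same for `= 1` and `1 <` (`val_lt_iff`, or `ValuationSubring.mem_comap`: all of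
them are expressed by membership of `f` and `f⁻¹`), and if `γ ∈ Gx p t ⊓ Inert p V` then
`InertiaAt V_L (ψ₀ γ)`: for `f ∈ V_L`, `|γ (ι f) - ι f| < 1` by `br_res`, last claim with `Q = 1`.
CASE 1: `commutator G ≠ ⊤`.  `x = t`, `ψ = e ∘ ψ₀`.  `fin`, `stage` clear, `reg` by *Rgl*.  `SInv`: `BadV ℓ t V`,
`γ ∈ Inert p V`, `ℓ ∣ orderOf (ψ γ) = orderOf (ψ₀ γ)`: the property of `L` gives `1 < |t|` (impossible: `|t| < 1`,
or `|t^m - 1| < 1` with `m > 0` implies `|t| = 1`), or `commutator G = ⊤` (excluded), or `|t| = 1` and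
`|t^m - 1| < 1 → ℓ ∣ m` for all `m > 0`: but `BadV` gives such an `m` prime to `ℓ` (`ℓ ∣ m` and `m` prime to
`ℓ` is impossible).
CASE 2: `commutator G = ⊤`.  `N` from *Kil* for `t`, `e ∘ ψ₀`.  `x ∈ Ω` with `x^N = t` (`X^N - t` is separable,
`p ∤ N`, `t ≠ 0`; `IsSepClosed.exists_pow_nat_eq` or `exists_root`).  `IsStage p x` (`BC_stage`),
`Gx p x ≤ Gx p t`; `ψ` = the restriction of `e ∘ ψ₀` to `Gx p x`.  `fin` clear.  `reg`: the image `R` of
`Gx p x ⊓ Fx p 𝔽` in `G` contains all commutators: by *Rgl* every element of `G` is `(e ∘ ψ₀) γ`,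
`γ ∈ Gx p t ⊓ Fx p 𝔽`; such `γ`, `δ` satisfy `γ x = ζ x`, `δ x = ξ x` with `ζ^N = ξ^N = 1`, so `ζ, ξ ∈ 𝔽` (algebraic
over `ZMod p`), and `γ δ γ⁻¹ δ⁻¹` fixes `x` and `𝔽`.  So `⊤ = commutator G ≤ R`.  `SInv`: `BadV ℓ x V`, `γ ∈ Inert`,
`ℓ ∣ orderOf (ψ γ)`.  `BadV ℓ t V` (`BC_bad`).  The cases `1 < |t|` and `|t| = 1` are impossible as in case 1; if
`|t| < 1`: *Kil*.
*Uses*: Emb, Rgl, Kil. -/
def TopStmt : Prop :=
  ∀ (p : ℕ) [Fact p.Prime] (G : Type) [Group G] [Finite G], IsTopGroup p G →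
    ∃ (Ω : Type) (_ : Field Ω) (_ : Algebra (ZMod p) Ω) (x : Ω) (ψ : Gx p x →* G), GoodR p x ψ

/-! ## The symmetric groups `S_n`, `3 ≤ n < p`

`f = X^n + n X - (n-1) x`; its roots are `Y_i = x z_i`, `z_i` the roots of `t X^n + n X - (n-1)`,
`t = x^(n-1)`. -/

/-- The polynomial `X^n + n X - (n-1) x`. -/
noncomputable def sf {F : Type} [CommRing F] (n : ℕ) (x : F) : F[X] :=
  X ^ n + C (n : F) * X - C ((n - 1 : F) * x)

/-- **SnM.** Multiple roots of `X^n + n X - (n-1) x`: only `x`, only if `x^(n-1) = -1`, only of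
multiplicity two.

*Proof.*  `n` and `n - 1` are nonzero in `k` (`3 ≤ n < p`).  `f' = n (X^(n-1) + 1)`, `f'' = n (n-1) X^(n-2)`.  If
`(X - r)^2 ∣ f` then `f(r) = f'(r) = 0`: `r^(n-1) = -1`, `r^n = -r`, `0 = f(r) = -r + n r - (n-1) x =
(n-1)(r - x)`, so `r = x`.  If `(X - r)^3 ∣ f` then also `f''(r) = 0`, `r = 0`, contradicting `r^(n-1) = -1`.
(Derivatives: `Polynomial.derivative`, `(X - C r)^2 ∣ f → (X - C r) ∣ derivative f`.) -/
def SnMStmt : Prop :=
  ∀ (p n : ℕ) [Fact p.Prime], 3 ≤ n → n < p → ∀ (k : Type) [Field k] [CharP k p] (x r : k),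
    ((X - C r) ^ 2 ∣ sf n x → r = x ∧ x ^ (n - 1) = -1) ∧ ¬ (X - C r) ^ 3 ∣ sf n x

/-- **SnR.** The roots, the homomorphism to `S_n`, and the local analysis at finite places.

*Proof.*  `f = sf n x` over `Ω` is separable: its derivative `n (X^(n-1) + 1)`; a double root would give
`x^(n-1) = -1` (*SnM* over `Ω` or an algebraic closure), but `x` is transcendental.  `Ω` is separably closed:
`f = ∏ (X - Y_i)`, `Y` injective.  `γ ∈ Gx p x` permutes the roots (`f` is fixed by `γ`):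
`ψ γ ∈ Perm (Fin n)` with `γ Y_i = Y_{ψ γ i}`; homomorphism, of finite level (`S` = the set of the `Y_i`).
Local part: `x ∈ V`: the coefficients are in `V` and `f` is monic, so `Y_i ∈ V`.  Let `k` be the residue
field of `V` (characteristic `p`), `f̄ = sf n x̄ = ∏ (X - Ȳ_i)`.  Let `γ ∈ Gx ⊓ Inert V`: `|γ Y_i - Y_i| < 1`
(`br_res`, `Q = 1`), so `Ȳ_{ψ γ i} = Ȳ_i`.  If `ψ γ i ≠ i` then `(X - Ȳ_i)^2 ∣ f̄`, so by *SnM* `Ȳ_i = x̄` and
`x̄^(n-1) = -1`, that is `|Y_i - x| < 1` and `|x^(n-1) + 1| < 1`; and at most two indices have `Ȳ_i = x̄`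
(otherwise `(X - x̄)^3 ∣ f̄`).  So `ψ γ` is `1` or a transposition (it moves at most two points).
*Uses*: SnM. -/
def SnRStmt : Prop :=
  ∀ (p n : ℕ) [Fact p.Prime], 3 ≤ n → n < p → ∀ (Ω : Type) [Field Ω] [Algebra (ZMod p) Ω] (x : Ω),
    IsStage p x → ∃ (Y : Fin n → Ω) (ψ : Gx p x →* Equiv.Perm (Fin n)), Function.Injective Y ∧
      sf n x = ∏ i, (X - C (Y i)) ∧ FinLevel ψ ∧
      (∀ (γ : Gx p x) (i : Fin n), (γ : Ω ≃ₐ[ZMod p] Ω) (Y i) = Y (ψ γ i)) ∧
      ∀ V : ValuationSubring Ω, V ≠ ⊤ → x ∈ V → ∀ γ : Gx p x,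
        (γ : Ω ≃ₐ[ZMod p] Ω) ∈ Inert p V → ψ γ ≠ 1 →
        V.valuation (x ^ (n - 1) + 1) < 1 ∧ (ψ γ).IsSwap

/-- **SnS.** Ramification at the zeros of `x^(n-1) + 1`: there is a transposition in the geometric
group.

*Proof.*  Let `c ∈ 𝔽` with `c^(n-1) = -1` (`𝔽` is algebraically closed, `br_cst`), `V ≠ ⊤` with
`|x - c| < 1` (`br_abv` for the level `𝔽(x)` and its place `x = c`; see `exists_ord_pos` as in `BR/BC.lean`, or
the docstring of `BCStmt`).  `f(c + u) = ` with `y = c + u`: `f(y) = y^n + n y - (n-1) x`, `f(c) = c^n + n c - (n-1) x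
= (n-1)(c - x)`, `f'(c) = n (c^(n-1) + 1) = 0`, so `f(c + u) = (n-1)(c - x) + u^2 g(u)` with
`g(u) ∈ 𝔽[u]`, `g(0) = n (n-1) c^(n-2) / 2 ≠ 0` (Taylor expansion: `(c + u)^n = c^n + n c^(n-1) u +
u^2 (…)`, the coefficient of `u^2` is `n (n-1)/2 c^(n-2)`; `2 ≠ 0` because `p > n ≥ 3`).  `∏ (c - Y_i) =
f(c) = (n-1)(c - x)` has value `< 1`, so `|Y_i - c| < 1` for some `i` (all `Y_i - c ∈ V`); put
`u = Y_i - c`: `|g(u)| = 1` and `0 = (n-1)(c - x) + u^2 g(u)`, so `|u|^2 = |x - c|`.  If all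
`δ ∈ Gx p x ⊓ Inert p V` fixed `Y_i`, then they fix `u` and by `tUnr` (`Alt/Unr.lean`, `UnrStmt` in
`Alt/Spec.lean`; import `Pool.Agent.Lib.MP_7f581e_Z.Alt.Unr`) `|u| ≤ |x - c|`, `|x - c| = |u|^2 ≤
|x - c|^2`, impossible because `0 < |x - c| < 1` (`x ≠ c`).  So some `δ ∈ Gx ⊓ Inert V` moves `Y_i`. -/
def SnSStmt : Prop :=
  ∀ (p n : ℕ) [Fact p.Prime], 3 ≤ n → n < p → ∀ (Ω : Type) [Field Ω] [Algebra (ZMod p) Ω] (x : Ω),
    IsStage p x → ∀ (Y : Fin n → Ω), sf n x = ∏ i, (X - C (Y i)) →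
    ∃ V : ValuationSubring Ω, V ≠ ⊤ ∧ x ∈ V ∧ ∃ δ ∈ Gx p x ⊓ Inert p V, ∃ i, δ (Y i) ≠ Y i

/-- **SnE.** Irreducibility by Eisenstein's criterion.

*Proof.*  Over the polynomial ring `F[z]` (a principal ideal domain): `P = (n-1) W^(n-1) -
π (W^(n-2) + … + 1)`, `π = n z - (n-1)`, a prime element (degree `1`, `n ≠ 0` in `F`); `P` is `(n-1)` times a
monic polynomial which is Eisenstein at `(π)`: all lower coefficients are divisible by `π`, the constant
coefficient is `-π/(n-1)`, not divisible by `π^2` (`Polynomial.IsEisensteinAt.irreducible`,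
`IsPrimitive`).  By Gauss' lemma (`Polynomial.Monic.irreducible_iff_irreducible_map_fraction_map`) it is
irreducible over the fraction field of `F[z]`, and `F(z) ≅ Frac F[z]` if `z` is transcendental (as in
`Alt/Eis.lean`, `EisStmt`). -/
def SnEStmt : Prop :=
  ∀ (n : ℕ) (F M : Type) [Field F] [Field M] [Algebra F M] (z : M), Transcendental F z →
    3 ≤ n → (n : F) ≠ 0 → (n : F) - 1 ≠ 0 →
    Irreducible (C ((n : IntermediateField.adjoin F {z}) - 1) * X ^ (n - 1) -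
      C ((n : IntermediateField.adjoin F {z}) * IntermediateField.AdjoinSimple.gen F z - (n - 1)) *
        ∑ j ∈ Finset.range (n - 1), X ^ j : (IntermediateField.adjoin F {z})[X])

/-- **SnT.** Two-fold transitivity of the automorphisms of `Ω` over `𝔽(t)`, `t = x^(n-1)`, on the
`z_i = Y_i / x`.

*Proof.*  `x ≠ 0`.  Put `z_i = Y_i / x`.  Dividing `f(Y_i) = 0` by `x`: `t z_i^n + n z_i - (n-1) = 0`, `t = x^(n-1)`.
So `z_i ≠ 0`, `t = -(n z_i - (n-1)) / z_i^n ∈ 𝔽(z_i)`, and `z_i` is transcendental over `𝔽` (otherwise `t`, so `x`,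
would be algebraic over `𝔽`, so over `ZMod p`).  Fix `k` and `z = z_k`, `π = n z - (n-1) = -t z^n`.  For `i ≠ k`
let `w_i = z / z_i ≠ 1`.  From `t z_i^n + n z_i - (n-1) = 0` times `w_i^n`: `-π + n z w_i^(n-1) -
(n-1) w_i^n = 0`, and `(n-1) w^n - n z w^(n-1) + π = (w - 1) ((n-1) w^(n-1) - π (w^(n-2) + … + 1))`
(`(n-1)(w^n - 1) = (n-1)(w-1)(w^(n-1) + … + 1)`, `n z (w^(n-1) - 1) = n z (w-1)(w^(n-2) + … + 1)`,
`n - 1 - n z = -π`).  So the `w_i`, `i ≠ k`, are roots of the polynomial of *SnE* for `F = 𝔽`, `z`, which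
is irreducible over `𝔽(z)`.  `Ω / 𝔽(z)` is Galois: first `IsStage p t` (`t` is transcendental; `x` is separable
over `𝔽_p(t)`, because `X^(n-1) - t` is separable, `p ∤ n - 1`, `t ≠ 0`; so `Ω` is separable over `𝔽_p(t)`:
`Algebra.IsSeparable.trans` or the transitivity of separability for `𝔽_p(t) ⊆ 𝔽_p(t)(x) ⊆ Ω`); `K = 𝔽(z) =
IntermediateField.adjoin 𝔽 {z}` contains `t`, so `isGalois_top` (`BR/LevAux.lean`) for the stage `t` applies.
So for `i, j ≠ k` there is `γ ∈ Gal(Ω / 𝔽(z))` with `γ w_i = w_j` (equal minimal polynomials: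
`w_i`, `w_j` are roots of the same irreducible polynomial), so `γ z_i = z_j`, `γ z_k = z_k`, `γ t = t`.
*Uses*: SnE. -/
def SnTStmt : Prop :=
  ∀ (p n : ℕ) [Fact p.Prime], 3 ≤ n → n < p → ∀ (Ω : Type) [Field Ω] [Algebra (ZMod p) Ω] (x : Ω),
    IsStage p x → ∀ (Y : Fin n → Ω), Function.Injective Y → sf n x = ∏ i, (X - C (Y i)) →
    ∀ i j k : Fin n, i ≠ k → j ≠ k →
      ∃ γ ∈ Fx p (Cst p Ω : Set Ω), γ (x ^ (n - 1)) = x ^ (n - 1) ∧ γ (Y k / x) = Y k / x ∧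
        γ (Y i / x) = Y j / x

/-- **Sn.** The symmetric group `S_n`, `3 ≤ n < p`, has a good realization.

*Proof.*  `Ω = Om p`, `x = xx p`, `Y`, `ψ` from *SnR*.  `SInv`: let `BadV ℓ x V`, `ℓ ≠ p`, `γ ∈ Gx ⊓ Inert V`,
`ℓ ∣ orderOf (ψ γ)`.  `x ∈ V` (`|x| < 1`, or `|x^m - 1| < 1`, `m > 0`, gives `|x| = 1`).  `ψ γ ≠ 1`, so by *SnR*
`|x^(n-1) + 1| < 1` and `ψ γ` is a swap, of order `2`, so `ℓ = 2`.  `|x| < 1` is impossible (`n - 1 > 0`:
`|x^(n-1) + 1| = 1`); so `|x^m - 1| < 1` with `m` odd: in the residue field `x̄^m = 1`, `x̄^(n-1) = -1`, so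
`1 = x̄^(m(n-1)) = (-1)^m = -1`, impossible as `p ≠ 2`.
`reg`: let `Γ_t` = the set of the `γ ∈ Fx p 𝔽` with `γ t = t`, `t = x^(n-1)`, and `z_i = Y_i/x`, the roots of
`t X^n + n X - (n-1)` (all different).  `Γ_t` is a group and permutes the `z_i`: `ρ : Γ_t → Perm (Fin n)`.  For
`γ ∈ Γ_x = Gx p x ⊓ Fx p 𝔽 ≤ Γ_t`: `ρ γ = ψ γ`.  `H = ρ(Γ_x)` is normalized by `ρ(Γ_t)`: for `δ ∈ Γ_t`,
`δ x = ζ x` with `ζ^(n-1) = 1`, `ζ ∈ 𝔽`, so `δ γ δ⁻¹` fixes `x` for `γ ∈ Γ_x`.  By *SnT* the stabilizer of `k` in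
`ρ(Γ_t)` is transitive on the other points, for every `k`; as `n ≥ 3`, `ρ(Γ_t)` is transitive (`i ≠ j`: use
`k ≠ i, j`), so doubly transitive.  By *SnS* and *SnR* `H` contains a transposition `swap a b` (`ψ δ ≠ 1`
because `δ Y_i ≠ Y_i`).  Conjugating by `ρ(Γ_t)`: `H` contains all transpositions, `H = ⊤`
(`Equiv.Perm.closure_isSwap`).
*Uses*: SnR, SnS, SnT. -/
def SnStmt : Prop :=
  ∀ (p n : ℕ) [Fact p.Prime], 3 ≤ n → n < p →
    ∃ (Ω : Type) (_ : Field Ω) (_ : Algebra (ZMod p) Ω) (x : Ω)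
      (ψ : Gx p x →* Equiv.Perm (Fin n)), GoodR p x ψ

end Top

end MP7Z
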