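import Pool.Agent.Lib.MP_7f581e_Z.Top.Spec

/-!
# Direct products with symmetric groups, and `S_6` in characteristic `2`, `3`, `5`

Continuation of `Top/Spec.lean` (same conventions: each `def XStmt : Prop` is one Lean task, file
`Top/X.lean`, `theorem tX : XStmt` in the namespace `MP7Z.Top`; statements listed under *Uses* are
hypotheses of `tX`, in the given order).  Finished files to imitate: `Top/SnM.lean`, `Top/SnR.lean`,
`Top/SnS.lean`, `Top/SnE.lean`, `Top/SnT.lean`.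
-/

set_option autoImplicit false

namespace MP7Z

namespace Top

open Polynomial

/-- A family of realizations of `S_n`, one for each stage `x`: the geometric Galois group is `S_n`;
at a place where `x` is finite, the nontrivial elements of the inertia group are mapped to
transpositions, and they exist if and only if `q(x) ≡ 0`, where `q` divides `X^e + 1`. -/
def SymFam (p n : ℕ) [Fact p.Prime] : Prop :=
  ∃ (q : (ZMod p)[X]) (e : ℕ), 0 < e ∧ q ∣ X ^ e + 1 ∧ 0 < q.natDegree ∧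
    ∀ (Ω : Type) [Field Ω] [Algebra (ZMod p) Ω] (x : Ω), IsStage p x →
      ∃ ψ : Gx p x →* Equiv.Perm (Fin n), FinLevel ψ ∧
        (∀ g, ∃ γ : Gx p x, (γ : Ω ≃ₐ[ZMod p] Ω) ∈ Fx p (Cst p Ω : Set Ω) ∧ ψ γ = g) ∧
        (∀ V : ValuationSubring Ω, V ≠ ⊤ → x ∈ V → ∀ γ : Gx p x,
          (γ : Ω ≃ₐ[ZMod p] Ω) ∈ Inert p V → ψ γ ≠ 1 →
          V.valuation (aeval x q) < 1 ∧ (ψ γ).IsSwap) ∧
        ∀ V : ValuationSubring Ω, V ≠ ⊤ → x ∈ V → V.valuation (aeval x q) < 1 →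
          ∃ γ : Gx p x, (γ : Ω ≃ₐ[ZMod p] Ω) ∈ Inert p V ∧ ψ γ ≠ 1

/-! ## The symmetric groups `S_n`, `3 ≤ n < p`, again -/

/-- **SnW.** *SnS* for every place with `x^(n-1) ≡ -1`.

*Proof.*  `x^(n-1) + 1 = ∏ (x - c_i)`, `c_i ∈ 𝔽` (`𝔽` is algebraically closed, `br_cst`), so `|x - c| < 1`
for some `c ∈ 𝔽` with `c^(n-1) = -1` (all `x - c_i` are in `V`).  The rest is the proof of *SnS* (`Top/SnS.lean`,
from the line `obtain ⟨hR1, …⟩` on; copy it, or move it to a lemma). -/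
def SnWStmt : Prop :=
  ∀ (p n : ℕ) [Fact p.Prime], 3 ≤ n → n < p → ∀ (Ω : Type) [Field Ω] [Algebra (ZMod p) Ω] (x : Ω),
    IsStage p x → ∀ (Y : Fin n → Ω), sf n x = ∏ i, (X - C (Y i)) →
    ∀ V : ValuationSubring Ω, V ≠ ⊤ → x ∈ V → V.valuation (x ^ (n - 1) + 1) < 1 →
      ∃ δ ∈ Gx p x ⊓ Inert p V, ∃ i, δ (Y i) ≠ Y i

/-- **SnF.** The family for `3 ≤ n < p`: `q = X^(n-1) + 1`, `e = n - 1`.

*Proof.*  As the proof of *Sn* (docstring of `SnStmt` in `Top/Spec.lean`), for an arbitrary stage `x`: `Y`, `ψ`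
from *SnR*; the third condition is the last clause of *SnR*; the fourth condition is *SnW* (`δ (Y i) ≠ Y i`
gives `ψ δ ≠ 1`); the second condition is the claim `reg` of *Sn* (a transposition in the geometric group:
*SnS* and *SnR*).
*Uses*: SnR, SnW, SnS, SnT. -/
def SnFStmt : Prop :=
  ∀ (p n : ℕ) [Fact p.Prime], 3 ≤ n → n < p → SymFam p n

/-! ## The symmetric group `S_6` in characteristic `2`, `3`, `5`

`f = X^6 + a X^4 + a X^3 + X^2 - x X + 1`, `a = 1` for `p = 2` and `a = 0` for `p = 3, 5`; so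
`f = X h - x X + 1`, `h = X^5 + a X^3 + a X^2 + X`, and `x = h(z) + 1/z` for a root `z`. -/

/-- `1` for `p = 2`, `0` otherwise. -/
def a6 (p : ℕ) : ℕ := if p = 2 then 1 else 0

/-- The polynomial `X^6 + a X^4 + a X^3 + X^2 - x X + 1`. -/
noncomputable def s6 (p : ℕ) {F : Type} [CommRing F] (x : F) : F[X] :=
  X ^ 6 + C (a6 p : F) * X ^ 4 + C (a6 p : F) * X ^ 3 + X ^ 2 - C x * X + 1

/-- The branch locus: `X + 1` (`p = 2`), `X^6 - X^2 + 1` (`p = 3`), `X^2 + 1` (`p = 5`). -/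
noncomputable def q6 (p : ℕ) : (ZMod p)[X] :=
  if p = 2 then X + 1 else if p = 3 then X ^ 6 - X ^ 2 + 1 else X ^ 2 + 1

/-- **S6M.** Multiple roots.

*Proof.*  If `(X - r)^2 ∣ f` then `f(r) = f'(r) = 0`.
`p = 2`: `f' = X^2 + x`, `x = r^2`, `f(r) = r^6 + r^4 + r^2 + 1 = (r + 1)^6`, so `r = 1`, `x = 1`.  Conversely for
`x = 1`: `f = (X + 1)^2 (X^4 + X + 1)`.
`p = 3`: `f' = 2 X - x`, `r = -x`, `f(r) = x^6 - x^2 + 1`.  Conversely for `x^6 - x^2 + 1 = 0`, `r = -x`: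
`r ≠ 0`, `f = (X - r)^2 ((X - r) (X + r)^3 + 1)` (use `(X^2 - r^2)^3 = X^6 - r^6` and `r^6 = r^2 - 1`).
`p = 5`: `f' = X^5 + 2 X - x`, `x = r^5 + 2 r`, `f(r) = 1 - r^2`, so `r^2 = 1`, `x = 3 r`, `r = 2 x`, `x^2 = 9 = -1`.
Conversely for `x^2 = -1`, `r = 2 x`: `r^2 = 1`, `f = (X - r)^2 (X (X - r)^3 + 1)` (use `(X - r)^5 = X^5 - r`).
`(X - r)^3 ∣ f` is impossible: `f = (X - r)^2 g` with `g(r) ≠ 0` (cancel `(X - r)^2`).
(Characteristic: `CharP.cast_eq_zero k p`; e.g. for `p = 3` prove `(3 : k) = 0` and use `linear_combination`,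
for polynomials use `C` of it.) -/
def S6MStmt : Prop :=
  ∀ (p : ℕ) [Fact p.Prime], p = 2 ∨ p = 3 ∨ p = 5 →
    ∀ (k : Type) [Field k] [Algebra (ZMod p) k] (x : k),
    (∀ r : k, (X - C r) ^ 2 ∣ s6 p x → aeval x (q6 p) = 0 ∧
      (∀ r' : k, (X - C r') ^ 2 ∣ s6 p x → r' = r) ∧ ¬ (X - C r) ^ 3 ∣ s6 p x) ∧
    (aeval x (q6 p) = 0 →
      ∃ (r : k) (g : k[X]), r ≠ 0 ∧ s6 p x = (X - C r) ^ 2 * g ∧ g.eval r ≠ 0)

/-- **S6R.** The roots, the homomorphism to `S_6`, and the local analysis at finite places.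

*Proof.*  As `Top/SnR.lean`, with `s6 p x` for `sf n x`.  `f` is separable: otherwise it has a double root in
`Ω` or an algebraic closure and `q6(x) = 0` by *S6M* (`q6 ≠ 0`), but `x` is transcendental
(`Polynomial.Separable`: if `f`, `f'` are not coprime they have a common root in the algebraic closure,
so `(X - r)^2 ∣ f` there).  Local part: `x ∈ V`; if `ψ γ i ≠ i` for an inertia element then `(X - Ȳ_i)^2 ∣ f̄`,
so `q6(x̄) = 0` and `Ȳ_i` is the only multiple root, of multiplicity `2`.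
*Uses*: S6M. -/
def S6RStmt : Prop :=
  ∀ (p : ℕ) [Fact p.Prime], p = 2 ∨ p = 3 ∨ p = 5 →
    ∀ (Ω : Type) [Field Ω] [Algebra (ZMod p) Ω] (x : Ω),
    IsStage p x → ∃ (Y : Fin 6 → Ω) (ψ : Gx p x →* Equiv.Perm (Fin 6)), Function.Injective Y ∧
      s6 p x = ∏ i, (X - C (Y i)) ∧ FinLevel ψ ∧
      (∀ (γ : Gx p x) (i : Fin 6), (γ : Ω ≃ₐ[ZMod p] Ω) (Y i) = Y (ψ γ i)) ∧
      ∀ V : ValuationSubring Ω, V ≠ ⊤ → x ∈ V → ∀ γ : Gx p x,
        (γ : Ω ≃ₐ[ZMod p] Ω) ∈ Inert p V → ψ γ ≠ 1 →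
        V.valuation (aeval x (q6 p)) < 1 ∧ (ψ γ).IsSwap

/-- **S6S.** Ramification at the zeros of `q6(x)`.

*Proof.*  As `Top/SnS.lean` (and *SnW*).  `q6 = ∏ (X - c_i)` over `𝔽` (monic, `𝔽` algebraically closed,
`br_cst`), so `|x - c| < 1` for some `c ∈ 𝔽` with `q6(c) = 0`.  *S6M* for `𝔽`, `c`: `s6 p c = (X - r)^2 g`,
`r ≠ 0`, `g(r) ≠ 0`.  `s6 p x = s6 p c - (x - c) X`.  At `r`: `∏ (r - Y_i) = -(x - c) r` has value `< 1`, so
`|r - Y_i| < 1` for some `i` (`Y_i ∈ V`: integral over `V`; or: if all `|r - Y_i| ≥ 1` the product is `≥ 1`).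
`u = Y_i - r`: `u^2 g(Y_i) = (x - c) Y_i`, `|Y_i| = |r| = 1`, `|g(Y_i)| = |g(r)| = 1`, so `|u|^2 = |x - c|`.
If all `δ ∈ Gx ⊓ Inert V` fixed `Y_i` then `tUnr` gives `|u| ≤ |x - c|`, impossible (`0 < |x - c| < 1`).
*Uses*: S6M. -/
def S6SStmt : Prop :=
  ∀ (p : ℕ) [Fact p.Prime], p = 2 ∨ p = 3 ∨ p = 5 →
    ∀ (Ω : Type) [Field Ω] [Algebra (ZMod p) Ω] (x : Ω),
    IsStage p x → ∀ (Y : Fin 6 → Ω), s6 p x = ∏ i, (X - C (Y i)) →
    ∀ V : ValuationSubring Ω, V ≠ ⊤ → x ∈ V → V.valuation (aeval x (q6 p)) < 1 →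
      ∃ δ ∈ Gx p x ⊓ Inert p V, ∃ i, δ (Y i) ≠ Y i

/-- **S6E.** Irreducibility by Eisenstein's criterion at `z`.

*Proof.*  The polynomial is monic of degree `5`, all lower coefficients are divisible by `z` in `F[z]`, and the
constant coefficient is `-z`; `z` is a prime element of `F[z]`.  As `Top/SnE.lean`. -/
def S6EStmt : Prop :=
  ∀ (F M : Type) [Field F] [Field M] [Algebra F M] (z : M) (a : ℕ), Transcendental F z →
    Irreducible (X ^ 5 - C (IntermediateField.AdjoinSimple.gen F z) *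
      (1 + C (IntermediateField.AdjoinSimple.gen F z) * X +
        C (IntermediateField.AdjoinSimple.gen F z ^ 2 + (a : IntermediateField.adjoin F {z})) *
          X ^ 2 +
        C (IntermediateField.AdjoinSimple.gen F z ^ 3 +
          (a : IntermediateField.adjoin F {z}) * IntermediateField.AdjoinSimple.gen F z +
          (a : IntermediateField.adjoin F {z})) * X ^ 3 +
        C (IntermediateField.AdjoinSimple.gen F z ^ 4 +
          (a : IntermediateField.adjoin F {z}) * IntermediateField.AdjoinSimple.gen F z ^ 2 +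
          (a : IntermediateField.adjoin F {z}) * IntermediateField.AdjoinSimple.gen F z + 1) *
          X ^ 4) : (IntermediateField.adjoin F {z})[X])

/-- **S6T.** Two-fold transitivity of the geometric Galois group on the roots.

*Proof.*  As `Top/SnT.lean`, simpler (no `x^(n-1)`).  `Y_l ≠ 0` (`f(0) = 1`).  `z = Y_k`: `x = h(z) + 1/z ∈ 𝔽(z)`,
so `z` is transcendental over `𝔽`.  For `i ≠ k`, `y = Y_i`, `w = 1/y`: subtracting the equations for `y` and
`z` and dividing by `y - z`: `z y h₁ = 1`, `h₁ = (h(y) - h(z))/(y - z) = (y^4 + y^3 z + y^2 z^2 + y z^3 + z^4) +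
a (y^2 + y z + z^2) + a (y + z) + 1`; multiplying by `w^5`: `w` is a root of the polynomial of *S6E* for
`F = 𝔽`, `z`, `a = a6 p`, which is irreducible over `𝔽(z)`.  `Ω / 𝔽(z)` is Galois (`LevAux.isGalois_top` for the
stage `x`, `x ∈ 𝔽(z)`), so `1/Y_i` and `1/Y_j` are conjugate over `𝔽(z)`.
*Uses*: S6E. -/
def S6TStmt : Prop :=
  ∀ (p : ℕ) [Fact p.Prime] (Ω : Type) [Field Ω] [Algebra (ZMod p) Ω] (x : Ω),
    IsStage p x → ∀ (Y : Fin 6 → Ω), Function.Injective Y → s6 p x = ∏ i, (X - C (Y i)) →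
    ∀ i j k : Fin 6, i ≠ k → j ≠ k →
      ∃ γ ∈ Fx p (insert x (Cst p Ω : Set Ω)), γ (Y k) = Y k ∧ γ (Y i) = Y j

/-- **S6F.** The family for `S_6`, `p = 2, 3, 5`.

*Proof.*  `q = q6 p`, `e = 1, 26, 2`: `X + 1 ∣ X + 1`; `X^6 - X^2 + 1 ∣ X^26 + 1` over `𝔽_3`: with `u = X^2`,
`u^3 ≡ u - 1`, `u^9 ≡ u + 1`, `u^13 ≡ (u + 1)(u - 1) u = u^3 - u ≡ -1` modulo `u^3 - u + 1`; `X^2 + 1 ∣ X^2 + 1`.
`Y`, `ψ` from *S6R*.  Third condition: *S6R*.  Fourth condition: *S6S*.  Second condition: the image `H` of the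
geometric Galois group `Γ_x = Fx p (insert x 𝔽)` in `Perm (Fin 6)` is doubly transitive by *S6T* (the stabilizer
of `k` is transitive on the other points, for every `k`) and contains a transposition (`q6` has a root `c ∈ 𝔽`;
a place with `|x - c| < 1` exists, see `Top/SnS.lean`; *S6S* and *S6R*); so `H` contains all transpositions
and is everything (as in *Sn*).
*Uses*: S6R, S6S, S6T. -/
def S6FStmt : Prop :=
  ∀ (p : ℕ) [Fact p.Prime], p = 2 ∨ p = 3 ∨ p = 5 → SymFam p 6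

/-! ## Direct products -/

/-- **One.** An element has value `1` at almost all places; and there are places over all points.

*Proof.*  `f` is algebraic over `𝔽(x)`, `f ≠ 0`: there is a polynomial relation `a_d f^d + … + a_0 = 0` with
`a_j = A_j(x)`, `A_j ∈ 𝔽[X]`, `A_d ≠ 0`, `A_0 ≠ 0` (take the minimal polynomial over `𝔽(x)` and clear
denominators; the constant coefficient of the minimal polynomial of `f ≠ 0` is not zero).  `R` = the set of
the roots of `A_0` and `A_d`.  If `|x - c| < 1`, `c ∉ R`, then `x ∈ V`, `|a_j| ≤ 1`, and `|a_0| = |a_d| = 1`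
(`A_0(x) ≡ A_0(c) ≠ 0`).  If `|f| > 1` the term `a_d f^d` is larger than all others; if `|f| < 1`, `a_0` is
larger than all others; both are impossible.  Second claim: see `Top/SnS.lean`. -/
def OneStmt : Prop :=
  ∀ (p : ℕ) [Fact p.Prime] (Ω : Type) [Field Ω] [Algebra (ZMod p) Ω] (x : Ω), IsStage p x →
    (∀ f : Ω, f ≠ 0 → ∃ R : Finset Ω, ∀ c ∈ Cst p Ω, c ∉ R → ∀ V : ValuationSubring Ω, V ≠ ⊤ →
      V.valuation (x - c) < 1 → V.valuation f = 1) ∧
    ∀ c ∈ Cst p Ω, ∃ V : ValuationSubring Ω, V ≠ ⊤ ∧ V.valuation (x - c) < 1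

/-- **Nra.** A homomorphism of finite level is unramified at almost all points.

*Proof.*  `S` from `FinLevel ψ`; enlarge it to the finite set `S'` of all `γ s`, `s ∈ S`, `γ ∈ Gx p x` (the orbit
of `s` is finite: `s` is algebraic over `ZMod p (x)`, the `γ s` are roots of its minimal polynomial).
`R` = the union of the sets of *One* for the elements `s ≠ 0` of `S'` and for the differences `s - s'` of
different elements of `S'`.  Let `γ ∈ Inert p V`, `s ∈ S`: `s ∈ V`, so `|γ s - s| < 1` (`br_res`, last claim with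
`Q = 1`, see `Top/SnR.lean`), and `γ s ∈ S'`, so `γ s = s`.
*Uses*: One. -/
def NraStmt : Prop :=
  ∀ (p : ℕ) [Fact p.Prime] (Ω : Type) [Field Ω] [Algebra (ZMod p) Ω] (x : Ω), IsStage p x →
    ∀ (G : Type) [Group G] (ψ : Gx p x →* G), FinLevel ψ →
    ∃ R : Finset Ω, ∀ c ∈ Cst p Ω, c ∉ R → ∀ V : ValuationSubring Ω, V ≠ ⊤ →
      V.valuation (x - c) < 1 → ∀ γ : Gx p x, (γ : Ω ≃ₐ[ZMod p] Ω) ∈ Inert p V → ψ γ = 1

/-- **Prd.** Direct products with symmetric groups.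

*Proof.*  `R` from *Nra* for `ψ`.  `q`, `e` from `SymFam`; `q` has a root `c₀` in `𝔽` (`br_cst`), `c₀^e = -1`, so
`c₀ ≠ 0`.  Choose `m > card R` prime to `p` (`m = p j + 1`); `X^m = c₀` has `m` different roots in `𝔽` (separable),
let `c ∉ R` be one of them.  `y = x^m`, `IsStage p y` (`SnT_stage` in `Top/SnT.lean`), `φ : Gx p y → Perm (Fin n)`
from the family; `Gx p x ≤ Gx p y`; `ψ' γ = (ψ γ, φ γ)`.
`stage` is the hypothesis; `fin`: union of the two finite sets.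
`SInv`: let `ℓ ≠ p`, `BadV ℓ x V`, `γ ∈ Inert p V`.  `ℓ` does not divide `orderOf (ψ γ)`; `orderOf (ψ' γ)` is the
least common multiple (`Prod.orderOf`), so suppose `ℓ ∣ orderOf (φ γ)`.  `x ∈ V`, `y ∈ V`, `φ γ ≠ 1`, so `φ γ` is a
transposition, `ℓ = 2`, and `|q(y)| < 1`, so `|y^e + 1| < 1`, `|x^(m e) + 1| < 1`.  `|x| < 1` is impossible; so
`|x^k - 1| < 1` with `k` odd; in the residue field `-1 = (-1)^k = x̄^(m e k) = 1`, impossible (`p ≠ 2`).
`reg`: let `Γ_x = Gx p x ⊓ Fx p 𝔽 ≤ Γ_y`.  By *One* there is `V ≠ ⊤` with `|x - c| < 1`; `|y - c₀| < 1`,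
`|q(y)| < 1`, so there is `δ ∈ Gx p y ⊓ Inert p V` with `φ δ ≠ 1`, a transposition.  `δ x = ζ x` with
`ζ^m = 1`, `ζ ∈ 𝔽`; `|δ x - x| < 1` (`br_res`) and `|x| = 1` (`c ≠ 0`), so `|ζ - 1| < 1` and `ζ = 1` (`br_res`,
constants are units or zero): `δ ∈ Gx p x`.  `ψ δ = 1` (*Nra*).
`φ(Γ_x)` is normal in `φ(Γ_y) = ⊤` (for `g ∈ Γ_y`: `g x = ξ x`, `ξ ∈ 𝔽`, so `g γ g⁻¹` fixes `x` for `γ ∈ Γ_x`) and
contains the transposition `φ δ`, so all transpositions (`Equiv.Perm.isConj_swap` or conjugation), so it is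
`⊤` (`Equiv.Perm.closure_isSwap`).  `H = φ(Γ_x ∩ ker ψ)` is normal in `φ(Γ_x) = ⊤` and contains `φ δ`, so
`H = ⊤`.  Given `(a, s)`: `γ ∈ Γ_x` with `ψ γ = a` (`GoodR.reg`), `δ' ∈ Γ_x ∩ ker ψ` with
`φ δ' = (φ γ)⁻¹ s`; take `γ δ'`.
*Uses*: One, Nra. -/
def PrdStmt : Prop :=
  ∀ (p n : ℕ) [Fact p.Prime], SymFam p n →
    ∀ (Ω : Type) [Field Ω] [Algebra (ZMod p) Ω] (x : Ω) (G : Type) [Group G] [Finite G]
      (ψ : Gx p x →* G), GoodR p x ψ →
      ∃ ψ' : Gx p x →* G × Equiv.Perm (Fin n), GoodR p x ψ'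

/-- **Per.** Composition factors of `S_n`.

*Proof.*  `n ≥ 5`: the kernel of `sign : Perm (Fin n) → ℤˣ` is `alternatingGroup (Fin n)`; `ℤˣ` has order `2`
(`HasFactors.ext` or `HasFactors.extension`).  `n ≤ 4`: `Perm (Fin n)` is solvable (Mathlib:
`Equiv.Perm.isSolvable`? or `isSolvable_of_card_le`; if absent, through `Perm (Fin 4) → Perm (Fin 3)` or by
`decide`), and a finite solvable group has a series with factors of prime order (induction on the order: a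
nontrivial solvable group has a normal subgroup of prime index). -/
def PerStmt : Prop :=
  ∀ (𝒮 : (S : Type) → [Group S] → Prop), (∀ (S : Type) [Group S], 𝒮 S → IsSimpleGroup S) →
    (∀ (S T : Type) [Group S] [Group T], (S ≃* T) → 𝒮 S → 𝒮 T) →
    ∀ n : ℕ, (n ≤ 4 ∨ (5 ≤ n ∧ 𝒮 (alternatingGroup (Fin n)))) →
      MP7fC.HasFactors (fun S [Group S] => (Nat.card S).Prime ∨ 𝒮 S) (Equiv.Perm (Fin n))

end Top

end MP7Z
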